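import Pool.Agent.MP_3a00c0_gt.Mg.Geo
import Pool.Agent.MP_3fed84_gt.TDS

-- part MP_3a00c0_gt.LemA
section

/-! At a boundary point at most one direction stops being parallel. -/

open Set Metric Filter Topology
open scoped ContDiff RealInnerProductSpace

set_option maxSynthPendingDepth 3
set_option linter.unusedSectionVars false

namespace Pool.Agent.MP_3a00c0_gt

open Pool.Agent.MP_3fed84_gt

theorem lema_nonneg {E : Type} [AddCommGroup E] [Module ℝ E] (G : E →ₗ[ℝ] E →ₗ[ℝ] ℝ)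
    (hp : ∀ a, a ≠ 0 → 0 < G a a) (a : E) : 0 ≤ G a a := by
  rcases eq_or_ne a 0 with rfl | h
  · simp
  · exact (hp a h).le

theorem lema_cone {E : Type} [AddCommGroup E] [Module ℝ E] (G : E →ₗ[ℝ] E →ₗ[ℝ] ℝ)
    (hs : ∀ a b, G a b = G b a) (hp : ∀ a, a ≠ 0 → 0 < G a a) {n : E} (hn : n ≠ 0) (b : E)
    (hc : ∀ τ, G τ n = 0 → G τ τ ≤ 4 * G n n → 0 ≤ G (n + τ) b) :
    0 ≤ G n b ∧ 4 * G n n * G b b ≤ 5 * G n b ^ 2 := by
  have hν := hp n hn
  have h0 : 0 ≤ G n b := by simpa using hc 0 (by simp) (by simpa using hν.le)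
  refine ⟨h0, ?_⟩
  set v := G n n • b - G n b • n with hv
  have v1 : G v n = 0 := by simp [hv, hs b n]; ring
  have v2 : G v b = G n n * G b b - G n b ^ 2 := by simp [hv]; ring
  have v3 : G v v = G n n * G v b := by
    conv_lhs => rw [hv]
    rw [← hv, map_sub, map_smul, map_smul, v1]; simp
  by_cases hB : G v b ≤ 0
  · nlinarith
  push Not at hB
  set t := √(4 / G v b) with ht
  have t0 : 0 ≤ t := Real.sqrt_nonneg _
  have t1 : t ^ 2 * G v b = 4 := by
    rw [ht, Real.sq_sqrt (by positivity)]; field_simp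
  have h1 := hc (-t • v) (by simp [v1]) (by
    simp only [map_smul, LinearMap.smul_apply, smul_eq_mul, v3]
    nlinarith)
  simp only [map_add, map_smul, LinearMap.add_apply, LinearMap.smul_apply, smul_eq_mul] at h1
  have h2 : (t * G v b) ^ 2 ≤ G n b ^ 2 := pow_le_pow_left₀ (by positivity) (by linarith) 2
  nlinarith

theorem lema_core {E V : Type} [AddCommGroup E] [Module ℝ E] [AddCommGroup V] [Module ℝ V]
    (G : E →ₗ[ℝ] E →ₗ[ℝ] ℝ) (hs : ∀ a b, G a b = G b a) (hp : ∀ a, a ≠ 0 → 0 < G a a)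
    (β : V →ₗ[ℝ] V →ₗ[ℝ] E) (hβ : ∀ X Y, β X Y = β Y X)
    (hg : ∀ X Y, G (β X X) (β Y Y) ≤ G (β X Y) (β X Y)) {n : E} (hn : n ≠ 0) {X Y : V} {P : ℝ}
    (hP : 0 < P) (h1 : G n (β X X) = P) (h2 : G n (β Y Y) = P) (h3 : G n (β X Y) = 0)
    (k1 : 4 * G n n * G (β X X) (β X X) ≤ 5 * G n (β X X) ^ 2)
    (k2 : 4 * G n n * G (β Y Y) (β Y Y) ≤ 5 * G n (β Y Y) ^ 2)
    (k3 : 4 * G n n * G (β (X + Y) (X + Y)) (β (X + Y) (X + Y)) ≤ 5 * G n (β (X + Y) (X + Y)) ^ 2)
    (k4 : 4 * G n n * G (β (X - Y) (X - Y)) (β (X - Y) (X - Y)) ≤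
      5 * G n (β (X - Y) (X - Y)) ^ 2) : False := by
  have hν := hp n hn
  have h4 := hg X Y
  have h5 := lema_nonneg G hp (G n n • (β X X + β Y Y) - (2 * P) • n)
  simp only [map_add, map_sub, map_smul, LinearMap.add_apply, LinearMap.sub_apply,
    LinearMap.smul_apply, smul_eq_mul, hβ Y X, hs (β X X) n, hs (β Y Y) n, hs (β Y Y) (β X X),
    hs (β X Y) (β X X), hs (β X Y) (β Y Y), h1, h2, h3] at k1 k2 k3 k4 h5
  have h6 : 4 * P ^ 2 ≤ G n n * (G (β X X) (β X X) + 2 * G (β X X) (β Y Y) + G (β Y Y) (β Y Y)) :=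
    le_of_mul_le_mul_left (by linarith) hν
  have h7 := mul_le_mul_of_nonneg_left h4 hν.le
  nlinarith [pow_pos hP 2]

/- For b with 0 ≤ G (n + τ) b for all admissible τ one gets 0 ≤ G n b and
4 ν G b b ≤ 5 (G n b)², ν = G n n (take τ a negative multiple of b - (G b n/ν) n).  The form
q(X, Y) = G n (β X Y) is positive semidefinite on the span of U₁, U₂.  If it vanishes on some
X = a U₁ + b U₂ with (a, b) ≠ 0 then β X X = 0.  Otherwise Gram-Schmidt gives q-orthonormal X, Y;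
with b₁ = β X X, b₂ = β Y Y, b₁₂ = β X Y: the cone condition for X + Y and X - Y gives
G b₁₂ b₁₂ ≤ 1/(4ν), while G b₁ b₂ ≥ 1/ν - 1/(4ν); this contradicts hg. -/
theorem cone_lemma {E V : Type} [AddCommGroup E] [Module ℝ E] [AddCommGroup V] [Module ℝ V]
    (G : E →ₗ[ℝ] E →ₗ[ℝ] ℝ) (hs : ∀ a b, G a b = G b a) (hp : ∀ a, a ≠ 0 → 0 < G a a)
    (β : V →ₗ[ℝ] V →ₗ[ℝ] E) (hβ : ∀ X Y, β X Y = β Y X)
    (hg : ∀ X Y, G (β X X) (β Y Y) ≤ G (β X Y) (β X Y)) {n : E} (hn : n ≠ 0) (U₁ U₂ : V)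
    (hc : ∀ a b : ℝ, ∀ τ, G τ n = 0 → G τ τ ≤ 4 * G n n →
      0 ≤ G (n + τ) (β (a • U₁ + b • U₂) (a • U₁ + b • U₂))) :
    ∃ a b : ℝ, (a ≠ 0 ∨ b ≠ 0) ∧ β (a • U₁ + b • U₂) (a • U₁ + b • U₂) = 0 := by
  by_contra hcon
  push Not at hcon
  have hν := hp n hn
  have K := fun a b => lema_cone G hs hp hn _ (hc a b)
  have hpos : ∀ a b : ℝ, (a ≠ 0 ∨ b ≠ 0) → 0 < G n (β (a • U₁ + b • U₂) (a • U₁ + b • U₂)) := by
    intro a b hab
    refine lt_of_le_of_ne (K a b).1 fun h => ?_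
    have h1 := (K a b).2
    have h2 := mul_pos hν (hp _ (hcon a b hab))
    rw [← h] at h1
    linarith
  set P := G n (β U₁ U₁) with hP
  set Q := G n (β U₁ U₂) with hQ
  have P0 : 0 < P := by simpa using hpos 1 0 (Or.inl one_ne_zero)
  have S0 := hpos (-Q) P (Or.inr P0.ne')
  set S := G n (β ((-Q) • U₁ + P • U₂) ((-Q) • U₁ + P • U₂)) with hS
  set t := √(P / S) with ht
  have t1 : t ^ 2 * S = P := by rw [ht, Real.sq_sqrt (by positivity)]; field_simp
  have e1 : U₁ = (1 : ℝ) • U₁ + (0 : ℝ) • U₂ := by module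
  have e2 : t • ((-Q) • U₁ + P • U₂) = (-(t * Q)) • U₁ + (t * P) • U₂ := by module
  have e3 : U₁ + t • ((-Q) • U₁ + P • U₂) = (1 - t * Q) • U₁ + (t * P) • U₂ := by module
  have e4 : U₁ - t • ((-Q) • U₁ + P • U₂) = (1 + t * Q) • U₁ + (-(t * P)) • U₂ := by module
  refine lema_core G hs hp β hβ hg hn (X := U₁) (Y := t • ((-Q) • U₁ + P • U₂)) P0 rfl ?_ ?_
    ?_ ?_ ?_ ?_
  · rw [map_smul, map_smul, map_smul, LinearMap.smul_apply, map_smul, ← hS]
    simp only [smul_eq_mul]; linarith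
  · simp only [map_add, map_smul, smul_eq_mul, ← hP, ← hQ]; ring
  · have := (K 1 0).2
    rwa [← e1] at this
  · rw [e2]; exact (K _ _).2
  · rw [e3]; exact (K _ _).2
  · rw [e4]; exact (K _ _).2

variable {E : Type} [NormedAddCommGroup E] [InnerProductSpace ℝ E] [FiniteDimensional ℝ E]
  {M : Type} [TopologicalSpace M] [T2Space M] [PreconnectedSpace M] [CompactSpace M]
  {𝒜 : Atlas E M} {V : Type} [NormedAddCommGroup V] [NormedSpace ℝ V] [FiniteDimensional ℝ V]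

/- Chart c normalised at σ r, velocity n, Nice c δ ε X, η from inner_ball for κ = 1/16.  Points
z ≠ 0, ‖z‖ < η, ⟪z, n⟫ ≤ -‖z‖/16 lie in the open d-ball, which is contained in Om X for every
X = a U₁ + b U₂ (continuous_d, linearity of A).  Take q = e n with e small.  For τ as in
cone_lemma (G = c.G q, ‖τ‖ ≤ 3, |⟪τ, n⟫| ≤ 3/100 by met) and w = -2 e (n + τ), near shows that
X (q, w) is such a point z, so ray_rauch gives 0 ≤ G (A X w) (ev X) = - G w (A X (ev X)).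
With gauss_le and comm, cone_lemma yields X with A X (ev X) = 0 at q.  Let w₁ = log of 0 at q
(‖w₁ + q‖ ≤ ‖w₁‖/100), w₀ = 2 w₁; X (q, w₀) is again such a point z, the third part of ray_rauch
gives F q = F (X (q, w₀)), and ray_Om with l = 1/2 gives σ r = c.ψ.symm 0 ∈ Om X. -/
theorem Act.lemA (α : Act 𝒜 V) (hn : Nonneg 𝒜) {σ : ℝ → M} {r : ℝ} (hr : 0 < r)
    (hσ : ∀ t ∈ Icc 0 r, GeoAt 𝒜 σ t ∧ UnitAt 𝒜 σ t) {U₁ U₂ : V}
    (h₁ : ∀ m, 𝒜.d (σ 0) m < r → m ∈ α.P U₁) (h₂ : ∀ m, 𝒜.d (σ 0) m < r → m ∈ α.P U₂) :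
    ∃ a b : ℝ, (a ≠ 0 ∨ b ≠ 0) ∧ σ r ∈ α.Om (a • U₁ + b • U₂) := by
  obtain ⟨c, hc, hN⟩ := 𝒜.norm (σ r)
  obtain ⟨n, hv, -⟩ := (hσ r ⟨hr.le, le_rfl⟩).2 c hc hN.1
  obtain ⟨hn1, hball⟩ := inner_ball hr hσ hc hN hv
  obtain ⟨η, hη, hball⟩ := hball (1 / 16) (by norm_num)
  obtain ⟨δ, ε, X, -, hX⟩ := exists_nice hN one_pos
  have hε := hX.εpos
  have hεδ := hX.εle
  set e := min ε η / 100 with he
  have e0 : 0 < e := by have := lt_min hε hη; positivity
  have e1 : 100 * e ≤ ε := by have := min_le_left ε η; linarith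
  have e2 : 100 * e ≤ η := by have := min_le_right ε η; linarith
  set q := e • n with hq
  have nq : ‖q‖ = e := by rw [hq, norm_smul, hn1, mul_one, Real.norm_of_nonneg e0.le]
  have qn : ⟪q, n⟫ = e := by rw [hq, real_inner_smul_left, real_inner_self_eq_norm_sq, hn1]; ring
  have qε : q ∈ ball (0 : E) ε := by rw [mem_ball_zero_iff]; linarith
  have qδ : q ∈ ball (0 : E) δ := by rw [mem_ball_zero_iff]; linarith
  have q3 : q ∈ ball (0 : E) (3 * δ) := by rw [mem_ball_zero_iff]; linarith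
  have qt := hX.mem q q3
  -- rays from q that end in the open ball
  have key : ∀ w : E, ‖w‖ ≤ 8 * e → ⟪w, n⟫ ≤ -(1.9 * e) + e / 50 → w ∈ ball (0 : E) δ ∧
      X (q, w) ∈ ball (0 : E) ε ∧ ∀ a b : ℝ, c.ψ.symm (X (q, w)) ∈ α.Om (a • U₁ + b • U₂) ∧
        α.A c (X (q, w)) (a • U₁ + b • U₂) = 0 := by
    intro w hw hwn
    have wδ : w ∈ ball (0 : E) δ := by rw [mem_ball_zero_iff]; linarith
    have h1 := hX.near q qδ w wδ
    have h2 : X (q, w) = (X (q, w) - q - w) + q + w := by abel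
    have h3 : ‖X (q, w)‖ ≤ 9.1 * e := by
      have := norm_add₃_le (a := X (q, w) - q - w) (b := q) (c := w)
      rw [← h2] at this
      linarith
    have h4 : ⟪X (q, w), n⟫ ≤ -(0.8 * e) := by
      have := real_inner_le_norm (X (q, w) - q - w) n
      rw [hn1, inner_sub_left, inner_sub_left] at this
      linarith
    obtain ⟨zt, zd⟩ := hball (X (q, w)) (fun h => by rw [h, inner_zero_left] at h4; linarith)
      (by linarith) (by linarith)
    refine ⟨wδ, by rw [mem_ball_zero_iff]; linarith, fun a b => ?_⟩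
    have ho : IsOpen {m | 𝒜.d (σ 0) m < r} := isOpen_lt (continuous_d _) continuous_const
    have m1 : U₁ ∈ α.Z (c.ψ.symm (X (q, w))) := interior_maximal h₁ ho zd
    have m2 : U₂ ∈ α.Z (c.ψ.symm (X (q, w))) := interior_maximal h₂ ho zd
    have m3 : c.ψ.symm (X (q, w)) ∈ α.Om (a • U₁ + b • U₂) :=
      α.mem_Z.1 (add_mem (Submodule.smul_mem _ a m1) (Submodule.smul_mem _ b m2))
    refine ⟨m3, ?_⟩
    have := (α.mem_P hc (c.ψ.map_target zt) _).1 (interior_subset m3)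
    rwa [c.ψ.right_inv zt] at this
  let G : E →ₗ[ℝ] E →ₗ[ℝ] ℝ := LinearMap.mk₂ ℝ (fun a b => c.G q a b)
    (fun _ _ _ => by simp) (fun _ _ _ => by simp) (fun _ _ _ => by simp) (fun _ _ _ => by simp)
  let β : V →ₗ[ℝ] V →ₗ[ℝ] E := LinearMap.mk₂ ℝ (fun U W => α.A c q U (α.ev c q W))
    (fun _ _ _ => by simp) (fun _ _ _ => by simp) (fun _ _ _ => by simp) (fun _ _ _ => by simp)
  have hG : ∀ a b, G a b = c.G q a b := fun _ _ => rfl
  have hβ : ∀ U W, β U W = α.A c q U (α.ev c q W) := fun _ _ => rfl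
  obtain ⟨a, b, hab, h0⟩ := cone_lemma G (c.chr.symm q qt) (c.chr.pos q qt) β (α.comm c hc q qt)
    (α.gauss_le hn hc qt) (n := n) (fun h => by rw [h, norm_zero] at hn1; norm_num at hn1) U₁ U₂
    (fun a b τ τ1 τ2 => by
      rw [hG] at τ1
      rw [hG, hG] at τ2
      have a1 := abs_le.1 (hX.met q q3 τ τ)
      have a2 := abs_le.1 (hX.met q q3 n n)
      have a3 := abs_le.1 (hX.met q q3 τ n)
      rw [real_inner_self_eq_norm_sq] at a1 a2
      rw [hn1] at a2 a3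
      have a4 : ‖τ‖ ≤ 3 := by nlinarith [norm_nonneg τ]
      obtain ⟨wδ, -, hw⟩ := key (-(2 * e) • (n + τ)) (by
        have := norm_add_le n τ
        rw [norm_smul, norm_neg, Real.norm_of_nonneg (by positivity)]
        nlinarith) (by
        rw [real_inner_smul_left, inner_add_left, real_inner_self_eq_norm_sq, hn1]
        nlinarith)
      have b1 := (α.ray_rauch hn hc hX qδ wδ (hw a b).2).2.1
      have b2 := lema_nonneg G (c.chr.pos q qt) (α.A c q (a • U₁ + b • U₂) (-(2 * e) • (n + τ)))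
      rw [hG] at b2
      have b3 := b2.trans b1
      rw [α.skew c hc q qt, map_smul, smul_apply, smul_eq_mul] at b3
      rw [hG, hβ]
      exact le_of_mul_le_mul_left (by linarith) e0)
  rw [hβ] at h0
  refine ⟨a, b, hab, ?_⟩
  obtain ⟨w, wδ, hw⟩ := hX.log 0 (mem_ball_self hε) q qε
  have c1 := hX.near q qδ w wδ
  rw [hw] at c1
  have c2 : ‖w‖ ≤ 1.02 * e := by
    have := norm_add_le (0 - q - w) q
    rw [show 0 - q - w + q = -w by abel, norm_neg] at this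
    linarith
  have c3 : ⟪w, n⟫ ≤ -(0.98 * e) := by
    have := abs_real_inner_le_norm (0 - q - w) n
    rw [hn1, inner_sub_left, inner_sub_left, inner_zero_left] at this
    have := (abs_le.1 this).1
    linarith
  obtain ⟨w2, z1, z2⟩ := key ((2 : ℝ) • w) (by rw [norm_smul, Real.norm_ofNat]; linarith)
    (by rw [real_inner_smul_left]; linarith)
  have d1 := (α.ray_rauch hn hc hX qδ w2 (z2 a b).2).2.2 (by
    rw [α.skew c hc q qt, h0]; simp)
  have d2 : (1 / 2 : ℝ) • (2 : ℝ) • w = w := by rw [smul_smul]; norm_num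
  have d3 := α.ray_Om hn hc hX qδ w2 z1 (z2 a b).1 d1.ge (l := 1 / 2) ⟨by norm_num, by norm_num⟩
    (by rw [d2, hw]; exact mem_ball_self hε)
  rwa [d2, hw, ← hN.2.1, c.ψ.left_inv hN.1] at d3

/- If the dimension drops by at least two, a complement of Z ⊓ α.Z (σ r) in Z contains two
independent vectors; lemA gives a nonzero vector of that complement in α.Z (σ r). -/
theorem Act.finrank_le (α : Act 𝒜 V) (hn : Nonneg 𝒜) {σ : ℝ → M} {r : ℝ} (hr : 0 < r)
    (hσ : ∀ t ∈ Icc 0 r, GeoAt 𝒜 σ t ∧ UnitAt 𝒜 σ t) (Z : Submodule ℝ V)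
    (hZ : ∀ U ∈ Z, ∀ m, 𝒜.d (σ 0) m < r → m ∈ α.P U) :
    Module.finrank ℝ Z ≤ Module.finrank ℝ (Z ⊓ α.Z (σ r) : Submodule ℝ V) + 1 := by
  by_contra hcon
  obtain ⟨K, hK⟩ := Submodule.exists_isCompl ((Z ⊓ α.Z (σ r)).comap Z.subtype)
  have h1 := Submodule.finrank_add_eq_of_isCompl hK
  rw [(Submodule.comapSubtypeEquivOfLe (inf_le_left : Z ⊓ α.Z (σ r) ≤ Z)).finrank_eq] at h1
  obtain ⟨f, hf⟩ := exists_linearIndependent_of_le_finrank (R := ℝ) (M := K) (n := 2) (by omega)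
  obtain ⟨a, b, hab, h⟩ := α.lemA hn hr hσ (hZ _ (f 0).1.2) (hZ _ (f 1).1.2)
  have h2 : ((a • f 0 + b • f 1 : K) : Z) ∈ (Z ⊓ α.Z (σ r)).comap Z.subtype :=
    ⟨((a • f 0 + b • f 1 : K) : Z).2, α.mem_Z.2 h⟩
  have h3 := (Submodule.disjoint_def.1 hK.disjoint) _ h2 (a • f 0 + b • f 1).2
  have h4 := Fintype.linearIndependent_iff.1 hf ![a, b] (by
    rw [Fin.sum_univ_two]; exact Subtype.ext h3)
  rcases hab with h | h
  exacts [h (h4 0), h (h4 1)]

/-- v is the initial velocity of a minimal geodesic from x to the complement of Om U, U ∈ Z. -/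
def Act.Dir (α : Act 𝒜 V) (x : M) (c : Chart E M) (Z : Submodule ℝ V) (v : E) : Prop :=
  ∃ U ∈ Z, ∃ σ r, σ 0 = x ∧ MinGeo 𝒜 (α.Om U)ᶜ σ r ∧ HasDerivAt (c.ψ ∘ σ) v 0

/- Induction on j.  For j + 1 ≤ finrank Z pick a basis of Z and a basis vector U₁ minimising
r₁ = rho (Om U₁)ᶜ x (the complements are closed and nonempty by hNP); the d-ball of radius r₁
lies in Om U for all basis vectors (not_mem_of_d_lt), hence for all U ∈ Z.  Take σ₁ from
exists_minGeo, Z' = Z ⊓ α.Z (σ₁ r₁) (finrank_le), the family for Z' and Fin.cons; use obtuse. -/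
theorem Act.exists_dirs (α : Act 𝒜 V) (hn : Nonneg 𝒜) (hNP : ∀ U, α.P U = univ → U = 0) {x : M}
    {c : Chart E M} (hc : c ∈ 𝒜.S) (hN : c.NormAt x) (j : ℕ) :
    ∀ Z : Submodule ℝ V, Z ≤ α.Z x → j ≤ Module.finrank ℝ Z → ∃ v : Fin j → E,
      (∀ i, α.Dir x c Z (v i)) ∧ ∀ i i', i ≠ i' → ⟪v i, v i'⟫ ≤ 0 := by
  induction j with
  | zero => exact fun Z _ _ => ⟨Fin.elim0, fun i => i.elim0, fun i => i.elim0⟩
  | succ j ih =>
    intro Z hZ hj
    let b := Module.finBasis ℝ Z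
    have : Nonempty (Fin (Module.finrank ℝ Z)) := ⟨⟨0, by omega⟩⟩
    obtain ⟨i₀, hi₀⟩ := Finite.exists_min fun i => rho 𝒜 (α.Om (b i : V))ᶜ x
    have hne : (α.Om (b i₀ : V))ᶜ.Nonempty := by
      rw [nonempty_compl]
      intro h
      have h1 : α.P (b i₀ : V) = univ := eq_univ_of_univ_subset (h ▸ interior_subset)
      exact b.ne_zero i₀ (Subtype.ext (hNP _ h1))
    obtain ⟨σ, h0, hσ⟩ := exists_minGeo (𝒜 := 𝒜) (F := (α.Om (b i₀ : V))ᶜ)
      (isOpen_interior.isClosed_compl) hne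
      (x := x) (not_not.2 (hZ (b i₀).2))
    have hball : ∀ U ∈ Z, ∀ m, 𝒜.d (σ 0) m < rho 𝒜 (α.Om (b i₀ : V))ᶜ x → m ∈ α.P U := by
      intro U hU m hm
      have h1 : (⊤ : Submodule ℝ Z) ≤ (α.Z m).comap Z.subtype := by
        rw [← b.span_eq, Submodule.span_le]
        rintro _ ⟨i, rfl⟩
        exact not_not.1 (not_mem_of_d_lt (h0 ▸ hm.trans_le (hi₀ i)))
      exact interior_subset (h1 (Submodule.mem_top (x := ⟨U, hU⟩)))
    have h2 := α.finrank_le hn hσ.pos hσ.geo Z hball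
    obtain ⟨v, hv, ho⟩ := ih (Z ⊓ α.Z (σ (rho 𝒜 (α.Om (b i₀ : V))ᶜ x))) (inf_le_left.trans hZ)
      (by omega)
    have hm : σ 0 ∈ c.ψ.source := h0 ▸ hN.1
    obtain ⟨v₁, hv₁, -⟩ := (hσ.geo 0 ⟨le_rfl, hσ.pos.le⟩).2 c hc hm
    have h3 : ∀ i, ⟪v₁, v i⟫ ≤ 0 := fun i => by
      obtain ⟨U, hU, σ₂, r₂, g0, g1, g2⟩ := hv i
      have := α.obtuse hn hσ g1 (g0.trans h0.symm) hU.2 hc hm hv₁ g2
      rwa [h0, hN.2.1, hN.2.2] at this
    refine ⟨Fin.cons v₁ v, fun i => ?_, fun i i' hi => ?_⟩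
    · refine Fin.cases ?_ (fun i => ?_) i
      · exact ⟨_, (b i₀).2, σ, _, h0, hσ, hv₁⟩
      · obtain ⟨U, hU, h⟩ := hv i
        exact ⟨U, hU.1, h⟩
    · rcases Fin.eq_zero_or_eq_succ i with rfl | ⟨k, rfl⟩ <;>
        rcases Fin.eq_zero_or_eq_succ i' with rfl | ⟨k', rfl⟩
      · exact absurd rfl hi
      · simpa using h3 k'
      · rw [real_inner_comm]; simpa using h3 k
      · simpa using ho k k' fun h => hi (congrArg _ h)

end Pool.Agent.MP_3a00c0_gt

end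

-- part MP_3a00c0_gt.Rank
section

/-! Families of linear maps of locally maximal rank. -/

open Set Metric Filter Topology
open scoped ContDiff RealInnerProductSpace

set_option maxSynthPendingDepth 3
set_option linter.unusedSectionVars false

namespace Pool.Agent.MP_3a00c0_gt

open Pool.Agent.MP_3fed84_gt

section Rank

variable {V Y X : Type} [NormedAddCommGroup V] [NormedSpace ℝ V] [FiniteDimensional ℝ V]
  [NormedAddCommGroup Y] [NormedSpace ℝ Y] [FiniteDimensional ℝ Y]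
  [NormedAddCommGroup X] [NormedSpace ℝ X]

/- Take a basis B x cᵢ of the range of B x; linear independence is an open condition
(LinearIndependent.eventually). -/
theorem rank_lsc {T : Type} [TopologicalSpace T] {B : T → V →L[ℝ] Y} {x : T}
    (hB : ContinuousAt B x) : ∀ᶠ q in 𝓝 x, Module.finrank ℝ (B x).range
      ≤ Module.finrank ℝ (B q).range := by
  have ho := isOpen_setOfPred_nat_le_rank (𝕜 := ℝ) (E := V) (F := Y)
    (Module.finrank ℝ (B x).range)
  have hx : B x ∈ {f : V →L[ℝ] Y |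
      ((Module.finrank ℝ (B x).range : ℕ) : Cardinal) ≤ (f : V →ₗ[ℝ] Y).rank} := by
    show ((Module.finrank ℝ (B x).range : ℕ) : Cardinal) ≤ Module.rank ℝ (B x).range
    rw [Module.finrank_eq_rank]
  filter_upwards [hB.eventually (ho.mem_nhds hx)] with q hq
  have hq' : ((Module.finrank ℝ (B x).range : ℕ) : Cardinal) ≤ Module.rank ℝ (B q).range := hq
  rw [← Module.finrank_eq_rank] at hq'
  exact_mod_cast hq'

/- Otherwise B t cᵢ together with t⁻¹ B t U → B' U are independent for small t ≠ 0. -/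
theorem moore {B : ℝ → V →L[ℝ] Y} {B' : V →L[ℝ] Y} (hB : HasDerivAt B B' 0)
    (hr : ∀ᶠ t in 𝓝 (0 : ℝ), Module.finrank ℝ (B t).range ≤ Module.finrank ℝ (B 0).range)
    {U : V} (hU : B 0 U = 0) : ∃ U', B' U = B 0 U' := by
  by_contra hcon
  have hφ : HasDerivAt (fun t => B t U) (B' U) 0 := by
    have h := hB.clm_apply (hasDerivAt_const (0 : ℝ) U)
    simpa using h
  obtain ⟨g, hg⟩ : ∃ g : ℝ → Y, g = dslope (fun t => B t U) 0 := ⟨_, rfl⟩
  have hg0 : g 0 = B' U := by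
    rw [hg, dslope_same, hφ.deriv]
  have hgt : ∀ t : ℝ, t ≠ 0 → g t = B t (t⁻¹ • U) := by
    intro t ht
    rw [hg, dslope_of_ne _ ht, slope_def_module]
    simp [hU]
  have hgc : ContinuousAt g 0 := by
    rw [hg]
    exact continuousAt_dslope_same.2 hφ.differentiableAt
  obtain ⟨M, hM⟩ : ∃ M : ℝ → (V × ℝ) →L[ℝ] Y, M = fun t =>
      (B t).comp (ContinuousLinearMap.fst ℝ V ℝ) +
        (ContinuousLinearMap.snd ℝ V ℝ).smulRight (g t) := ⟨_, rfl⟩
  have hMa : ∀ t v s, M t (v, s) = B t v + s • g t := by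
    intro t v s
    rw [hM]
    simp
  have hMc : ContinuousAt M 0 := by
    rw [hM]
    refine ContinuousAt.add (hB.continuousAt.clm_comp continuousAt_const) ?_
    exact ((ContinuousLinearMap.smulRightL ℝ (V × ℝ) Y
      (ContinuousLinearMap.snd ℝ V ℝ)).continuous.continuousAt).comp hgc
  have hlt : Module.finrank ℝ (B 0).range < Module.finrank ℝ (M 0).range := by
    apply Submodule.finrank_lt_finrank_of_lt
    refine lt_of_le_of_ne ?_ ?_
    · rintro y ⟨v, rfl⟩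
      exact ⟨(v, 0), by simpa using hMa 0 v 0⟩
    · intro he
      have hmem : B' U ∈ (M 0).range := ⟨(0, 1), by simpa [hg0] using hMa 0 0 1⟩
      rw [← he] at hmem
      obtain ⟨U', hU'⟩ := hmem
      exact hcon ⟨U', hU'.symm⟩
  have hle : ∀ t : ℝ, t ≠ 0 →
      Module.finrank ℝ (M t).range ≤ Module.finrank ℝ (B t).range := by
    intro t ht
    apply Submodule.finrank_mono
    rintro y ⟨⟨v, s⟩, rfl⟩
    refine ⟨v + s • (t⁻¹ • U), ?_⟩
    have h := hMa t v s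
    rw [hgt t ht] at h
    show B t (v + s • (t⁻¹ • U)) = M t (v, s)
    rw [h, map_add, map_smul]
  have hev : ∀ᶠ t in 𝓝[≠] (0 : ℝ), False := by
    filter_upwards [self_mem_nhdsWithin, nhdsWithin_le_nhds hr,
      nhdsWithin_le_nhds (rank_lsc hMc)] with t ht h1 h2
    have h3 := hle t ht
    omega
  exact hev.exists.elim fun _ h => h

/- Let C be a complement of ker (B x); near x, ‖c‖ ≤ K ‖B q c‖ on C, so C is also a complement of
ker (B q) (equal ranks).  Write U = U_q + c_q; φ q = B q U has fderiv φ q = fderiv B q · c_q, so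
‖fderiv φ q‖ ≤ K' ‖φ q‖ near x; Gronwall along segments from x. -/
theorem ker_const {B : X → V →L[ℝ] Y} {x : X} (hB : ContDiffAt ℝ 1 B x)
    (hr : ∀ᶠ q in 𝓝 x, Module.finrank ℝ (B q).range = Module.finrank ℝ (B x).range)
    (hd : ∀ᶠ q in 𝓝 x, ∀ U, B q U = 0 → ∀ ξ, fderiv ℝ B q ξ U = 0) {U : V} (hU : B x U = 0) :
    ∀ᶠ q in 𝓝 x, B q U = 0 := by
  obtain ⟨C, hC⟩ := Submodule.exists_isCompl (B x).ker
  have hinj : ((B x : V →ₗ[ℝ] Y).comp C.subtype).ker = ⊥ := by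
    rw [LinearMap.ker_eq_bot']
    intro c hc
    have h1 : (c : V) ∈ (B x).ker := hc
    have h2 := hC.disjoint
    rw [Submodule.disjoint_def] at h2
    exact Subtype.ext (h2 _ h1 c.2)
  obtain ⟨K, hK0, hK⟩ := LinearMap.exists_antilipschitzWith _ hinj
  have hK0' : (0 : ℝ) < K := by exact_mod_cast hK0
  have hKc : ∀ c ∈ C, ‖c‖ ≤ K * ‖B x c‖ := by
    intro c hc
    have h := ZeroHomClass.bound_of_antilipschitz _ hK (⟨c, hc⟩ : C)
    simpa using h
  have hdimC : Module.finrank ℝ C = Module.finrank ℝ (B x).range := by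
    have h1 := Submodule.finrank_add_eq_of_isCompl hC
    have h2 := LinearMap.finrank_range_add_finrank_ker (B x : V →ₗ[ℝ] Y)
    omega
  have hclose : ∀ᶠ q in 𝓝 x, ‖B q - B x‖ < 1 / (2 * K) := by
    have h := hB.continuousAt.eventually (ball_mem_nhds (B x) (ε := 1 / (2 * K)) (by positivity))
    filter_upwards [h] with q hq
    simpa [dist_eq_norm] using hq
  have hdiff : ∀ᶠ q in 𝓝 x, DifferentiableAt ℝ B q := by
    filter_upwards [hB.eventually (by simp)] with q hq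
    exact hq.differentiableAt (by simp)
  have hbd : ∀ᶠ q in 𝓝 x, ‖fderiv ℝ B q‖ < ‖fderiv ℝ B x‖ + 1 := by
    have hc : ContinuousAt (fderiv ℝ B) x :=
      (hB.fderiv_right (m := 0) (by simp)).continuousAt
    exact hc.norm.eventually (gt_mem_nhds (lt_add_one _))
  have hmain : ∀ᶠ q in 𝓝 x, DifferentiableAt ℝ B q ∧
      ∀ ξ, ‖fderiv ℝ B q ξ U‖ ≤ ((‖fderiv ℝ B x‖ + 1) * ‖ξ‖ * (2 * K)) * ‖B q U‖ := by
    filter_upwards [hclose, hdiff, hbd, hr, hd] with q h1 h2 h3 h4 h5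
    refine ⟨h2, fun ξ => ?_⟩
    have hq : ∀ c ∈ C, ‖c‖ ≤ 2 * K * ‖B q c‖ := by
      intro c hc
      have e1 := hKc c hc
      have e2 : ‖B x c‖ ≤ ‖B q c‖ + ‖B q - B x‖ * ‖c‖ := by
        have e3 : B x c = B q c - (B q - B x) c := by simp
        calc ‖B x c‖ = ‖B q c - (B q - B x) c‖ := by rw [← e3]
          _ ≤ ‖B q c‖ + ‖(B q - B x) c‖ := norm_sub_le _ _
          _ ≤ _ := by gcongr; exact ContinuousLinearMap.le_opNorm _ _
      have e4 : ‖B q - B x‖ * ‖c‖ ≤ 1 / (2 * K) * ‖c‖ :=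
        mul_le_mul_of_nonneg_right h1.le (norm_nonneg _)
      have e5 : (K : ℝ) * (1 / (2 * K) * ‖c‖) = ‖c‖ / 2 := by field_simp
      have e6 : (K : ℝ) * ‖B x c‖ ≤ K * (‖B q c‖ + 1 / (2 * K) * ‖c‖) :=
        mul_le_mul_of_nonneg_left (by linarith only [e2, e4]) hK0'.le
      nlinarith only [e1, e5, e6]
    have hinjq : ((B q : V →ₗ[ℝ] Y).comp C.subtype).ker = ⊥ := by
      rw [LinearMap.ker_eq_bot']
      intro c hc
      have e1 := hq c c.2
      have e2 : B q c = 0 := hc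
      rw [e2, norm_zero, mul_zero] at e1
      exact Subtype.ext (norm_le_zero_iff.1 e1)
    have hrange : ((B q : V →ₗ[ℝ] Y).comp C.subtype).range = (B q).range := by
      apply Submodule.eq_of_le_of_finrank_eq
      · rintro y ⟨c, rfl⟩
        exact ⟨c, rfl⟩
      · have e1 := LinearMap.finrank_range_add_finrank_ker
          ((B q : V →ₗ[ℝ] Y).comp C.subtype)
        rw [hinjq, finrank_bot] at e1
        omega
    have hmem : B q U ∈ ((B q : V →ₗ[ℝ] Y).comp C.subtype).range := by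
      rw [hrange]
      exact ⟨U, rfl⟩
    obtain ⟨c, hc⟩ := hmem
    have hc' : B q c = B q U := hc
    have e1 : fderiv ℝ B q ξ (U - c) = 0 := h5 _ (by rw [map_sub, hc', sub_self]) ξ
    rw [map_sub, sub_eq_zero] at e1
    have e2 := hq c c.2
    rw [hc'] at e2
    rw [e1]
    calc ‖fderiv ℝ B q ξ c‖ ≤ ‖fderiv ℝ B q ξ‖ * ‖(c : V)‖ := ContinuousLinearMap.le_opNorm _ _
      _ ≤ (‖fderiv ℝ B q‖ * ‖ξ‖) * ‖(c : V)‖ := by
          gcongr; exact ContinuousLinearMap.le_opNorm _ _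
      _ ≤ ((‖fderiv ℝ B x‖ + 1) * ‖ξ‖) * (2 * K * ‖B q U‖) := by
          gcongr
      _ = _ := by ring
  obtain ⟨r, hr0, hrb⟩ := Metric.eventually_nhds_iff_ball.1 hmain
  filter_upwards [ball_mem_nhds x hr0] with q hq
  have hγ : ∀ t ∈ Icc (0 : ℝ) 1, x + t • (q - x) ∈ ball x r := by
    intro t ht
    have h := (convex_ball x r).add_smul_sub_mem (mem_ball_self hr0) hq ht
    exact h
  have hder : ∀ t ∈ Icc (0 : ℝ) 1, HasDerivAt (fun s : ℝ => B (x + s • (q - x)) U)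
      (fderiv ℝ B (x + t • (q - x)) (q - x) U) t := by
    intro t ht
    have h1 : HasDerivAt (fun s : ℝ => x + s • (q - x)) (q - x) t := by
      simpa using ((hasDerivAt_id t).smul_const (q - x)).const_add x
    have h2 := ((hrb _ (hγ t ht)).1.hasFDerivAt).comp_hasDerivAt t h1
    have h3 := h2.clm_apply (hasDerivAt_const t U)
    simpa using h3
  have hz := eq_zero_of_abs_deriv_le_mul_abs_self_of_eq_zero_right
    (f := fun s : ℝ => B (x + s • (q - x)) U)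
    (f' := fun t : ℝ => fderiv ℝ B (x + t • (q - x)) (q - x) U)
    (K := (‖fderiv ℝ B x‖ + 1) * ‖q - x‖ * (2 * K)) (a := 0) (b := 1)
    (fun t ht => (hder t ht).continuousAt.continuousWithinAt)
    (fun t ht => (hder t (Ico_subset_Icc_self ht)).hasDerivWithinAt)
    (by simpa using hU)
    (fun t ht => (hrb _ (hγ t (Ico_subset_Icc_self ht))).2 _) 1 ⟨zero_le_one, le_rfl⟩
  simpa using hz

/- Choose x ∈ O where the rank is maximal; by rank_lsc the set where it is attained is open. -/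
theorem exists_const_rank {T : Type} [TopologicalSpace T] {B : T → V →L[ℝ] Y} {O : Set T}
    (hO : IsOpen O) (hne : O.Nonempty) (hB : ∀ q ∈ O, ContinuousAt B q) :
    ∃ O' ⊆ O, IsOpen O' ∧ O'.Nonempty ∧ ∃ ρ, ∀ q ∈ O', Module.finrank ℝ (B q).range = ρ := by
  have hSne : ((fun q => Module.finrank ℝ (B q).range) '' O).Nonempty := hne.image _
  have hSb : BddAbove ((fun q => Module.finrank ℝ (B q).range) '' O) := by
    refine ⟨Module.finrank ℝ Y, ?_⟩
    rintro _ ⟨q, -, rfl⟩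
    exact Submodule.finrank_le _
  obtain ⟨x, hxO, hx⟩ := Nat.sSup_mem hSne hSb
  have hmax : ∀ q ∈ O, Module.finrank ℝ (B q).range ≤ Module.finrank ℝ (B x).range := by
    intro q hq
    have h := le_csSup hSb (mem_image_of_mem _ hq)
    rw [← hx] at h
    exact h
  refine ⟨{q | q ∈ O ∧ Module.finrank ℝ (B q).range = Module.finrank ℝ (B x).range},
    fun q hq => hq.1, ?_, ⟨x, hxO, rfl⟩, _, fun q hq => hq.2⟩
  rw [isOpen_iff_mem_nhds]
  intro q hq
  filter_upwards [hO.mem_nhds hq.1, rank_lsc (hB q hq.1)] with p hp1 hp2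
  refine ⟨hp1, le_antisymm (hmax p hp1) ?_⟩
  rw [← hq.2]
  exact hp2

end Rank

end Pool.Agent.MP_3a00c0_gt

end
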