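import Pool.Agent.MP_3a00c0_gt.Mg.Conv
import Pool.Agent.MP_3a00c0_gt.Mg.Rank
import Mathlib
import Pool.Agent.MP_3a00c0_gt.Curv

-- part MP_3a00c0_gt.Generic
section

/-! A generic point. -/

open Set Metric Filter Topology
open scoped ContDiff RealInnerProductSpace

set_option maxSynthPendingDepth 3
set_option linter.unusedSectionVars false

namespace Pool.Agent.MP_3a00c0_gt

open Pool.Agent.MP_3fed84_gt

variable {E : Type} [NormedAddCommGroup E] [InnerProductSpace ℝ E] [FiniteDimensional ℝ E]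
  {M : Type} [TopologicalSpace M] [T2Space M] [PreconnectedSpace M] {𝒜 : Atlas E M}
  {V : Type} [NormedAddCommGroup V] [NormedSpace ℝ V] [FiniteDimensional ℝ V]

theorem generic_moore {Y : Type} [NormedAddCommGroup Y] [NormedSpace ℝ Y] [FiniteDimensional ℝ Y]
    {B : E → V →L[ℝ] Y} {q : E} (hB : DifferentiableAt ℝ B q)
    (hr : ∀ᶠ z in 𝓝 q, Module.finrank ℝ (B z).range = Module.finrank ℝ (B q).range)
    {U : V} (hU : B q U = 0) (ξ : E) : ∃ U', fderiv ℝ B q ξ U = B q U' := by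
  have hl : HasDerivAt (fun t : ℝ => q + t • ξ) ξ 0 := by
    simpa using ((hasDerivAt_id (0 : ℝ)).smul_const ξ).const_add q
  have h0 : q + (0 : ℝ) • ξ = q := by simp
  have hB' : HasFDerivAt B (fderiv ℝ B q) (q + (0 : ℝ) • ξ) := by
    rw [h0]; exact hB.hasFDerivAt
  have h1 : HasDerivAt (fun t : ℝ => B (q + t • ξ)) (fderiv ℝ B q ξ) 0 :=
    hB'.comp_hasDerivAt (0 : ℝ) hl
  have ht : Tendsto (fun t : ℝ => q + t • ξ) (𝓝 0) (𝓝 q) := by
    have := hl.continuousAt.tendsto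
    rwa [h0] at this
  have h2 := moore (B := fun t : ℝ => B (q + t • ξ)) h1 (by
    filter_upwards [ht.eventually hr] with t h
    rw [h0]
    exact h.le) (U := U) (by rw [h0]; exact hU)
  simpa only [h0] using h2

/-- The family U ↦ (A q U) ∘ (ev q). -/
noncomputable def Act.genericB (α : Act 𝒜 V) (c : Chart E M) (q : E) : V →L[ℝ] V →L[ℝ] E :=
  ((ContinuousLinearMap.compL ℝ V E E).flip (α.ev c q)).comp (α.A c q)

theorem Act.genericB_apply (α : Act 𝒜 V) (c : Chart E M) (q : E) (U W : V) :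
    α.genericB c q U W = α.A c q U (α.ev c q W) := rfl

theorem Act.genericB_smooth (α : Act 𝒜 V) {c : Chart E M} (hc : c ∈ 𝒜.S) :
    ContDiffOn ℝ ∞ (α.genericB c) c.ψ.target := by
  refine contDiffOn_clm_apply.2 fun U => contDiffOn_clm_apply.2 fun W => ?_
  simp only [α.genericB_apply]
  exact ((α.sm_A c hc).clm_apply contDiffOn_const).clm_apply
    ((α.sm_ev c hc).clm_apply contDiffOn_const)

theorem Act.generic_dA (α : Act 𝒜 V) (hn : Nonneg 𝒜) {c : Chart E M} (hc : c ∈ 𝒜.S) {q : E}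
    (hq : q ∈ c.ψ.target)
    (hr : ∀ᶠ z in 𝓝 q, Module.finrank ℝ (α.A c z).range = Module.finrank ℝ (α.A c q).range)
    {U : V} (hU : α.A c q U = 0) (ξ : E) : fderiv ℝ (α.A c) q ξ U = 0 := by
  have hd : DifferentiableAt ℝ (α.A c) q :=
    ((α.sm_A c hc).contDiffAt (c.ψ.open_target.mem_nhds hq)).differentiableAt (by simp)
  have e : ∀ ξ η, fderiv ℝ (α.A c) q ξ U η = Rm c.Γ q ξ (α.ev c q U) η := by
    intro ξ η
    rw [α.d_A c hc q hq, hU]
    simp
  have h0 : ∀ ξ, c.G q (Rm c.Γ q ξ (α.ev c q U) (α.ev c q U)) ξ = 0 := by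
    intro ξ
    obtain ⟨U', hU'⟩ := generic_moore hd hr hU ξ
    rw [← e, hU', α.comm c hc q hq U' U, hU]
    simp
  ext η
  rw [e, (hn.alg hc hq).null h0]
  simp

theorem Act.generic_chart [Nonempty M] (α : Act 𝒜 V) (hn : Nonneg 𝒜)
    (hNP : ∀ U, α.P U = univ → U = 0) : ∃ c ∈ 𝒜.S, ∃ x ∈ c.ψ.source,
      Function.Injective (α.ev c (c.ψ x)) ∧ (∀ U, α.A c (c.ψ x) U = 0 → x ∈ α.Om U) ∧
      ∀ U W, (∀ Y, α.A c (c.ψ x) U (α.ev c (c.ψ x) Y) = 0) →
        (∀ Y, α.A c (c.ψ x) W (α.ev c (c.ψ x) Y) = 0) → ∀ ξ,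
        Rm c.Γ (c.ψ x) ξ (α.ev c (c.ψ x) U) (α.ev c (c.ψ x) W)
          = -α.A c (c.ψ x) U (α.A c (c.ψ x) W ξ) := by
  obtain ⟨m₀⟩ := ‹Nonempty M›
  obtain ⟨c, hc, hm₀, -⟩ := 𝒜.norm m₀
  have hT := c.ψ.open_target
  have cda : ∀ {Y : Type} [NormedAddCommGroup Y] [NormedSpace ℝ Y] {B : E → Y},
      ContDiffOn ℝ ∞ B c.ψ.target → ∀ q ∈ c.ψ.target, ContDiffAt ℝ ∞ B q :=
    fun hB q hq => hB.contDiffAt (hT.mem_nhds hq)
  obtain ⟨O₁, s₁, o₁, n₁, ρ₁, r₁⟩ := exists_const_rank (B := α.ev c) hT ⟨_, c.ψ.map_source hm₀⟩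
    fun q hq => (cda (α.sm_ev c hc) q hq).continuousAt
  obtain ⟨O₂, s₂, o₂, n₂, ρ₂, r₂⟩ := exists_const_rank (B := α.A c) o₁ n₁
    fun q hq => (cda (α.sm_A c hc) q (s₁ hq)).continuousAt
  obtain ⟨O₃, s₃, o₃, ⟨y, hy₃⟩, ρ₃, r₃⟩ := exists_const_rank (B := α.genericB c) o₂ n₂
    fun q hq => (cda (α.genericB_smooth hc) q (s₁ (s₂ hq))).continuousAt
  have hy₂ := s₃ hy₃
  have hy₁ := s₂ hy₂
  have hy : y ∈ c.ψ.target := s₁ hy₁
  have hx : c.ψ.symm y ∈ c.ψ.source := c.ψ.map_target hy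
  have hxy : c.ψ (c.ψ.symm y) = y := c.ψ.right_inv hy
  have k₁ : ∀ᶠ z in 𝓝 y,
      Module.finrank ℝ (α.ev c z).range = Module.finrank ℝ (α.ev c y).range := by
    filter_upwards [o₁.mem_nhds hy₁] with z hz
    rw [r₁ z hz, r₁ y hy₁]
  have k₂ : ∀ q ∈ O₂, ∀ᶠ z in 𝓝 q,
      Module.finrank ℝ (α.A c z).range = Module.finrank ℝ (α.A c q).range := by
    intro q hq
    filter_upwards [o₂.mem_nhds hq] with z hz
    rw [r₂ z hz, r₂ q hq]
  have k₃ : ∀ᶠ z in 𝓝 y,
      Module.finrank ℝ (α.genericB c z).range = Module.finrank ℝ (α.genericB c y).range := by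
    filter_upwards [o₃.mem_nhds hy₃] with z hz
    rw [r₃ z hz, r₃ y hy₃]
  refine ⟨c, hc, c.ψ.symm y, hx, ?_, ?_, ?_⟩
  · rw [hxy]
    refine (injective_iff_map_eq_zero (α.ev c y)).2 fun U hU => ?_
    have hA : α.A c y U = 0 := by
      ext ξ
      obtain ⟨U', hU'⟩ := generic_moore ((cda (α.sm_ev c hc) y hy).differentiableAt (by simp))
        k₁ hU ξ
      rw [α.d_ev c hc y hy, hU, map_zero, sub_zero] at hU'
      have h1 : α.A c y U (α.A c y U ξ) = 0 := by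
        rw [hU', α.comm c hc y hy U U', hU, map_zero]
      refine eq_zero_of_pos (c.chr.pos y hy) ?_
      rw [α.skew c hc y hy, h1]
      simp
    have hP : c.ψ.symm y ∈ α.P U := (α.mem_P hc hx U).2 (by rw [hxy]; exact hA)
    refine hNP U (α.P_eq_univ hn hP ?_)
    rw [α.f_eq hc hx, hxy, Act.F, hU]
    simp
  · rw [hxy]
    intro U hU
    have h1 : ∀ᶠ q in 𝓝 y, α.A c q U = 0 := by
      refine ker_const ((cda (α.sm_A c hc) y hy).of_le (by exact_mod_cast le_top)) (k₂ y hy₂) ?_ hU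
      filter_upwards [o₂.mem_nhds hy₂] with q hq
      exact fun U' hU' ξ => α.generic_dA hn hc (s₁ (s₂ hq)) (k₂ q hq) hU' ξ
    have ht : Tendsto c.ψ (𝓝 (c.ψ.symm y)) (𝓝 y) := by
      have := (c.ψ.continuousAt hx).tendsto
      rwa [hxy] at this
    refine mem_interior_iff_mem_nhds.2 ?_
    filter_upwards [ht.eventually h1, c.ψ.open_source.mem_nhds hx] with m h2 h3
    exact (α.mem_P hc h3 U).2 h2
  · rw [hxy]
    intro U W hU hW ξ
    have hd : DifferentiableAt ℝ (α.genericB c) y :=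
      (cda (α.genericB_smooth hc) y hy).differentiableAt (by simp)
    obtain ⟨U', hU'⟩ := generic_moore hd k₃ (U := U) (ContinuousLinearMap.ext hU) ξ
    obtain ⟨L, hL, hLξ⟩ := α.d_A_ev hc hy U W
    have h1 := (hd.hasFDerivAt.clm_apply (hasFDerivAt_const U y)).clm_apply
      (hasFDerivAt_const W y)
    have h2 := congrArg (fun L : E →L[ℝ] E => L ξ) (hL.unique h1)
    have h3 : L ξ = fderiv ℝ (α.genericB c) y ξ U W := by
      simpa using h2
    rw [hU', α.genericB_apply, α.comm c hc y hy U' W, hW, hLξ, hU W, map_zero, sub_zero] at h3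
    exact eq_neg_of_add_eq_zero_left h3

/- In one chart c₁ apply exists_const_rank successively to ev, A and
B q = (U ↦ (A q U).comp (ev q)); pick y in the last open set O, x = c₁.ψ.symm y.
(b) for q ∈ O and A q U = 0: moore along q + t ξ and d_A give Rm ξ (ev U) = A q U' for some U', so
G (Rm ξ U U) ξ = G (A U' (ev U)) ξ = G (A U (ev U')) ξ = 0, and CurvAlg.null gives fderiv A q ξ U = 0;
ker_const gives A U = 0 near y, so x ∈ Om U.
(a) if ev y U = 0: moore and d_ev give A U ξ = ev U', and A U (ev U') = A U' (ev U) = 0, so by skew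
A U ξ = 0; then P_eq_univ (f U x = 0) and hNP give U = 0.
(c) moore for B with d_A_ev: Rm ξ U W + A U (A W ξ) = A U' (ev W) = A W (ev U') = 0.
Transfer to a chart normalised at x with tr_ev, tr_A (a = 0), rm_iso and surjectivity and
injectivity of the differential of the transition map. -/
theorem Act.generic [Nonempty M] (α : Act 𝒜 V) (hn : Nonneg 𝒜)
    (hNP : ∀ U, α.P U = univ → U = 0) : ∃ x : M, ∃ c ∈ 𝒜.S, c.NormAt x ∧
      Function.Injective (α.ev c 0) ∧ (∀ U, α.A c 0 U = 0 → x ∈ α.Om U) ∧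
      ∀ U W, (∀ Y, α.A c 0 U (α.ev c 0 Y) = 0) → (∀ Y, α.A c 0 W (α.ev c 0 Y) = 0) → ∀ ξ,
        Rm c.Γ 0 ξ (α.ev c 0 U) (α.ev c 0 W) = -α.A c 0 U (α.A c 0 W ξ) := by
  obtain ⟨c, hc, x, hx, ha, hb, hd⟩ := α.generic_chart hn hNP
  obtain ⟨c', hc', hN⟩ := 𝒜.norm x
  have hx' := hN.1
  have h0 : c'.ψ x = 0 := hN.2.1
  have hco := (LI.id 𝒜 x).coord hc hc' hx hx'
  have hy := c.ψ.map_source hx
  have hiso := (𝒜.compat c hc c' hc' x hx hx').2
  set T := fderiv ℝ (c.ex c' id) (c.ψ x) with hT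
  have hsurj : Function.Surjective T := hiso.surj c.chr hy
  have hinj : Function.Injective T :=
    (LinearMap.injective_iff_surjective (f := (T : E →ₗ[ℝ] E))).2 hsurj
  have hΦ : α.Φ 0 x ∈ c'.ψ.source := by rw [α.zero]; exact hx'
  have e1 : ∀ U, α.ev c' 0 U = T (α.ev c (c.ψ x) U) := by
    intro U
    have := α.tr_ev c hc c' hc' 0 x hx hΦ U
    rwa [α.zero, α.Φ_zero, h0] at this
  have e2 : ∀ U ξ, α.A c' 0 U (T ξ) = T (α.A c (c.ψ x) U ξ) := by
    intro U ξ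
    have := α.tr_A c hc c' hc' 0 x hx hΦ U ξ
    rwa [α.zero, α.Φ_zero, h0] at this
  have e3 : ∀ a b d, Rm c'.Γ 0 (T a) (T b) (T d) = T (Rm c.Γ (c.ψ x) a b d) := by
    intro a b d
    have := rm_iso c.chr c'.chr hy hco.self_of_nhds.2.1 (hco.mono fun z hz => hz.2.2) a b d
    rwa [c.ex_apply c' id hx, id, h0] at this
  have e4 : ∀ U, (∀ Y, α.A c' 0 U (α.ev c' 0 Y) = 0) →
      ∀ Y, α.A c (c.ψ x) U (α.ev c (c.ψ x) Y) = 0 := by
    intro U hU Y
    apply hinj
    rw [← e2, ← e1, hU, map_zero]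
  refine ⟨x, c', hc', hN, ?_, ?_, ?_⟩
  · intro U W h
    rw [e1, e1] at h
    exact ha (hinj h)
  · intro U hU
    refine hb U (ContinuousLinearMap.ext fun ξ => hinj ?_)
    rw [← e2, hU]
    simp
  · intro U W hU hW ξ
    obtain ⟨η, rfl⟩ := hsurj ξ
    rw [e1, e1, e3, hd U W (e4 U hU) (e4 W hW), e2, e2, map_neg]

end Pool.Agent.MP_3a00c0_gt

end

-- part MP_3a00c0_gt.Lin
section

/-! Linear algebra: the lemmas of Otsuki, Moore and Florit. -/

open Module
open scoped RealInnerProductSpace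

set_option linter.unusedSectionVars false

namespace Pool.Agent.MP_3a00c0_gt

variable {E : Type} [NormedAddCommGroup E] [InnerProductSpace ℝ E] [FiniteDimensional ℝ E]
  {V : Type} [AddCommGroup V] [Module ℝ V] [FiniteDimensional ℝ V]

theorem lin_eq_zero {a b : ℝ} (h : ∀ t : ℝ, t * a ≤ t ^ 2 * b) : a = 0 := by
  by_contra ha
  have h1 := h (a / (|b| + 1))
  have h2 : 0 < |b| + 1 := by positivity
  have h3 : 0 < a ^ 2 := by positivity
  have h4 := le_abs_self b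
  rw [div_pow, div_mul_eq_mul_div, div_mul_eq_mul_div, div_le_div_iff₀ h2 (by positivity)] at h1
  nlinarith [mul_pos h3 h2]

theorem lin_rank {T : Type} [AddCommGroup T] [Module ℝ T] (f : V →ₗ[ℝ] T) (C : Submodule ℝ V) :
    finrank ℝ (C.map f) + finrank ℝ (C ⊓ LinearMap.ker f : Submodule ℝ V) = finrank ℝ C := by
  rw [← LinearMap.finrank_range_add_finrank_ker (f.domRestrict C), LinearMap.range_domRestrict,
    LinearMap.ker_domRestrict, ← Submodule.finrank_map_subtype_eq C (Submodule.comap _ _),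
    Submodule.map_comap_subtype]

omit [FiniteDimensional ℝ E] in
theorem lin_exists_injective {F : Type} [NormedAddCommGroup F] [InnerProductSpace ℝ F]
    [FiniteDimensional ℝ F] [Nontrivial F] (β : F →ₗ[ℝ] F →ₗ[ℝ] E) (hβ : ∀ X Y, β X Y = β Y X)
    (hg : ∀ X Y, ⟪β X X, β Y Y⟫ ≤ ⟪β X Y, β X Y⟫) (hC : ∀ X, β X X = 0 → X = 0) :
    ∃ X, Function.Injective (β X) := by
  have hcont : Continuous fun X => ‖β X X‖ := by
    let γ := LinearMap.toContinuousLinearMap (LinearMap.toContinuousLinearMap.toLinearMap ∘ₗ β)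
    exact (γ.continuous.clm_apply continuous_id).norm
  obtain ⟨X, hX, hmin⟩ := (isCompact_sphere (0 : F) 1).exists_isMinOn
    (NormedSpace.sphere_nonempty.2 zero_le_one) hcont.continuousOn
  rw [mem_sphere_zero_iff_norm] at hX
  have hμ : 0 < ‖β X X‖ := norm_pos_iff.2 fun h => by
    rw [hC X h, norm_zero] at hX
    exact zero_ne_one hX
  have hle : ∀ Z, ‖β X X‖ * ‖Z‖ ^ 2 ≤ ‖β Z Z‖ := by
    intro Z
    by_cases hZ : Z = 0
    · simp [hZ]
    have hZ' : 0 < ‖Z‖ := norm_pos_iff.2 hZ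
    have h1 : ‖β X X‖ ≤ ‖β (‖Z‖⁻¹ • Z) (‖Z‖⁻¹ • Z)‖ :=
      hmin (mem_sphere_zero_iff_norm.2 (norm_smul_inv_norm hZ))
    simp only [map_smul, LinearMap.smul_apply, norm_smul, norm_inv, norm_norm] at h1
    calc ‖β X X‖ * ‖Z‖ ^ 2 ≤ ‖Z‖⁻¹ * (‖Z‖⁻¹ * ‖β Z Z‖) * ‖Z‖ ^ 2 := by gcongr
      _ = _ := by field_simp
  have key : ∀ Y, β X Y = 0 → 0 ≤ ⟪X, Y⟫ → Y = 0 := by
    intro Y hY hXY
    by_contra hY0
    have hY' : 0 < ‖Y‖ := norm_pos_iff.2 hY0
    have h1 : ∀ t : ℝ, 0 < t → 2 * ‖β X X‖ ^ 2 * ‖Y‖ ^ 2 ≤ t ^ 2 * ‖β Y Y‖ ^ 2 := by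
      intro t ht
      have h2 := hle (X + t • Y)
      have h3 : β (X + t • Y) (X + t • Y) = β X X + t ^ 2 • β Y Y := by
        simp [hY, hβ Y X, smul_smul, pow_two]
      have h4 : 1 + t ^ 2 * ‖Y‖ ^ 2 ≤ ‖X + t • Y‖ ^ 2 := by
        rw [norm_add_sq_real, hX, inner_smul_right, norm_smul, mul_pow, Real.norm_eq_abs, sq_abs]
        nlinarith [mul_nonneg ht.le hXY]
      have h5 : ‖β X X + t ^ 2 • β Y Y‖ ^ 2 ≤ ‖β X X‖ ^ 2 + t ^ 4 * ‖β Y Y‖ ^ 2 := by
        have := hg X Y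
        rw [hY, inner_zero_left] at this
        rw [norm_add_sq_real, inner_smul_right, norm_smul, mul_pow, Real.norm_eq_abs, sq_abs]
        nlinarith [mul_nonneg (sq_nonneg t) (neg_nonneg.2 this)]
      rw [h3] at h2
      have h6 : (‖β X X‖ * (1 + t ^ 2 * ‖Y‖ ^ 2)) ^ 2 ≤ ‖β X X + t ^ 2 • β Y Y‖ ^ 2 := by
        gcongr
        exact (mul_le_mul_of_nonneg_left h4 hμ.le).trans h2
      have h7 : t ^ 2 * (2 * ‖β X X‖ ^ 2 * ‖Y‖ ^ 2) ≤ t ^ 2 * (t ^ 2 * ‖β Y Y‖ ^ 2) := by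
        nlinarith [sq_nonneg (‖β X X‖ * (t ^ 2 * ‖Y‖ ^ 2))]
      exact le_of_mul_le_mul_left h7 (by positivity)
    have h8 : Filter.Tendsto (fun t : ℝ => t ^ 2 * ‖β Y Y‖ ^ 2) (nhdsWithin 0 (Set.Ioi 0))
        (nhds 0) := by
      have : Continuous fun t : ℝ => t ^ 2 * ‖β Y Y‖ ^ 2 := by fun_prop
      simpa using (this.tendsto 0).mono_left nhdsWithin_le_nhds
    have h9 := ge_of_tendsto h8 (eventually_nhdsWithin_of_forall h1)
    have : 0 < 2 * ‖β X X‖ ^ 2 * ‖Y‖ ^ 2 := by positivity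
    linarith
  refine ⟨X, (injective_iff_map_eq_zero _).2 fun Y hY => ?_⟩
  rcases le_total 0 ⟪X, Y⟫ with h | h
  · exact key Y hY h
  · exact neg_eq_zero.1 (key (-Y) (by rw [map_neg, hY, neg_zero])
      (by rw [inner_neg_right]; linarith))

/- Algebraic form of the lemma of Moore: if y₀ maximises the rank of B y then B y maps the kernel
of B y₀ into the range of B y₀.  (If not, a basis B y₀ cᵢ of the range together with B y x stays
independent under the perturbation B (y₀ + t y) cᵢ, t⁻¹ B (y₀ + t y) x = B y x for small t ≠ 0.) -/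
theorem moore_alg {Y T : Type} [AddCommGroup Y] [Module ℝ Y] [AddCommGroup T] [Module ℝ T]
    [FiniteDimensional ℝ T] (B : Y →ₗ[ℝ] T →ₗ[ℝ] E) : ∃ y₀ : Y, ∀ x, B y₀ x = 0 →
      ∀ y, B y x ∈ LinearMap.range (B y₀) := by
  classical
  obtain ⟨y₀, hy₀⟩ : ∃ y₀, ∀ y, finrank ℝ (LinearMap.range (B y)) ≤
      finrank ℝ (LinearMap.range (B y₀)) := by
    have hb : BddAbove (Set.range fun y => finrank ℝ (LinearMap.range (B y))) :=
      ⟨finrank ℝ E, by rintro _ ⟨y, rfl⟩; exact Submodule.finrank_le _⟩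
    obtain ⟨y₀, h⟩ := Nat.sSup_mem (Set.range_nonempty _) hb
    exact ⟨y₀, fun y => (le_csSup hb ⟨y, rfl⟩).trans h.ge⟩
  refine ⟨y₀, fun x hx y => ?_⟩
  by_contra hy
  let b := Module.finBasis ℝ (LinearMap.range (B y₀))
  choose c hc using fun i => (b i).2
  let g : ℝ → Option (Fin (finrank ℝ (LinearMap.range (B y₀)))) → E := fun t o =>
    o.elim (B y x) fun i => B y₀ (c i) + t • B y (c i)
  have hg : Continuous g := continuous_pi fun o => by
    cases o with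
    | none => exact continuous_const
    | some i => simp only [g, Option.elim]; fun_prop
  have h0 : LinearIndependent ℝ (g 0) := by
    have e : g 0 ∘ some = (LinearMap.range (B y₀)).subtype ∘ b := by
      funext i
      simp [g, hc]
    rw [linearIndependent_option, e]
    refine ⟨b.linearIndependent.map' _ (Submodule.ker_subtype _), fun h => hy ?_⟩
    refine (Submodule.span_le.2 ?_) h
    rintro _ ⟨i, rfl⟩
    exact (b i).2
  have h1 : ∀ᶠ t in nhdsWithin (0 : ℝ) {0}ᶜ, LinearIndependent ℝ (g t) :=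
    nhdsWithin_le_nhds (hg.continuousAt.eventually h0.eventually)
  obtain ⟨t, ht, ht0⟩ := (h1.and self_mem_nhdsWithin).exists
  have ht0' : t ≠ 0 := ht0
  have h2 : Submodule.span ℝ (Set.range (g t)) ≤ LinearMap.range (B (y₀ + t • y)) := by
    rw [Submodule.span_le]
    rintro _ ⟨o, rfl⟩
    cases o with
    | none => exact ⟨t⁻¹ • x, by simp [g, hx, smul_smul, ht0']⟩
    | some i => exact ⟨c i, by simp [g]⟩
  have h3 := (Submodule.finrank_mono h2).trans (hy₀ _)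
  rw [finrank_span_eq_card ht] at h3
  simp at h3

/- Otsuki.  Give C an inner product (a basis, EuclideanSpace) and minimise ‖β X X‖² on the unit
sphere, at X₀ with minimum μ > 0.  If β X₀ Y = 0, Y ≠ 0, then for t of the sign of ⟪X₀, Y⟫,
μ (1 + 2 t² ‖Y‖²) ≤ μ ‖X₀ + t Y‖⁴ ≤ ‖β (X₀ + tY) (X₀ + tY)‖² ≤ μ + t⁴ ‖β Y Y‖², absurd for small t.
So β X₀ is injective on C with values in W. -/
theorem otsuki (β : V →ₗ[ℝ] V →ₗ[ℝ] E) (hβ : ∀ X Y, β X Y = β Y X)
    (hg : ∀ X Y, ⟪β X X, β Y Y⟫ ≤ ⟪β X Y, β X Y⟫) (C : Submodule ℝ V) (W : Submodule ℝ E)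
    (hW : ∀ X ∈ C, ∀ Y ∈ C, β X Y ∈ W) (hC : ∀ X ∈ C, β X X = 0 → X = 0) :
    finrank ℝ C ≤ finrank ℝ W := by
  rcases Nat.eq_zero_or_pos (finrank ℝ C) with h | h
  · omega
  let e : EuclideanSpace ℝ (Fin (finrank ℝ C)) ≃ₗ[ℝ] C := LinearEquiv.ofFinrankEq _ _ (by simp)
  let j : EuclideanSpace ℝ (Fin (finrank ℝ C)) →ₗ[ℝ] V := C.subtype ∘ₗ e.toLinearMap
  have : Nontrivial (EuclideanSpace ℝ (Fin (finrank ℝ C))) :=
    Module.nontrivial_of_finrank_pos (R := ℝ) (by simpa using h)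
  obtain ⟨X₀, hX₀⟩ := lin_exists_injective (β.compl₁₂ j j) (fun X Y => hβ _ _)
    (fun X Y => hg _ _) fun X hX => e.injective (Subtype.ext (by
      simpa using hC _ (e X).2 hX))
  have := LinearMap.finrank_le_finrank_of_injective
    (f := LinearMap.codRestrict W (β.compl₁₂ j j X₀) fun Y => hW _ (e X₀).2 _ (e Y).2)
    (fun a b hab => hX₀ (congrArg Subtype.val hab))
  simpa using this

/- If β X X = 0 and β X Y = β X Z = 0 then β Y Z ⊥ β X T for all T: the t-linear term of hg for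
(X + t T, Y) gives ⟪β X T, β Y Y⟫ = 0; polarise on the kernel of β X. -/
theorem asym_perp (β : V →ₗ[ℝ] V →ₗ[ℝ] E) (hβ : ∀ X Y, β X Y = β Y X)
    (hg : ∀ X Y, ⟪β X X, β Y Y⟫ ≤ ⟪β X Y, β X Y⟫) {X Y Z : V} (hX : β X X = 0)
    (hY : β X Y = 0) (hZ : β X Z = 0) (T : V) : ⟪β X T, β Y Z⟫ = 0 := by
  have key : ∀ Y, β X Y = 0 → ⟪β X T, β Y Y⟫ = 0 := by
    intro Y hY
    have := lin_eq_zero (a := 2 * ⟪β X T, β Y Y⟫) (b := ⟪β T Y, β T Y⟫ - ⟪β T T, β Y Y⟫) fun t => by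
      have := hg (X + t • T) Y
      simp only [map_add, map_smul, LinearMap.add_apply, LinearMap.smul_apply, hX, hY, hβ T X,
        zero_add, inner_add_left, inner_smul_left, inner_smul_right, smul_add, conj_trivial]
        at this
      nlinarith
    linarith
  have h := key (Y + Z) (by rw [map_add, hY, hZ, add_zero])
  simp only [map_add, LinearMap.add_apply, inner_add_right, key Y hY, key Z hZ, hβ Z Y] at h
  linarith

/- Strong induction on finrank W.  If some X ∈ C has β X X = 0 and β X C ≠ 0, pass to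
C' = C ⊓ ker (β X), W' = W ⊓ (β X C)ᗮ (asym_perp); both dimensions drop by the rank.  Otherwise
take T = the nullity of β on C and apply otsuki to a complement of T in C. -/
theorem exists_asym (β : V →ₗ[ℝ] V →ₗ[ℝ] E) (hβ : ∀ X Y, β X Y = β Y X)
    (hg : ∀ X Y, ⟪β X X, β Y Y⟫ ≤ ⟪β X Y, β X Y⟫) (C : Submodule ℝ V) (W : Submodule ℝ E)
    (hW : ∀ X ∈ C, ∀ Y ∈ C, β X Y ∈ W) : ∃ T ≤ C, (∀ X ∈ T, ∀ Y ∈ T, β X Y = 0) ∧
      finrank ℝ C ≤ finrank ℝ T + finrank ℝ W := by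
  induction hn : finrank ℝ W using Nat.strong_induction_on generalizing C W with
  | _ n ih =>
  by_cases h : ∃ X ∈ C, β X X = 0 ∧ ∃ Y ∈ C, β X Y ≠ 0
  · obtain ⟨X, hXC, hX, Y, hYC, hY⟩ := h
    have hUW : C.map (β X) ≤ W := by
      rintro _ ⟨Z, hZ, rfl⟩
      exact hW X hXC Z hZ
    have h1 := Submodule.finrank_add_inf_finrank_orthogonal hUW
    have h2 := lin_rank (β X) C
    have h3 : 0 < finrank ℝ (C.map (β X)) := by
      rw [Nat.pos_iff_ne_zero, Ne, Submodule.finrank_eq_zero]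
      intro h0
      exact hY ((Submodule.eq_bot_iff _).1 h0 _ ⟨Y, hYC, rfl⟩)
    obtain ⟨T, hT, hT0, hTd⟩ := ih _ (by omega) (C ⊓ LinearMap.ker (β X))
      ((C.map (β X))ᗮ ⊓ W) (fun Y hY Z hZ => ⟨by
        rw [SetLike.mem_coe, Submodule.mem_orthogonal]
        rintro _ ⟨T, -, rfl⟩
        exact asym_perp β hβ hg hX hY.2 hZ.2 T, hW Y hY.1 Z hZ.1⟩) rfl
    exact ⟨T, hT.trans inf_le_left, hT0, by omega⟩
  · push Not at h
    let T := C ⊓ LinearMap.ker (β.compl₂ C.subtype)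
    obtain ⟨D, hD⟩ := T.exists_isCompl
    have h1 := otsuki β hβ hg (D ⊓ C) W (fun X hX Y hY => hW X hX.2 Y hY.2) fun X hX h0 => by
      have : X ∈ T := ⟨hX.2, LinearMap.ext fun Y => h X hX.2 h0 Y Y.2⟩
      exact (Submodule.disjoint_def.1 hD.disjoint) X this hX.1
    have h2 := Submodule.finrank_sup_add_finrank_inf_eq T (D ⊓ C)
    rw [← sup_inf_assoc_of_le _ (inf_le_left : T ≤ C), hD.sup_eq_top, top_inf_eq] at h2
    refine ⟨T, inf_le_left, fun X hX Y hY => LinearMap.congr_fun hX.2 ⟨Y, hY.1⟩, by omega⟩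

/- Florit, improved.  T from exists_asym with C = ⊤; moore_alg for B Y = β(·, Y) on T gives Y₀.
For X ∈ T, β X Y ∈ W₀ for all Y (hW₀).  For X ∈ T with β X Y₀ = 0 and any Z, β X Z lies in β T Y₀
and is orthogonal to it (asym_perp), so X ∈ ker β; rank-nullity on T. -/
theorem florit (β : V →ₗ[ℝ] V →ₗ[ℝ] E) (hβ : ∀ X Y, β X Y = β Y X)
    (hg : ∀ X Y, ⟪β X X, β Y Y⟫ ≤ ⟪β X Y, β X Y⟫) (W W₀ : Submodule ℝ E)
    (hW : ∀ X Y, β X Y ∈ W) (hW₀ : ∀ X, β X X = 0 → ∀ Y, β X Y ∈ W₀) :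
    finrank ℝ V ≤ finrank ℝ (LinearMap.ker β) + finrank ℝ W + finrank ℝ W₀ := by
  obtain ⟨T, -, hT, hd⟩ := exists_asym β hβ hg ⊤ W fun X _ Y _ => hW X Y
  obtain ⟨Y₀, hY₀⟩ := moore_alg (β.compl₂ T.subtype)
  have h1 := LinearMap.finrank_range_add_finrank_ker (β.compl₂ T.subtype Y₀)
  have h2 : LinearMap.range (β.compl₂ T.subtype Y₀) ≤ W₀ := by
    rintro _ ⟨X, rfl⟩
    simpa [hβ Y₀] using hW₀ X (hT X X.2 X X.2) Y₀
  have h3 : (LinearMap.ker (β.compl₂ T.subtype Y₀)).map T.subtype ≤ LinearMap.ker β := by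
    rintro _ ⟨X, hX, rfl⟩
    refine LinearMap.ext fun Z => ?_
    obtain ⟨X', hX'⟩ := hY₀ X hX Z
    have h4 : β Y₀ X' = β X Z := (hβ X Z).symm ▸ hX'
    have h5 := asym_perp β hβ hg (hT X X.2 X X.2) ((hβ X Y₀).trans hX) (hT X X.2 X' X'.2) Z
    rw [h4, inner_self_eq_zero] at h5
    exact h5
  have h4 := Submodule.finrank_mono h2
  have h5 := Submodule.finrank_mono h3
  rw [Submodule.finrank_map_subtype_eq] at h5
  rw [finrank_top] at hd
  omega

end Pool.Agent.MP_3a00c0_gt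

end

-- part MP_3a00c0_gt.Obt
section

/-! Linear algebra: obtuse families. -/

open Module
open scoped RealInnerProductSpace

namespace Pool.Agent.MP_3a00c0_gt

variable {E : Type} [NormedAddCommGroup E] [InnerProductSpace ℝ E] [FiniteDimensional ℝ E]

/- Induction on the dimension or the cardinality: project along one vector; at most one other
vector is killed and the projections stay pairwise obtuse. -/
theorem obtuse_card {ι : Type} (s : Finset ι) (v : ι → E) (h0 : ∀ i ∈ s, v i ≠ 0)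
    (ho : ∀ i ∈ s, ∀ j ∈ s, i ≠ j → ⟪v i, v j⟫ ≤ 0) :
    s.card ≤ 2 * finrank ℝ (Submodule.span ℝ (v '' s)) := by
  classical
  induction hn : s.card using Nat.strong_induction_on generalizing s v with
  | _ n ih =>
  rcases s.eq_empty_or_nonempty with rfl | ⟨i₀, hi₀⟩
  · simp at hn
    omega
  have hu : 0 < ⟪v i₀, v i₀⟫ := real_inner_self_pos.2 (h0 i₀ hi₀)
  let w : ι → E := fun i => v i - (⟪v i₀, v i⟫ / ⟪v i₀, v i₀⟫) • v i₀
  have hw : ∀ i j, ⟪w i, w j⟫ = ⟪v i, v j⟫ - ⟪v i₀, v i⟫ * ⟪v i₀, v j⟫ / ⟪v i₀, v i₀⟫ := by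
    intro i j
    simp only [w, inner_sub_left, inner_sub_right, inner_smul_left, inner_smul_right,
      conj_trivial, real_inner_comm (v i₀) (v i)]
    field_simp
    ring
  have hwu : ∀ i, ⟪v i₀, w i⟫ = 0 := by
    intro i
    simp only [w, inner_sub_right, inner_smul_right]
    field_simp
    ring
  have hneg : ∀ i ∈ s.erase i₀, ⟪v i₀, v i⟫ ≤ 0 := fun i hi =>
    ho i₀ hi₀ i (Finset.mem_of_mem_erase hi) (Finset.ne_of_mem_erase hi).symm
  have hone : ((s.erase i₀).filter fun i => ¬ w i ≠ 0).card ≤ 1 := by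
    have hlt : ∀ i ∈ (s.erase i₀).filter fun i => ¬ w i ≠ 0, ⟪v i₀, v i⟫ < 0 := by
      intro i hi
      obtain ⟨h1, h2⟩ := Finset.mem_filter.1 hi
      refine lt_of_le_of_ne (hneg i h1) fun h => h0 i (Finset.mem_of_mem_erase h1) ?_
      simpa [w, h] using not_not.1 h2
    refine Finset.card_le_one.2 fun i hi j hj => ?_
    by_contra hij
    have h1 := hw i j
    rw [not_not.1 (Finset.mem_filter.1 hi).2, inner_zero_left] at h1
    have h2 := ho i (Finset.mem_of_mem_erase (Finset.mem_filter.1 hi).1) j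
      (Finset.mem_of_mem_erase (Finset.mem_filter.1 hj).1) hij
    have h3 := div_pos (mul_pos_of_neg_of_neg (hlt i hi) (hlt j hj)) hu
    linarith
  have hcard := Finset.card_filter_add_card_filter_not (s := s.erase i₀) fun i => w i ≠ 0
  rw [Finset.card_erase_of_mem hi₀] at hcard
  have hpos : 0 < s.card := Finset.card_pos.2 ⟨i₀, hi₀⟩
  have h1 := ih _ (by omega) ((s.erase i₀).filter fun i => w i ≠ 0) w
    (fun i hi => (Finset.mem_filter.1 hi).2) (fun i hi j hj hij => by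
      have hi' := (Finset.mem_filter.1 hi).1
      have hj' := (Finset.mem_filter.1 hj).1
      have h2 := ho i (Finset.mem_of_mem_erase hi') j (Finset.mem_of_mem_erase hj') hij
      have h3 := div_nonneg (mul_nonneg_of_nonpos_of_nonpos (hneg i hi') (hneg j hj')) hu.le
      rw [hw]
      linarith) rfl
  have hi₀' : v i₀ ∈ Submodule.span ℝ (v '' s) := Submodule.subset_span ⟨i₀, hi₀, rfl⟩
  have hlt : Submodule.span ℝ (w '' ((s.erase i₀).filter fun i => w i ≠ 0 : Finset ι)) <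
      Submodule.span ℝ (v '' s) := by
    refine lt_of_le_of_ne (Submodule.span_le.2 ?_) fun h => ?_
    · rintro _ ⟨i, hi, rfl⟩
      exact sub_mem (Submodule.subset_span
        ⟨i, Finset.mem_of_mem_erase (Finset.mem_filter.1 hi).1, rfl⟩) (Submodule.smul_mem _ _ hi₀')
    · have h2 : Submodule.span ℝ (w '' ((s.erase i₀).filter fun i => w i ≠ 0 : Finset ι)) ≤
          (ℝ ∙ v i₀)ᗮ := by
        rw [Submodule.span_le]
        rintro _ ⟨i, -, rfl⟩
        exact Submodule.mem_orthogonal_singleton_iff_inner_right.2 (hwu i)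
      rw [h] at h2
      exact hu.ne' (Submodule.mem_orthogonal_singleton_iff_inner_right.1 (h2 hi₀'))
  have := Submodule.finrank_lt_finrank_of_lt hlt
  omega

omit [FiniteDimensional ℝ E] in
theorem obt_pos {z : ℕ} (v : Fin z → E) (ho : ∀ i j, i ≠ j → ⟪v i, v j⟫ ≤ 0) (c : Fin z → ℝ)
    (hc : ∑ i, c i • v i = 0) : ∑ i, max (c i) 0 • v i = 0 := by
  have h1 : ∑ i, max (c i) 0 • v i = ∑ i, max (-c i) 0 • v i := by
    rw [← sub_eq_zero, ← Finset.sum_sub_distrib, ← hc]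
    exact Finset.sum_congr rfl fun i _ => by rw [← sub_smul, max_zero_sub_max_neg_zero_eq_self]
  rw [← real_inner_self_nonpos]
  nth_rewrite 2 [h1]
  rw [sum_inner]
  refine Finset.sum_nonpos fun i _ => ?_
  rw [inner_sum]
  refine Finset.sum_nonpos fun j _ => ?_
  rw [inner_smul_left, inner_smul_right, conj_trivial, ← mul_assoc]
  by_cases hij : i = j
  · subst hij
    rcases le_total (c i) 0 with h | h
    · rw [max_eq_right h]
      simp
    · rw [max_eq_right (neg_nonpos.2 h)]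
      simp
  · exact mul_nonpos_of_nonneg_of_nonpos (mul_nonneg (le_max_right _ _) (le_max_right _ _))
      (ho i j hij)

/- Let I = {i | v i ∈ (span S)ᗮ}, L the span of the v i, i ∈ I.  In a relation ∑ cᵢ vᵢ = 0 the
positive and the negative parts vanish separately (obtuse); pairing with b ∈ S shows cᵢ ≠ 0 → i ∈ I.
So finrank span = (z - card I) + finrank L, and card I ≤ 2 finrank L by obtuse_card. -/
theorem obtuse_count {z : ℕ} (v : Fin z → E) (h0 : ∀ i, v i ≠ 0)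
    (ho : ∀ i j, i ≠ j → ⟪v i, v j⟫ ≤ 0) (S : Set E) (hS : ∀ b ∈ S, ∀ i, ⟪v i, b⟫ ≤ 0) :
    z ≤ finrank ℝ (Submodule.span ℝ (Set.range v))
      + finrank ℝ (Submodule.span ℝ (Set.range v) ⊓ (Submodule.span ℝ S)ᗮ : Submodule ℝ E) := by
  classical
  let I : Finset (Fin z) := Finset.univ.filter fun i => v i ∈ (Submodule.span ℝ S)ᗮ
  have key : ∀ c : Fin z → ℝ, ∑ i, c i • v i = 0 → ∀ i, i ∉ I → c i = 0 := by
    intro c hc i hi
    have hP := obt_pos v ho c hc
    have hN := obt_pos v ho (-c) (by simpa using hc)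
    by_contra hci
    refine hi (Finset.mem_filter.2 ⟨Finset.mem_univ _, ?_⟩)
    rw [Submodule.mem_orthogonal']
    intro b hb
    induction hb using Submodule.span_induction with
    | mem b hb =>
      have h1 : ∀ d : Fin z → ℝ, ∑ j, max (d j) 0 • v j = 0 → max (d i) 0 * ⟪v i, b⟫ = 0 := by
        intro d hd
        have h2 : ∑ j, max (d j) 0 * ⟪v j, b⟫ = 0 := by
          simpa [sum_inner, inner_smul_left] using congrArg (fun x => ⟪x, b⟫) hd
        exact (Finset.sum_eq_zero_iff_of_nonpos fun j _ =>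
          mul_nonpos_of_nonneg_of_nonpos (le_max_right _ _) (hS b hb j)).1 h2 i (Finset.mem_univ _)
      rcases lt_or_gt_of_ne hci with h | h
      · exact (mul_eq_zero.1 (h1 _ hN)).resolve_left (lt_max_of_lt_left (neg_pos.2 h)).ne'
      · exact (mul_eq_zero.1 (h1 _ hP)).resolve_left (lt_max_of_lt_left h).ne'
    | zero => simp
    | add a b _ _ ha hb => rw [inner_add_right, ha, hb, add_zero]
    | smul r a _ ha => rw [inner_smul_right, ha, mul_zero]
  have h1 := LinearMap.finrank_range_add_finrank_ker (Fintype.linearCombination ℝ v)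
  have h2 := LinearMap.finrank_range_add_finrank_ker
    (Fintype.linearCombination ℝ fun i : I => v i)
  rw [Fintype.range_linearCombination] at h1 h2
  have h3 : finrank ℝ (LinearMap.ker (Fintype.linearCombination ℝ v)) ≤
      finrank ℝ (LinearMap.ker (Fintype.linearCombination ℝ fun i : I => v i)) := by
    refine LinearMap.finrank_le_finrank_of_injective (f := LinearMap.codRestrict _
      ((LinearMap.funLeft ℝ ℝ (Subtype.val : I → Fin z)).domRestrict _) fun c => ?_) ?_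
    · have hc : ∑ i, c.1 i • v i = 0 := c.2
      change ∑ i : I, c.1 i • v i = 0
      rw [Finset.sum_coe_sort I fun i => c.1 i • v i, ← hc]
      exact Finset.sum_subset (Finset.subset_univ _) fun i _ hi => by rw [key _ hc i hi, zero_smul]
    · refine (injective_iff_map_eq_zero _).2 fun c hc => Subtype.ext (funext fun i => ?_)
      by_cases hi : i ∈ I
      · exact congrFun (congrArg Subtype.val hc) ⟨i, hi⟩
      · exact key _ c.2 i hi
  have h4 := obtuse_card I v (fun i _ => h0 i) fun i _ j _ => ho i j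
  have h5 : (Set.range fun i : I => v i) = v '' I := by
    ext x
    simp
  have h6 : Submodule.span ℝ (v '' I) ≤
      Submodule.span ℝ (Set.range v) ⊓ (Submodule.span ℝ S)ᗮ := by
    rw [Submodule.span_le]
    rintro _ ⟨i, hi, rfl⟩
    exact ⟨Submodule.subset_span ⟨i, rfl⟩, (Finset.mem_filter.1 hi).2⟩
  have h7 := Submodule.finrank_mono h6
  rw [h5] at h2
  simp only [finrank_fintype_fun_eq_card, Fintype.card_fin, Fintype.card_coe] at h1 h2
  omega

end Pool.Agent.MP_3a00c0_gt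

end

-- part MP_3a00c0_gt.Alg
section

/-! The final count. -/

open Set Metric Filter Topology
open scoped ContDiff RealInnerProductSpace

set_option maxSynthPendingDepth 3
set_option linter.unusedSectionVars false

namespace Pool.Agent.MP_3a00c0_gt

open Pool.Agent.MP_3fed84_gt

variable {E : Type} [NormedAddCommGroup E] [InnerProductSpace ℝ E] [FiniteDimensional ℝ E]
  {V : Type} [NormedAddCommGroup V] [NormedSpace ℝ V] [FiniteDimensional ℝ V]

theorem alg_mem_orth {S : Set E} {x : E} (h : ∀ b ∈ S, ⟪b, x⟫ = 0) :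
    x ∈ (Submodule.span ℝ S)ᗮ := by
  rw [Submodule.mem_orthogonal]
  intro b hb
  induction hb using Submodule.span_induction with
  | mem b hb => exact h b hb
  | zero => simp
  | add a b _ _ ha hb => rw [inner_add_left, ha, hb, add_zero]
  | smul r a _ ha => rw [inner_smul_left, ha, mul_zero]

theorem alg_sum (P Q : Submodule ℝ E) :
    Module.finrank ℝ P + Module.finrank ℝ (Q ⊓ Pᗮ : Submodule ℝ E) ≤
      Module.finrank ℝ (P ⊔ Q : Submodule ℝ E) := by
  have h := Submodule.finrank_sup_add_finrank_inf_eq P (Q ⊓ Pᗮ)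
  rw [((Submodule.orthogonal_disjoint P).mono_right inf_le_right).eq_bot, finrank_bot] at h
  have := Submodule.finrank_mono (sup_le_sup_left (inf_le_left : Q ⊓ Pᗮ ≤ Q) P)
  omega

/-
β U W = A U (ev W) is symmetric, orthogonal to range ev (symmetric in U, W and skew in W, Y), and
satisfies hg (nonneg, gauss).  N = ker β, N₁ = span {β X X} (contains all β X Y), E₀ = span v,
M' = N₁ ⊔ E₀ ≤ (range ev)ᗮ, Q = (range ev ⊔ M')ᗮ.
(a) florit with W = N₁, W₀ = N₁ ⊓ E₀ᗮ (the form -⟪v i, β X X⟫ is positive semidefinite).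
(b) for U ∈ N: ⟪R ξ U U, ξ⟫ = ‖A U ξ‖² (null, skew); A U kills range ev, N₁ (K(U, X) = 0, so
R U X X = 0 by CurvAlg.flat, and gauss) and E₀ (flat), so A U ξ ∈ Q.  On ker (A U) polarise
R U ξ ξ = 0 (pair, CurvAlg.flat): for W ∈ N, A U Y = 0 one gets A U (A W Y) = 0.  moore_alg for
B ξ = (U ∈ N ↦ A U ξ) gives ξ₀; if A U ξ₀ = 0 then A U ξ = A W ξ₀ and
‖A U ξ‖² = -⟪ξ, A U (A W ξ₀)⟫ = 0.  So finrank N ≤ finrank (ker A) + finrank Q.
(c) obtuse_count with S = {β X X}.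
Sum: finrank N₁ + finrank (E₀ ⊓ N₁ᗮ) ≤ finrank M', finrank E₀ + finrank (N₁ ⊓ E₀ᗮ) ≤ finrank M',
finrank V + finrank M' + finrank Q = finrank E.
-/
theorem alg_bound (ev : V →L[ℝ] E) (A : V →L[ℝ] E →L[ℝ] E) (R : E →L[ℝ] E →L[ℝ] E →L[ℝ] E)
    {G : E →L[ℝ] E →L[ℝ] ℝ} (hG : ∀ a b, G a b = ⟪a, b⟫) (hR : CurvAlg G R)
    (inj : Function.Injective ev) (skew : ∀ U a b, ⟪A U a, b⟫ = -⟪a, A U b⟫)
    (comm : ∀ U W, A U (ev W) = A W (ev U))
    (gauss : ∀ U W ξ, R (ev U) (ev W) ξ = A U (A W ξ) - A W (A U ξ))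
    (null : ∀ U W, (∀ Y, A U (ev Y) = 0) → (∀ Y, A W (ev Y) = 0) → ∀ ξ,
      R ξ (ev U) (ev W) = -A U (A W ξ))
    {z : ℕ} (hz : Module.finrank ℝ A.ker ≤ z) (v : Fin z → E) (h0 : ∀ i, v i ≠ 0)
    (ho : ∀ i j, i ≠ j → ⟪v i, v j⟫ ≤ 0) (perp : ∀ i U, ⟪v i, ev U⟫ = 0)
    (semi : ∀ i U, ⟪v i, A U (ev U)⟫ ≤ 0)
    (flat : ∀ i U, A U (ev U) = 0 → ⟪R (v i) (ev U) (ev U), v i⟫ = 0) :
    3 * Module.finrank ℝ V ≤ 2 * Module.finrank ℝ E := by
  let β : V →ₗ[ℝ] V →ₗ[ℝ] E := LinearMap.mk₂ ℝ (fun U W => A U (ev W)) (by simp) (by simp)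
    (by simp) (by simp)
  have hβ : ∀ U W, β U W = A U (ev W) := fun _ _ => rfl
  have hsym : ∀ U W, β U W = β W U := comm
  have hperp : ∀ U W Y, ⟪A U (ev W), ev Y⟫ = 0 := by
    have h1 : ∀ U W Y, ⟪A U (ev W), ev Y⟫ = -⟪A Y (ev U), ev W⟫ := fun U W Y => by
      rw [skew, real_inner_comm, comm U Y]
    intro U W Y
    have a := h1 U W Y
    have b := h1 Y U W
    have c := h1 W Y U
    linarith
  have hg : ∀ X Y, ⟪β X X, β Y Y⟫ ≤ ⟪β X Y, β X Y⟫ := by
    intro X Y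
    have h := hR.nonneg (ev X) (ev Y)
    rw [hG, gauss, inner_sub_left, skew X, skew Y (A X (ev Y)), comm Y X,
      real_inner_comm (A X (ev X))] at h
    simp only [hβ]
    linarith
  set N₁ := Submodule.span ℝ (Set.range fun X => β X X) with hN₁
  set E₀ := Submodule.span ℝ (Set.range v) with hE₀
  have hmem : ∀ X, β X X ∈ N₁ := fun X => Submodule.subset_span ⟨X, rfl⟩
  have hW : ∀ X Y, β X Y ∈ N₁ := by
    intro X Y
    have e : β X Y = (1 / 2 : ℝ) • (β (X + Y) (X + Y) - β X X - β Y Y) := by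
      simp only [map_add, LinearMap.add_apply, hsym Y X]
      module
    rw [e]
    exact Submodule.smul_mem _ _ (sub_mem (sub_mem (hmem _) (hmem _)) (hmem _))
  have ha := florit β hsym hg N₁ (E₀ᗮ ⊓ N₁) hW fun X hX Y => ⟨by
    refine alg_mem_orth ?_
    rintro _ ⟨i, rfl⟩
    have := lin_eq_zero (a := 2 * ⟪v i, β X Y⟫) (b := -⟪v i, β Y Y⟫) fun t => by
      have := semi i (X + t • Y)
      rw [← hβ] at this
      simp only [map_add, map_smul, LinearMap.add_apply, LinearMap.smul_apply, hX, hsym Y X,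
        zero_add, inner_add_right, inner_smul_right, smul_add] at this
      nlinarith
    linarith, hW X Y⟩
  have hN : ∀ U ∈ LinearMap.ker β, ∀ Y, A U (ev Y) = 0 := fun U hU Y => LinearMap.congr_fun hU Y
  have hsq : ∀ U ∈ LinearMap.ker β, ∀ ξ, ⟪R ξ (ev U) (ev U), ξ⟫ = ⟪A U ξ, A U ξ⟫ := by
    intro U hU ξ
    rw [null U U (hN U hU) (hN U hU), inner_neg_left, skew, neg_neg]
  set Q := (LinearMap.range (ev : V →ₗ[ℝ] E) ⊔ (N₁ ⊔ E₀))ᗮ with hQ
  have hkill : ∀ U ∈ LinearMap.ker β, LinearMap.range (ev : V →ₗ[ℝ] E) ⊔ (N₁ ⊔ E₀) ≤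
      LinearMap.ker (A U : E →ₗ[ℝ] E) := by
    intro U hU
    refine sup_le ?_ (sup_le (Submodule.span_le.2 ?_) (Submodule.span_le.2 ?_))
    · rintro _ ⟨Y, rfl⟩
      exact hN U hU Y
    · rintro _ ⟨X, rfl⟩
      have h1 : R (ev U) (ev X) (ev X) = A U (A X (ev X)) := by
        rw [gauss, hN U hU, map_zero, sub_zero]
      have h2 := hR.flat (a := ev U) (u := ev X) (by
        rw [hG, h1, skew, hN U hU, inner_zero_right, neg_zero])
      exact h1.symm.trans h2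
    · rintro _ ⟨i, rfl⟩
      have h1 := flat i U (hN U hU U)
      rw [hsq U hU, inner_self_eq_zero] at h1
      exact h1
  have hcomp : ∀ U ∈ LinearMap.ker β, ∀ W ∈ LinearMap.ker β, ∀ Y, A U Y = 0 →
      A U (A W Y) = 0 := by
    intro U hU W hW Y hY
    have h1 : ∀ ξ, A U ξ = 0 → R (ev U) ξ ξ = 0 := fun ξ hξ => hR.flat (by
      rw [← hR.pair, hG, hsq U hU, hξ, inner_zero_left])
    have h2 := h1 (Y + ev W) (by rw [map_add, hY, hN U hU, add_zero])
    simp only [map_add, _root_.add_apply, h1 Y hY, h1 _ (hN U hU W), zero_add,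
      add_zero] at h2
    rw [gauss, hY, map_zero, sub_zero, hR.anti, null U W (hN U hU) (hN W hW), neg_neg,
      ← two_smul ℝ, smul_eq_zero] at h2
    exact h2.resolve_left two_ne_zero
  let B : E →ₗ[ℝ] LinearMap.ker β →ₗ[ℝ] E := LinearMap.mk₂ ℝ (fun ξ U => A U ξ) (by simp) (by simp)
    (by simp) (by simp)
  obtain ⟨ξ₀, hξ₀⟩ := moore_alg B
  have hb1 := LinearMap.finrank_range_add_finrank_ker (B ξ₀)
  have hb2 : LinearMap.range (B ξ₀) ≤ Q := by
    rintro _ ⟨U, rfl⟩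
    rw [hQ, Submodule.mem_orthogonal']
    intro η hη
    have : A U η = 0 := hkill U U.2 hη
    change ⟪A U ξ₀, η⟫ = 0
    rw [skew, this, inner_zero_right, neg_zero]
  have hb3 : (LinearMap.ker (B ξ₀)).map (LinearMap.ker β).subtype ≤ A.ker := by
    rintro _ ⟨U, hU, rfl⟩
    refine ContinuousLinearMap.ext fun ξ => ?_
    obtain ⟨W, hW⟩ := hξ₀ U hU ξ
    have h1 : A W ξ₀ = A U ξ := hW
    have h2 := skew U ξ (A W ξ₀)
    rw [hcomp U U.2 W W.2 ξ₀ hU, inner_zero_right, neg_zero, h1, inner_self_eq_zero] at h2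
    exact h2
  have hb4 := Submodule.finrank_mono hb2
  have hb5 := Submodule.finrank_mono hb3
  rw [Submodule.finrank_map_subtype_eq] at hb5
  have hc := obtuse_count v h0 ho (Set.range fun X => β X X) (by
    rintro _ ⟨X, rfl⟩ i
    exact semi i X)
  rw [← hE₀, ← hN₁] at hc
  have hs1 := alg_sum N₁ E₀
  have hs2 := alg_sum E₀ N₁
  rw [sup_comm E₀, inf_comm N₁] at hs2
  have hs3 := Submodule.finrank_add_finrank_orthogonal
    (LinearMap.range (ev : V →ₗ[ℝ] E) ⊔ (N₁ ⊔ E₀))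
  have hs4 := Submodule.finrank_sup_add_finrank_inf_eq (LinearMap.range (ev : V →ₗ[ℝ] E)) (N₁ ⊔ E₀)
  have hs5 : N₁ ⊔ E₀ ≤ (LinearMap.range (ev : V →ₗ[ℝ] E))ᗮ := by
    refine sup_le (Submodule.span_le.2 ?_) (Submodule.span_le.2 ?_)
    · rintro _ ⟨X, rfl⟩
      rw [SetLike.mem_coe, Submodule.mem_orthogonal']
      rintro _ ⟨Y, rfl⟩
      exact hperp X X Y
    · rintro _ ⟨i, rfl⟩
      rw [SetLike.mem_coe, Submodule.mem_orthogonal']
      rintro _ ⟨Y, rfl⟩
      exact perp i Y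
  rw [((Submodule.orthogonal_disjoint _).mono_right hs5).eq_bot, finrank_bot,
    LinearMap.finrank_range_of_inj inj] at hs4
  rw [← hQ] at hs3
  omega

end Pool.Agent.MP_3a00c0_gt

end
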