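import Pool.Agent.MP_3a00c0_gt.Act

-- part MP_3a00c0_gt.Smooth
section

/-! A continuous action by isometries is smooth. -/

open Set Metric Filter Topology
open scoped ContDiff RealInnerProductSpace

set_option maxSynthPendingDepth 3
set_option linter.unusedSectionVars false

namespace Pool.Agent.MP_3a00c0_gt

open Pool.Agent.MP_3fed84_gt

section Averaging

open MeasureTheory

/-- A function that is C^n at a point agrees near that point with a global C^n function. -/
theorem smooth_cutoff {X Y : Type} [NormedAddCommGroup X] [NormedSpace ℝ X]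
    [FiniteDimensional ℝ X] [NormedAddCommGroup Y] [NormedSpace ℝ Y] {n : ℕ} {f : X → Y} {x₀ : X}
    (hf : ContDiffAt ℝ n f x₀) : ∃ g : X → Y, ContDiff ℝ n g ∧ g =ᶠ[𝓝 x₀] f := by
  obtain ⟨R, hR, hRU⟩ := Metric.nhds_basis_closedBall.mem_iff.mp (hf.eventually (by simp))
  let b : ContDiffBump x₀ := ⟨R / 2, R, by positivity, by linarith⟩
  have hbs : tsupport b = closedBall x₀ R := b.tsupport_eq
  refine ⟨fun x => b x • f x, contDiff_iff_contDiffAt.mpr fun x => ?_, ?_⟩
  · by_cases hxU : x ∈ closedBall x₀ R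
    · exact (b.contDiff (n := n)).contDiffAt.smul (hRU hxU)
    · have h1 : x ∉ tsupport b := fun h => hxU (hbs ▸ h)
      have h2 : (fun x => b x • f x) =ᶠ[𝓝 x] fun _ => 0 := by
        filter_upwards [notMem_tsupport_iff_eventuallyEq.mp h1] with z hz
        simp [hz]
      exact contDiffAt_const.congr_of_eventuallyEq h2
  · filter_upwards [closedBall_mem_nhds x₀ (half_pos hR)] with x hx
    rw [b.one_of_mem_closedBall hx, one_smul]

/-- Integration as a continuous linear map on continuous functions. -/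
noncomputable def smooth_int {K : Type} [TopologicalSpace K] [CompactSpace K] [MeasurableSpace K]
    [OpensMeasurableSpace K] (ν : Measure K) [IsFiniteMeasure ν] (Y : Type) [NormedAddCommGroup Y]
    [NormedSpace ℝ Y] [SecondCountableTopology Y] : C(K, Y) →L[ℝ] Y :=
  LinearMap.mkContinuous
    { toFun := fun f => ∫ b, f b ∂ν
      map_add' := fun f g => by
        simp only [ContinuousMap.add_apply]
        exact integral_add
          (f.continuous.integrable_of_hasCompactSupport (HasCompactSupport.of_compactSpace f))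
          (g.continuous.integrable_of_hasCompactSupport (HasCompactSupport.of_compactSpace g))
      map_smul' := fun c f => by
        simp only [ContinuousMap.smul_apply, RingHom.id_apply]
        exact integral_smul _ _ } (ν.real univ)
    (fun f => by
      rw [mul_comm]
      exact norm_integral_le_of_norm_le_const (Eventually.of_forall fun b => f.norm_coe_le_norm b))

variable {V P X Y : Type} [NormedAddCommGroup V] [NormedSpace ℝ V] [FiniteDimensional ℝ V]
  [NormedAddCommGroup P] [NormedSpace ℝ P] [NormedAddCommGroup X] [NormedSpace ℝ X]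
  [NormedAddCommGroup Y] [NormedSpace ℝ Y] [FiniteDimensional ℝ Y]

/-- A parametric integral over a compact set is C^n. -/
theorem smooth_param [MeasurableSpace V] [BorelSpace V] (μ : Measure V)
    [IsFiniteMeasureOnCompacts μ] {K : Set V} (hK : IsCompact K) {j : V → P}
    (hj : ContinuousOn j K) {n : ℕ} {g : P × X → Y} (hg : ContDiff ℝ n g) :
    ContDiff ℝ n (fun x : X => ∫ b in K, g (j b, x) ∂μ) := by
  have : CompactSpace K := isCompact_iff_compactSpace.1 hK
  have : IsFiniteMeasure (μ.comap (Subtype.val : K → V)) := by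
    refine ⟨?_⟩
    rw [comap_subtype_coe_apply hK.measurableSet, image_univ, Subtype.range_coe]
    exact hK.measure_lt_top
  let A₀ : C(K, P × X) := ⟨fun b => (j b, 0), (hj.domRestrict).prodMk continuous_const⟩
  let A : X → C(K, P × X) := fun x => A₀ + ContinuousMap.const K (0, x)
  have hA : ContDiff ℝ n A :=
    contDiff_const.add ((ContinuousLinearMap.const ℝ K : P × X →L[ℝ] _).contDiff.comp
      (contDiff_const.prodMk contDiff_id))
  have h1 := (smooth_int (μ.comap (Subtype.val : K → V)) Y).contDiff.comp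
    ((nemytskii_nat (K := K) n Y ⟨g, hg.continuous⟩ hg).comp hA)
  convert h1 using 2 with x
  rw [← integral_subtype_comap hK.measurableSet]
  show _ = ∫ b : K, g (A x b) ∂_
  congr 1
  ext b
  show g (j b, x) = g ((j b, 0) + (0, x))
  simp

/-- Averaging argument: a local action whose members are given by a C^n formula in a continuous
parameter is jointly C^n. -/
theorem smooth_average [FiniteDimensional ℝ P] {φ : V → Y → Y} {j : V → P} {H : P × Y → Y}
    {y₀ : Y} {n : ℕ} (hn : n ≠ 0) (hj : ∀ᶠ b in 𝓝 (0 : V), ContinuousAt j b)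
    (hH : ContDiffAt ℝ n H (j 0, y₀))
    (hφ : ∀ᶠ p in 𝓝 ((0 : V), y₀), φ p.1 p.2 = H (j p.1, p.2))
    (h0 : ∀ᶠ y in 𝓝 y₀, φ 0 y = y)
    (hadd : ∀ᶠ p in 𝓝 ((0 : V), y₀), ∀ b, φ (b + p.1) p.2 = φ b (φ p.1 p.2)) :
    ContDiffAt ℝ n (fun p : V × Y => φ p.1 p.2) (0, y₀) := by
  have hn' : (n : WithTop ℕ∞) ≠ 0 := by exact_mod_cast hn
  have : CompleteSpace Y := FiniteDimensional.complete ℝ Y
  have : ProperSpace V := FiniteDimensional.proper_real V
  borelize V
  let μ : Measure V := Measure.addHaar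
  obtain ⟨H', hH', hHH⟩ := smooth_cutoff hH
  have hj0 : ContinuousAt j 0 := hj.self_of_nhds
  have hJ : ContinuousAt (fun p : V × Y => (j p.1, p.2)) (0, y₀) :=
    (ContinuousAt.comp (f := Prod.fst) hj0 continuousAt_fst).prodMk continuousAt_snd
  have hφ' : ∀ᶠ p in 𝓝 ((0 : V), y₀), φ p.1 p.2 = H' (j p.1, p.2) := by
    filter_upwards [hφ, hJ.eventually hHH] with p h1 h2
    rw [h1, h2]
  -- the derivative in the second variable
  let D : P × Y → Y →L[ℝ] Y := fun q => (fderiv ℝ H' q).comp (ContinuousLinearMap.inr ℝ P Y)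
  have hD : ∀ q y, HasFDerivAt (fun z => H' (q, z)) (D (q, y)) y := fun q y =>
    (hH'.differentiable hn' (q, y)).hasFDerivAt.comp y (hasFDerivAt_prodMk_right q y)
  have hDc : Continuous D := (hH'.continuous_fderiv hn').clm_comp continuous_const
  have hD0 : D (j 0, y₀) = ContinuousLinearMap.id ℝ Y := by
    refine (hD _ _).unique ((hasFDerivAt_id y₀).congr_of_eventuallyEq ?_)
    have ht : Tendsto (fun y : Y => ((0 : V), y)) (𝓝 y₀) (𝓝 (0, y₀)) :=
      (Continuous.prodMk_right (0 : V)).continuousAt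
    filter_upwards [h0, ht.eventually hφ'] with y h1 h2
    exact h2.symm.trans h1
  have hDn : ∀ᶠ p in 𝓝 ((0 : V), y₀), ‖D (j p.1, p.2) - ContinuousLinearMap.id ℝ Y‖ ≤ 1 / 2 := by
    have h1 : ContinuousAt (fun p : V × Y => D (j p.1, p.2)) (0, y₀) :=
      ContinuousAt.comp (f := fun p : V × Y => (j p.1, p.2)) hDc.continuousAt hJ
    filter_upwards [h1.eventually (closedBall_mem_nhds _ (by norm_num : (0 : ℝ) < 1 / 2))]
      with p hp
    rwa [dist_eq_norm, hD0] at hp
  have hjp : ∀ᶠ p in 𝓝 ((0 : V), y₀), ContinuousAt j p.1 :=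
    (continuousAt_fst (p := ((0 : V), y₀))).eventually hj
  obtain ⟨r, hr, hball⟩ := Metric.nhds_basis_closedBall.mem_iff.mp (hφ'.and (hDn.and hjp))
  rw [← closedBall_prod_same] at hball
  have hB : ∀ b ∈ closedBall (0 : V) r, ∀ y ∈ closedBall y₀ r, φ b y = H' (j b, y) ∧
      ‖D (j b, y) - ContinuousLinearMap.id ℝ Y‖ ≤ 1 / 2 ∧ ContinuousAt j b :=
    fun b hb y hy => hball (show (b, y) ∈ _ from ⟨hb, hy⟩)
  have hK : IsCompact (closedBall (0 : V) r) := isCompact_closedBall _ _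
  have hjK : ContinuousOn j (closedBall (0 : V) r) := fun b hb =>
    (hB b hb y₀ (mem_closedBall_self hr.le)).2.2.continuousWithinAt
  let χ₀ : ContDiffBump (0 : V) := ⟨r / 4, r / 2, by positivity, by linarith⟩
  let χ : V → ℝ := χ₀.normed μ
  have hχs : ContDiff ℝ n χ := χ₀.contDiff_normed (n := n)
  have hχ0 : ∀ w, r / 2 ≤ ‖w‖ → χ w = 0 := by
    intro w hw
    by_contra hne
    have h1 : w ∈ Function.support (χ₀.normed μ) := hne
    rw [χ₀.support_normed_eq, mem_ball_zero_iff] at h1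
    exact absurd h1 (not_lt.2 hw)
  let S : V × Y → Y := fun x => ∫ b in closedBall (0 : V) r, χ (b - x.1) • H' (j b, x.2) ∂μ
  have hS : ContDiff ℝ n S := by
    refine smooth_param μ hK (j := fun b => (b, j b)) (continuousOn_id.prodMk hjK)
      (g := fun q : (V × P) × (V × Y) => χ (q.1.1 - q.2.1) • H' (q.1.2, q.2.2)) ?_
    exact (hχs.comp (by fun_prop)).smul (hH'.comp (by fun_prop))
  have hSe : ∀ a : V, ‖a‖ < r / 2 → ∀ y ∈ closedBall y₀ r,
      S (a, y) = ∫ b, χ (b - a) • φ b y ∂μ := by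
    intro a ha y hy
    rw [← setIntegral_eq_integral_of_forall_compl_eq_zero (s := closedBall (0 : V) r)]
    · refine setIntegral_congr_fun hK.measurableSet fun b hb => ?_
      simp only [(hB b hb y hy).1]
    · intro b hb
      rw [mem_closedBall_zero_iff, not_le] at hb
      rw [hχ0, zero_smul]
      linarith [norm_sub_norm_le b a]
  let F : Y → Y := fun y => S (0, y)
  have hF : ContDiff ℝ n F := hS.comp (contDiff_const.prodMk contDiff_id)
  have hφc : Tendsto (fun p : V × Y => φ p.1 p.2) (𝓝 (0, y₀)) (𝓝 y₀) := by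
    have h1 : ContinuousAt (fun p : V × Y => H' (j p.1, p.2)) (0, y₀) :=
      ContinuousAt.comp (f := fun p : V × Y => (j p.1, p.2)) hH'.continuous.continuousAt hJ
    have h2 : H' (j 0, y₀) = y₀ := hφ'.self_of_nhds.symm.trans h0.self_of_nhds
    have h3 := h1.tendsto
    simp only [h2] at h3
    exact h3.congr' (hφ'.mono fun p hp => hp.symm)
  have hFS : ∀ᶠ p in 𝓝 ((0 : V), y₀), F (φ p.1 p.2) = S p := by
    filter_upwards [hadd, hφc.eventually (closedBall_mem_nhds y₀ hr),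
      (continuousAt_fst (p := ((0 : V), y₀))).eventually (ball_mem_nhds (0 : V) (half_pos hr)),
      (continuousAt_snd (p := ((0 : V), y₀))).eventually (closedBall_mem_nhds y₀ hr)]
      with p h1 h2 h3 h4
    have h5 := hSe p.1 (mem_ball_zero_iff.1 h3) p.2 h4
    have h6 := hSe 0 (by simpa using hr) _ h2
    show S (0, φ p.1 p.2) = S (p.1, p.2)
    rw [h5, h6, ← integral_add_right_eq_self (fun b => χ (b - p.1) • φ b p.2) p.1]
    simp only [sub_zero, add_sub_cancel_right, h1]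
  -- the derivative of F is invertible
  have hint : ∀ y, IntegrableOn (fun b => χ b • H' (j b, y)) (closedBall (0 : V) r) μ :=
    fun y => ContinuousOn.integrableOn_compact hK (hχs.continuous.continuousOn.smul
      (hH'.continuous.comp_continuousOn (hjK.prodMk continuousOn_const)))
  have hχi : IntegrableOn χ (closedBall (0 : V) r) μ := χ₀.integrable_normed.integrableOn
  have hχ1 : ∫ b in closedBall (0 : V) r, χ b ∂μ = 1 := by
    rw [setIntegral_eq_integral_of_forall_compl_eq_zero]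
    · exact χ₀.integral_normed
    · intro b hb
      rw [mem_closedBall_zero_iff, not_le] at hb
      exact hχ0 b (by linarith)
  have hlip : ∀ y ∈ closedBall y₀ r, ‖(F y - y) - (F y₀ - y₀)‖ ≤ 1 / 2 * ‖y - y₀‖ := by
    intro y hy
    have e : (F y - y) - (F y₀ - y₀) = ∫ b in closedBall (0 : V) r,
        (χ b • H' (j b, y) - χ b • H' (j b, y₀) - χ b • (y - y₀)) ∂μ := by
      rw [integral_sub (f := fun b => χ b • H' (j b, y) - χ b • H' (j b, y₀))
        ((hint y).sub (hint y₀)) (hχi.smul_const _), integral_sub (hint y) (hint y₀),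
        integral_smul_const, hχ1, one_smul]
      simp only [F, S, sub_zero]
      abel
    rw [e]
    refine (norm_integral_le_of_norm_le (hχi.mul_const (1 / 2 * ‖y - y₀‖)) ?_).trans ?_
    · filter_upwards [ae_restrict_mem hK.measurableSet] with b hb
      rw [← smul_sub, ← smul_sub, norm_smul, Real.norm_of_nonneg (χ₀.nonneg_normed b)]
      refine mul_le_mul_of_nonneg_left ?_ (χ₀.nonneg_normed b)
      exact (convex_closedBall y₀ r).norm_image_sub_le_of_norm_hasFDerivWithin_le'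
        (f := fun z => H' (j b, z)) (f' := fun z => D (j b, z)) (φ := ContinuousLinearMap.id ℝ Y)
        (fun z _ => (hD _ z).hasFDerivWithinAt) (fun z hz => (hB b hb z hz).2.1)
        (mem_closedBall_self hr.le) hy
    · rw [integral_mul_const, hχ1, one_mul]
  have hFd : HasFDerivAt F (fderiv ℝ F y₀) y₀ := (hF.differentiable hn' y₀).hasFDerivAt
  have hle : ‖fderiv ℝ F y₀ - ContinuousLinearMap.id ℝ Y‖ ≤ 1 / 2 :=
    (hFd.sub (hasFDerivAt_id y₀)).le_of_lip' (by norm_num)
      (mem_of_superset (closedBall_mem_nhds y₀ hr) hlip)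
  have hinj : Function.Injective (fderiv ℝ F y₀ : Y →ₗ[ℝ] Y) := by
    rw [injective_iff_map_eq_zero]
    intro v hv
    have hv' : fderiv ℝ F y₀ v = 0 := hv
    have h1 := (fderiv ℝ F y₀ - ContinuousLinearMap.id ℝ Y).le_of_opNorm_le hle v
    simp only [_root_.sub_apply, hv', ContinuousLinearMap.id_apply, zero_sub,
      norm_neg] at h1
    exact norm_eq_zero.1 (by linarith [norm_nonneg v])
  let e : Y ≃L[ℝ] Y := (LinearMap.linearEquivOfInjective _ hinj rfl).toContinuousLinearEquiv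
  have hFe : HasFDerivAt F (e : Y →L[ℝ] Y) y₀ := hFd.congr_fderiv (by ext; rfl)
  have hFa : ContDiffAt ℝ n F y₀ := hF.contDiffAt
  have hinv : ContDiffAt ℝ n (hFa.localInverse hFe hn') (S (0, y₀)) := hFa.to_localInverse hFe hn'
  refine (hinv.comp (0, y₀) hS.contDiffAt).congr_of_eventuallyEq ?_
  filter_upwards [hFS, hφc.eventually (hFa.hasStrictFDerivAt' hFe hn').eventually_left_inverse]
    with p h1 h2
  rw [Function.comp_apply, ← h1]
  exact h2.symm

end Averaging

variable {E : Type} [NormedAddCommGroup E] [InnerProductSpace ℝ E] [FiniteDimensional ℝ E]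
  {M : Type} [TopologicalSpace M] [T2Space M] {𝒜 : Atlas E M}
  {V : Type} [NormedAddCommGroup V] [NormedSpace ℝ V] [FiniteDimensional ℝ V]

theorem smooth_state {Γ : E → E →L[ℝ] E →L[ℝ] E} {c u : ℝ → E} {t : ℝ} (h : CGeo Γ c u t) :
    HasDerivAt (fun s => (c s, deriv c s)) (fld Γ (c t, deriv c t)) t := by
  have e := h.deriv_eq
  have h1 := h.self_of_nhds.1.prodMk (h.self_of_nhds.2.congr_of_eventuallyEq e)
  rw [fld, e.eq_of_nhds]
  exact h1

/-- Uniqueness of coordinate geodesics on an interval. -/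
theorem smooth_geo_unique {U : Set E} {G : E → E →L[ℝ] E →L[ℝ] ℝ} {Γ : E → E →L[ℝ] E →L[ℝ] E}
    (h : Chr U G Γ) {c₁ c₂ : ℝ → E} {s : Set ℝ} (hs : IsPreconnected s) (hso : IsOpen s)
    (h₁ : ∀ t ∈ s, c₁ t ∈ U ∧ ∃ u, CGeo Γ c₁ u t) (h₂ : ∀ t ∈ s, ∃ u, CGeo Γ c₂ u t)
    {t₀ : ℝ} (ht₀ : t₀ ∈ s) (e₀ : c₁ t₀ = c₂ t₀) (e₁ : deriv c₁ t₀ = deriv c₂ t₀) :
    EqOn c₁ c₂ s := by
  have key := ode_unique_on (f := fld Γ) (U := U ×ˢ univ) (h.opn.prod isOpen_univ)
    (fun p hp => ((fld_smooth h hp.1).of_le (nat_le_top' 1)).contDiffWithinAt)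
    (y₁ := fun t => (c₁ t, deriv c₁ t)) (y₂ := fun t => (c₂ t, deriv c₂ t)) hs hso
    (fun t ht => ⟨⟨(h₁ t ht).1, mem_univ _⟩, smooth_state (h₁ t ht).2.choose_spec⟩)
    (fun t ht => smooth_state (h₂ t ht).choose_spec) ht₀ (Prod.ext e₀ e₁)
  exact fun t ht => congrArg Prod.fst (key ht)

/-- A continuous family of local isometries near the identity is given by a smooth formula in
the 1-jet at the centre, and the 1-jet is continuous. -/
theorem smooth_jet {U : Set E} {G : E → E →L[ℝ] E →L[ℝ] ℝ} {Γ : E → E →L[ℝ] E →L[ℝ] E}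
    (h : Chr U G Γ) (h0 : (0 : E) ∈ U) (hG0 : ∀ a, G 0 a a = ‖a‖ ^ 2)
    (hρ : ∀ᶠ y in 𝓝 (0 : E), ∀ a, ‖a‖ ^ 2 ≤ 2 ^ 2 * G y a a) {φ : V → E → E}
    (hc : ∀ᶠ p in 𝓝 ((0 : V), (0 : E)), ContinuousAt (fun p : V × E => φ p.1 p.2) p)
    (hz : ∀ᶠ y in 𝓝 (0 : E), φ 0 y = y)
    (hi : ∀ᶠ p in 𝓝 ((0 : V), (0 : E)), ContDiffAt ℝ ∞ (φ p.1) p.2 ∧ IsoAt G G (φ p.1) p.2) :
    ∃ (j : V → E × (E →L[ℝ] E)) (H : (E × (E →L[ℝ] E)) × E → E),
      (∀ᶠ b in 𝓝 (0 : V), ContinuousAt j b) ∧ ContDiffAt ℝ ∞ H (j 0, 0) ∧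
      ∀ᶠ p in 𝓝 ((0 : V), (0 : E)), φ p.1 p.2 = H (j p.1, p.2) := by
  have : CompleteSpace E := FiniteDimensional.complete ℝ E
  obtain ⟨δ, hδ, X, hX, hX'⟩ := exists_exp h h0
  have hb0 : (0 : E) ∈ ball (0 : E) δ := mem_ball_self hδ
  obtain ⟨T, hT, hT0, -⟩ := exists_log hδ hX (fun w hw => (hX' w hw).1) (hX' 0 hb0).2.1
  have hX00 : X (0, 0) = 0 := (hX' 0 hb0).1
  have hXa : ContDiffAt ℝ ∞ X (0, 0) :=
    hX.contDiffAt ((isOpen_ball.prod isOpen_ball).mem_nhds ⟨hb0, hb0⟩)
  have hBa : ContDiffAt ℝ ∞ (fun v => X (0, v)) 0 :=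
    ContDiffAt.comp (g := X) (f := fun v : E => ((0 : E), v)) 0 hXa
      (contDiffAt_const.prodMk contDiffAt_id)
  have hφ00 : φ 0 0 = 0 := hz.self_of_nhds
  -- radii
  obtain ⟨δ', hδ', hδT⟩ := Metric.mem_nhds_iff.1 (inter_mem (T.open_source.mem_nhds hT0)
    ((isOpen_ball.prod isOpen_ball).mem_nhds (show ((0 : E), (0 : E)) ∈ _ from ⟨hb0, hb0⟩)))
  rw [← ball_prod_same] at hδT
  have hφt : Tendsto (fun p : V × E => φ p.1 p.2) (𝓝 (0, 0)) (𝓝 0) := by
    have h1 := hc.self_of_nhds.tendsto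
    simpa only [hφ00] using h1
  have hU0 : ∀ᶠ y in 𝓝 (0 : E), y ∈ U := h.opn.mem_nhds h0
  have hδ0 : ∀ᶠ y in 𝓝 (0 : E), y ∈ ball (0 : E) δ' := ball_mem_nhds (0 : E) hδ'
  obtain ⟨ε, hε, hball⟩ := Metric.mem_nhds_iff.1 (hc.and (hi.and ((hφt.eventually
    (hρ.and (hU0.and hδ0))))))
  rw [← ball_prod_same] at hball
  have hB : ∀ b ∈ ball (0 : V) ε, ∀ y ∈ ball (0 : E) ε,
      ContinuousAt (fun p : V × E => φ p.1 p.2) (b, y) ∧
      (ContDiffAt ℝ ∞ (φ b) y ∧ IsoAt G G (φ b) y) ∧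
      (∀ a, ‖a‖ ^ 2 ≤ 2 ^ 2 * G (φ b y) a a) ∧ φ b y ∈ U ∧ φ b y ∈ ball (0 : E) δ' :=
    fun b hb y hy => hball (show (b, y) ∈ _ from ⟨hb, hy⟩)
  have hε0 : (0 : E) ∈ ball (0 : E) ε := mem_ball_self hε
  have hBε : ∀ᶠ v in 𝓝 (0 : E), X (0, v) ∈ ball (0 : E) ε :=
    hBa.continuousAt.eventually_mem (by simp only [hX00]; exact ball_mem_nhds (0 : E) hε)
  obtain ⟨η, hη, hηb⟩ := Metric.mem_nhds_iff.1
    (inter_mem hBε (ball_mem_nhds (0 : E) (half_pos hδ')))
  have hL : ∀ b ∈ ball (0 : V) ε, ∀ v ∈ ball (0 : E) η,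
      fderiv ℝ (φ b) 0 v ∈ ball (0 : E) δ' := by
    intro b hb v hv
    have h1 := (hB b hb 0 hε0).2.2.1 (fderiv ℝ (φ b) 0 v)
    rw [(hB b hb 0 hε0).2.1.2 v v, hG0, ← mul_pow] at h1
    have h2 := (pow_le_pow_iff_left₀ (by positivity) (by positivity) two_ne_zero).1 h1
    have h3 := mem_ball_zero_iff.1 (hηb hv).2
    rw [mem_ball_zero_iff]
    linarith
  have hsub : ∀ w ∈ ball (0 : E) δ', w ∈ ball (0 : E) δ := fun w hw =>
    (hδT (show (w, (0 : E)) ∈ _ from ⟨hw, mem_ball_self hδ'⟩)).2.1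
  have hηδ : ∀ v ∈ ball (0 : E) η, v ∈ ball (0 : E) δ := fun v hv =>
    hsub v (ball_subset_ball (by linarith) (hηb hv).2)
  have key : ∀ b ∈ ball (0 : V) ε, ∀ v ∈ ball (0 : E) η,
      φ b (X (0, v)) = X (φ b 0, fderiv ℝ (φ b) 0 v) := by
    intro b hb v hv
    have hw : φ b 0 ∈ ball (0 : E) δ := hsub _ (hB b hb 0 hε0).2.2.2.2
    have hcv : Convex ℝ ((fun s : ℝ => s • v) ⁻¹' ball (0 : E) η) :=
      (convex_ball _ _).linear_preimage (LinearMap.toSpanSingleton ℝ E v)
    have := smooth_geo_unique h (c₁ := fun s : ℝ => φ b (X (0, s • v)))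
      (c₂ := fun s : ℝ => X (φ b 0, s • fderiv ℝ (φ b) 0 v)) hcv.isPreconnected
      (isOpen_ball.preimage (by fun_prop)) (fun t ht => ?_) (fun t ht => ?_) (t₀ := 0)
      (by simpa using hη) ?_ ?_
    · simpa using this (show (1 : ℝ) ∈ _ by simpa using hv)
    · have hy : X (0, t • v) ∈ ball (0 : E) ε := (hηb ht).1
      obtain ⟨u, hu⟩ := ((hX' 0 hb0).2.2 v (hηδ v hv)).2 t (hηδ _ ht)
      refine ⟨(hB b hb _ hy).2.2.2.1, _, hu.push h h (f := φ b)
        ((hX' 0 hb0).2.2 _ (hηδ _ ht)).1 (hB b hb _ hy).2.2.2.1 ?_⟩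
      filter_upwards [isOpen_ball.mem_nhds hy] with z hz
      exact ⟨cda_two (hB b hb z hz).2.1.1, (hB b hb z hz).2.1.2⟩
    · refine ((hX' _ hw).2.2 _ (hsub _ (hL b hb v hv))).2 t ?_
      rw [← map_smul]
      exact hsub _ (hL b hb _ ht)
    · simp only [zero_smul, hX00, (hX' _ hw).1]
    · have a1 : HasFDerivAt (φ b) (fderiv ℝ (φ b) 0) (X (0, (0 : ℝ) • v)) := by
        rw [zero_smul, hX00]
        exact cda_hasF (hB b hb 0 hε0).2.1.1
      have a2 : HasFDerivAt (fun v => X (0, v)) (ContinuousLinearMap.id ℝ E) ((0 : ℝ) • v) := by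
        rw [zero_smul]
        exact (hX' 0 hb0).2.1
      have a3 : HasFDerivAt (fun v => X (φ b 0, v)) (ContinuousLinearMap.id ℝ E)
          ((0 : ℝ) • fderiv ℝ (φ b) 0 v) := by
        rw [zero_smul]
        exact (hX' _ hw).2.1
      have a4 := a1.comp_hasDerivAt (0 : ℝ) (a2.comp_hasDerivAt (0 : ℝ) (hasDerivAt_line v 0))
      have a5 := a3.comp_hasDerivAt (0 : ℝ) (hasDerivAt_line (fderiv ℝ (φ b) 0 v) 0)
      exact a4.deriv.trans a5.deriv.symm
  have hcy : ∀ y ∈ ball (0 : E) ε, ∀ b ∈ ball (0 : V) ε, ContinuousAt (fun b => φ b y) b :=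
    fun y hy b hb => ContinuousAt.comp (g := fun p : V × E => φ p.1 p.2) (f := fun b => (b, y))
      (hB b hb y hy).1 (by fun_prop)
  have hc1 : ∀ v ∈ ball (0 : E) η, ContinuousOn (fun b => fderiv ℝ (φ b) 0 v) (ball 0 ε) := by
    intro v hv b hb
    have hsrc : ∀ b ∈ ball (0 : V) ε, (φ b 0, fderiv ℝ (φ b) 0 v) ∈ T.source := fun b hb =>
      (hδT (show (φ b 0, fderiv ℝ (φ b) 0 v) ∈ _ from
        ⟨(hB b hb 0 hε0).2.2.2.2, hL b hb v hv⟩)).1
    have hTe : ∀ b ∈ ball (0 : V) ε,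
        T (φ b 0, fderiv ℝ (φ b) 0 v) = (φ b 0, φ b (X (0, v))) := fun b hb => by
      rw [hT, key b hb v hv]
    have h1 : ContinuousAt (fun b => (T.symm (φ b 0, φ b (X (0, v)))).2) b := by
      refine ContinuousAt.snd (ContinuousAt.comp (g := T.symm)
        (f := fun b => (φ b 0, φ b (X (0, v)))) (T.continuousAt_symm ?_)
        ((hcy 0 hε0 b hb).prodMk (hcy _ (hηb hv).1 b hb)))
      rw [← hTe b hb]
      exact T.map_source (hsrc b hb)
    refine h1.continuousWithinAt.congr (fun b' hb' => ?_) ?_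
    · rw [← hTe b' hb', T.left_inv (hsrc b' hb')]
    · rw [← hTe b hb, T.left_inv (hsrc b hb)]
  have hc2 : ContinuousOn (fun b => fderiv ℝ (φ b) 0) (ball (0 : V) ε) := by
    refine continuousOn_clm_apply.2 fun v => ?_
    obtain ⟨c, hc, hcv⟩ : ∃ c : ℝ, c ≠ 0 ∧ c • v ∈ ball (0 : E) η := by
      have : ∀ᶠ c in 𝓝 (0 : ℝ), c • v ∈ ball (0 : E) η :=
        ContinuousAt.eventually_mem (f := fun c : ℝ => c • v) (by fun_prop)
          (isOpen_ball.mem_nhds (by simpa using hη))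
      exact ((eventually_mem_nhdsWithin (a := (0 : ℝ)) (s := {0}ᶜ)).and
        (this.filter_mono nhdsWithin_le_nhds)).exists
    refine ((hc1 _ hcv).const_smul c⁻¹).congr fun b _ => ?_
    simp only [Pi.smul_apply, map_smul, inv_smul_smul₀ hc]
  have hBd : HasFDerivAt (fun v => X (0, v))
      ((ContinuousLinearEquiv.refl ℝ E : E ≃L[ℝ] E) : E →L[ℝ] E) 0 := (hX' 0 hb0).2.1
  set Lg : E → E := hBa.localInverse hBd top_ne_zero' with hLg
  have hLg0 : Lg 0 = 0 := by
    have := hBa.localInverse_apply_image hBd top_ne_zero'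
    rwa [hX00] at this
  have hLgs : ContDiffAt ℝ ∞ Lg 0 := by
    have := hBa.to_localInverse hBd top_ne_zero'
    rwa [hX00] at this
  have hLgr : ∀ᶠ y in 𝓝 (0 : E), X (0, Lg y) = y := by
    have := (hBa.hasStrictFDerivAt' hBd top_ne_zero').eventually_right_inverse
    rwa [hX00] at this
  refine ⟨fun b => (φ b 0, fderiv ℝ (φ b) 0), fun q => X (q.1.1, q.1.2 (Lg q.2)), ?_, ?_, ?_⟩
  · filter_upwards [ball_mem_nhds (0 : V) hε] with b hb
    exact (hcy 0 hε0 b hb).prodMk (hc2.continuousAt (isOpen_ball.mem_nhds hb))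
  · refine ContDiffAt.comp (g := X)
      (f := fun q : (E × (E →L[ℝ] E)) × E => (q.1.1, q.1.2 (Lg q.2))) _ ?_ ?_
    · simp only [hφ00, hLg0, map_zero]
      exact hXa
    · exact contDiffAt_fst.fst.prodMk (contDiffAt_fst.snd.clm_apply
        (ContDiffAt.comp (g := Lg) _ hLgs contDiffAt_snd))
  · filter_upwards [(continuousAt_fst (p := ((0 : V), (0 : E)))).eventually
      (ball_mem_nhds (0 : V) hε), (continuousAt_snd (p := ((0 : V), (0 : E)))).eventually
      (hLgr.and (hLgs.continuousAt.eventually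
        (by rw [hLg0]; exact ball_mem_nhds (0 : E) hη : ∀ᶠ v in 𝓝 (Lg 0), v ∈ ball (0 : E) η)))]
      with p h1 h2
    rw [← key p.1 h1 _ h2.2, h2.1]

theorem smooth_norm (β : PreAct 𝒜 V) {c : Chart E M} (hc : c ∈ 𝒜.S) {m : M} (hn : c.NormAt m) :
    ContDiffAt ℝ ∞ (fun p : V × E => c.ψ (β.Φ p.1 (c.ψ.symm p.2))) (0, 0) := by
  have h0 : (0 : E) ∈ c.ψ.target := hn.2.1 ▸ c.ψ.map_source hn.1
  have hcont : ∀ p : V × E, p.2 ∈ c.ψ.target →
      ContinuousAt (fun p : V × E => β.Φ p.1 (c.ψ.symm p.2)) p := fun p hp =>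
    ContinuousAt.comp (g := fun p : V × M => β.Φ p.1 p.2)
      (f := fun p : V × E => (p.1, c.ψ.symm p.2)) β.cont.continuousAt
      (continuousAt_fst.prodMk (ContinuousAt.comp (c.ψ.continuousAt_symm hp) continuousAt_snd))
  have hev : ∀ᶠ p in 𝓝 ((0 : V), (0 : E)), p.2 ∈ c.ψ.target ∧
      β.Φ p.1 (c.ψ.symm p.2) ∈ c.ψ.source :=
    ((continuousAt_snd (p := ((0 : V), (0 : E)))).eventually (c.ψ.open_target.mem_nhds h0)).and
      ((hcont _ h0).eventually (c.ψ.open_source.mem_nhds (by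
        simp only [β.zero]; exact c.ψ.map_target h0)))
  have hz : ∀ᶠ y in 𝓝 (0 : E), c.ψ (β.Φ 0 (c.ψ.symm y)) = y := by
    filter_upwards [c.ψ.open_target.mem_nhds h0] with y hy
    rw [β.zero, c.ψ.right_inv hy]
  obtain ⟨ρ, hρ, hball⟩ := hn.exists_ball (lam := 2) (by norm_num)
  obtain ⟨j, H, hj, hH, hφ⟩ := smooth_jet (φ := fun a y => c.ψ (β.Φ a (c.ψ.symm y))) c.chr h0
    (fun a => by rw [hn.2.2, real_inner_self_eq_norm_sq])
    (mem_of_superset (closedBall_mem_nhds (0 : E) hρ) fun y hy a => ((hball y hy).2 a).2)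
    (hev.mono fun p hp => ContinuousAt.comp (c.ψ.continuousAt hp.2) (hcont p hp.1)) hz
    (hev.mono fun p hp => by
      have h1 := (β.iso p.1 (c.ψ.symm p.2)).2 c hc c hc (c.ψ.map_target hp.1) hp.2
      rw [LocIso, c.ψ.right_inv hp.1] at h1
      exact h1)
  refine contDiffAt_infty.2 fun n => ?_
  refine (smooth_average (φ := fun a y => c.ψ (β.Φ a (c.ψ.symm y))) (n := n + 1) (by simp) hj
    (hH.of_le (nat_le_top' _)) hφ hz (hev.mono fun p hp b => ?_)).of_le (by simp)
  rw [β.add, c.ψ.left_inv hp.2]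

/-- A continuous action by isometries is smooth (Bochner-Montgomery for isometries). -/
theorem PreAct.smooth (β : PreAct 𝒜 V) {c : Chart E M} (hc : c ∈ 𝒜.S) {m : M}
    (hm : m ∈ c.ψ.source) :
    ContDiffAt ℝ ∞ (fun p : V × E => c.ψ (β.Φ p.1 (c.ψ.symm p.2))) (0, c.ψ m) := by
  obtain ⟨c', hc', hn⟩ := 𝒜.norm m
  have h1 := smooth_norm β hc' hn
  have h2 : ContDiffAt ℝ ∞ (c.ex c' id) (c.ψ m) := (𝒜.compat c hc c' hc' m hm hn.1).1
  have h3 : ContDiffAt ℝ ∞ (c'.ex c id) (c'.ψ m) := (𝒜.compat c' hc' c hc m hn.1 hm).1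
  have e2 : c.ex c' id (c.ψ m) = 0 := (c.ex_apply c' id hm).trans hn.2.1
  have e1 : c'.ψ.symm 0 = m := by rw [← hn.2.1, c'.ψ.left_inv hn.1]
  have h4 : ContDiffAt ℝ ∞ (fun p : V × E => c'.ψ (β.Φ p.1 (c'.ψ.symm (c.ex c' id p.2))))
      (0, c.ψ m) := by
    refine ContDiffAt.comp (g := fun p : V × E => c'.ψ (β.Φ p.1 (c'.ψ.symm p.2)))
      (f := fun p : V × E => (p.1, c.ex c' id p.2)) _ ?_
      (contDiffAt_fst.prodMk (ContDiffAt.comp (g := c.ex c' id) _ h2 contDiffAt_snd))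
    simp only [e2]
    exact h1
  have h5 : ContDiffAt ℝ ∞ (fun p : V × E =>
      c'.ex c id (c'.ψ (β.Φ p.1 (c'.ψ.symm (c.ex c' id p.2))))) (0, c.ψ m) := by
    refine ContDiffAt.comp (g := c'.ex c id) _ ?_ h4
    simp only [e2, e1, β.zero]
    exact h3
  refine h5.congr_of_eventuallyEq ?_
  have hs : Tendsto (fun p : V × E => c.ψ.symm p.2) (𝓝 (0, c.ψ m)) (𝓝 m) :=
    (c.ψ.tendsto_symm hm).comp (continuousAt_snd (p := ((0 : V), c.ψ m)))
  have hΦ : Tendsto (fun p : V × E => β.Φ p.1 (c.ψ.symm p.2)) (𝓝 (0, c.ψ m)) (𝓝 m) := by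
    have := (β.cont.tendsto (0, m)).comp
      ((continuousAt_fst (p := ((0 : V), c.ψ m))).tendsto.prodMk_nhds hs)
    simp only [β.zero] at this
    exact this
  filter_upwards [hs.eventually (c'.ψ.open_source.mem_nhds hn.1),
    hΦ.eventually (c'.ψ.open_source.mem_nhds hn.1)] with p k1 k2
  simp only [Chart.ex, Function.comp, id, c'.ψ.left_inv k1, c'.ψ.left_inv k2]

end Pool.Agent.MP_3a00c0_gt

end

-- part MP_3a00c0_gt.Build
section

/-! The Killing fields of an isometric action. -/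

open Set Metric Filter Topology
open scoped ContDiff RealInnerProductSpace

set_option maxSynthPendingDepth 3
set_option linter.unusedSectionVars false

namespace Pool.Agent.MP_3a00c0_gt

open Pool.Agent.MP_3fed84_gt

variable {E : Type} [NormedAddCommGroup E] [InnerProductSpace ℝ E] [FiniteDimensional ℝ E]
  {M : Type} [TopologicalSpace M] [T2Space M] {𝒜 : Atlas E M}
  {V : Type} [NormedAddCommGroup V] [NormedSpace ℝ V] [FiniteDimensional ℝ V]

/-- The action read in the chart c. -/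
noncomputable def build_th (β : PreAct 𝒜 V) (c : Chart E M) (p : V × E) : E :=
  c.ψ (β.Φ p.1 (c.ψ.symm p.2))

/-- The Killing fields in the chart c. -/
noncomputable def build_ev (β : PreAct 𝒜 V) (c : Chart E M) (y : E) : V →L[ℝ] E :=
  (fderiv ℝ (build_th β c) (0, y)).comp (ContinuousLinearMap.inl ℝ V E)

/-- The covariant derivatives of the Killing fields in the chart c. -/
noncomputable def build_A (β : PreAct 𝒜 V) (c : Chart E M) (y : E) : V →L[ℝ] E →L[ℝ] E :=
  (fderiv ℝ (build_ev β c) y).flip + (c.Γ y).flip.comp (build_ev β c y)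

section aux

variable (β : PreAct 𝒜 V) {c : Chart E M}

theorem build_ev_apply (c : Chart E M) (y : E) (U : V) :
    build_ev β c y U = fderiv ℝ (build_th β c) (0, y) (U, 0) := by
  simp [build_ev]

theorem build_A_apply (c : Chart E M) (y : E) (U : V) (ξ : E) :
    build_A β c y U ξ = fderiv ℝ (build_ev β c) y ξ U + c.Γ y ξ (build_ev β c y U) := by
  simp [build_A]

theorem build_th_sm (hc : c ∈ 𝒜.S) {y : E} (hy : y ∈ c.ψ.target) :
    ContDiffAt ℝ ∞ (build_th β c) (0, y) := by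
  have := β.smooth hc (c.ψ.map_target hy)
  rwa [c.ψ.right_inv hy] at this

theorem build_th_zero {y : E} (hy : y ∈ c.ψ.target) : build_th β c (0, y) = y := by
  simp only [build_th, β.zero, c.ψ.right_inv hy]

theorem build_dth_sm (hc : c ∈ 𝒜.S) {y : E} (hy : y ∈ c.ψ.target) :
    ContDiffAt ℝ ∞ (fderiv ℝ (build_th β c)) (0, y) :=
  (build_th_sm β hc hy).fderiv_right (m := ∞) (by simp)

theorem build_ev_sm (hc : c ∈ 𝒜.S) {y : E} (hy : y ∈ c.ψ.target) :
    ContDiffAt ℝ ∞ (build_ev β c) y := by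
  have h1 : ContDiffAt ℝ ∞ (fun z : E => ((0 : V), z)) y := contDiffAt_const.prodMk contDiffAt_id
  exact (ContDiffAt.comp y (g := fderiv ℝ (build_th β c)) (build_dth_sm β hc hy) h1).clm_comp
    contDiffAt_const

theorem build_A_sm (hc : c ∈ 𝒜.S) {y : E} (hy : y ∈ c.ψ.target) :
    ContDiffAt ℝ ∞ (build_A β c) y := by
  have h1 := build_ev_sm β hc hy
  have h2 : ContDiffAt ℝ ∞ (fderiv ℝ (build_ev β c)) y := h1.fderiv_right (m := ∞) (by simp)
  have h3 : ContDiffAt ℝ ∞ c.Γ y := c.chr.smΓ.contDiffAt (c.ψ.open_target.mem_nhds hy)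
  have h4 : ContDiffAt ℝ ∞ (fun z => (fderiv ℝ (build_ev β c) z).flip) y :=
    (ContinuousLinearMap.flipₗᵢ ℝ E V E).contDiff.contDiffAt.comp y h2
  have h5 : ContDiffAt ℝ ∞ (fun z => (c.Γ z).flip) y :=
    (ContinuousLinearMap.flipₗᵢ ℝ E E E).contDiff.contDiffAt.comp y h3
  exact h4.add (h5.clm_comp h1)

theorem build_line (U : V) (y : E) :
    HasDerivAt (fun r : ℝ => (r • U, y)) ((U, 0) : V × E) 0 := by
  have h1 : HasDerivAt (fun r : ℝ => r • U) U 0 := by
    simpa using (hasDerivAt_id (0 : ℝ)).smul_const U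
  exact h1.prodMk (hasDerivAt_const 0 y)

theorem build_th_line (hc : c ∈ 𝒜.S) {y : E} (hy : y ∈ c.ψ.target) (U : V) :
    HasDerivAt (fun r : ℝ => build_th β c (r • U, y)) (build_ev β c y U) 0 := by
  have h1 := ((build_th_sm β hc hy).differentiableAt (by simp)).hasFDerivAt
  rw [build_ev_apply]
  exact h1.comp_hasDerivAt_of_eq 0 (build_line U y) (by simp)

theorem build_dth_line (hc : c ∈ 𝒜.S) {y : E} (hy : y ∈ c.ψ.target) (U : V) (w : V × E) :
    HasDerivAt (fun r : ℝ => fderiv ℝ (build_th β c) (r • U, y) w)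
      (fderiv ℝ (fderiv ℝ (build_th β c)) (0, y) (U, 0) w) 0 := by
  have h1 := ((build_dth_sm β hc hy).differentiableAt (by simp)).hasFDerivAt
  have h2 := h1.comp_hasDerivAt_of_eq 0 (build_line U y) (by simp)
  simpa using h2.clm_apply (hasDerivAt_const 0 w)

theorem build_orbit0 (hc : c ∈ 𝒜.S) {m : M} (hm : m ∈ c.ψ.source) (U : V) :
    HasDerivAt (fun r : ℝ => c.ψ (β.Φ (r • U) m)) (build_ev β c (c.ψ m) U) 0 := by
  have := build_th_line β hc (c.ψ.map_source hm) U
  simpa only [build_th, c.ψ.left_inv hm] using this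

theorem build_orbit (hc : c ∈ 𝒜.S) (m : M) (U : V) (s : ℝ) (hm : β.Φ (s • U) m ∈ c.ψ.source) :
    HasDerivAt (fun r : ℝ => c.ψ (β.Φ (r • U) m)) (build_ev β c (c.ψ (β.Φ (s • U) m)) U) s := by
  have h1 := build_orbit0 β hc hm U
  rw [← sub_self s] at h1
  have h2 := h1.comp_sub_const s s
  refine h2.congr_of_eventuallyEq (Eventually.of_forall fun r => ?_)
  simp only [← β.add, ← add_smul, sub_add_cancel]

theorem build_near (m : M) (U : V) {S : Set M} (hS : IsOpen S) (hm : m ∈ S) :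
    ∀ᶠ r : ℝ in 𝓝 0, β.Φ (r • U) m ∈ S := by
  have h1 : Continuous fun r : ℝ => β.Φ (r • U) m :=
    β.cont.comp ((continuous_id.smul continuous_const).prodMk continuous_const)
  apply h1.continuousAt.eventually (hS.mem_nhds _)
  simpa [β.zero] using hm

theorem build_tr_ev (hc : c ∈ 𝒜.S) {c' : Chart E M} (hc' : c' ∈ 𝒜.S) (a : V) {m : M}
    (hm : m ∈ c.ψ.source) (hm' : β.Φ a m ∈ c'.ψ.source) (U : V) :
    build_ev β c' (c'.ψ (β.Φ a m)) U
      = fderiv ℝ (c.ex c' (β.Φ a)) (c.ψ m) (build_ev β c (c.ψ m) U) := by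
  have h1 := build_orbit0 β hc' hm' U
  have hf := (((β.iso a m).2 c hc c' hc' hm hm').1.differentiableAt (by simp)).hasFDerivAt
  have h2 := hf.comp_hasDerivAt_of_eq 0 (build_orbit0 β hc hm U) (by simp [β.zero])
  refine h1.unique (h2.congr_of_eventuallyEq ?_)
  filter_upwards [build_near β m U c.ψ.open_source hm] with r hr
  simp only [Function.comp]
  rw [c.ex_apply c' _ hr, ← β.add, ← β.add, add_comm]

theorem build_d_ev_apply (hc : c ∈ 𝒜.S) {y : E} (hy : y ∈ c.ψ.target) (U : V) (ξ : E) :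
    fderiv ℝ (fun z => build_ev β c z U) y ξ = fderiv ℝ (build_ev β c) y ξ U := by
  have h1 := ((build_ev_sm β hc hy).differentiableAt (by simp)).hasFDerivAt
  rw [(h1.clm_apply (hasFDerivAt_const U y)).fderiv]
  simp

theorem build_A_cov (hc : c ∈ 𝒜.S) {y : E} (hy : y ∈ c.ψ.target) (U : V) :
    build_A β c y U = cov c.Γ (fun z => build_ev β c z U) y := by
  ext ξ
  rw [build_A_apply, cov_apply, build_d_ev_apply β hc hy]

theorem build_evU_sm (hc : c ∈ 𝒜.S) {y : E} (hy : y ∈ c.ψ.target) (U : V) :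
    ContDiffAt ℝ ∞ (fun z => build_ev β c z U) y :=
  (build_ev_sm β hc hy).clm_apply contDiffAt_const

theorem build_tr_A (hc : c ∈ 𝒜.S) {c' : Chart E M} (hc' : c' ∈ 𝒜.S) (a : V) {m : M}
    (hm : m ∈ c.ψ.source) (hm' : β.Φ a m ∈ c'.ψ.source) (U : V) (ξ : E) :
    build_A β c' (c'.ψ (β.Φ a m)) U (fderiv ℝ (c.ex c' (β.Φ a)) (c.ψ m) ξ)
      = fderiv ℝ (c.ex c' (β.Φ a)) (c.ψ m) (build_A β c (c.ψ m) U ξ) := by
  have hy := c.ψ.map_source hm
  have hy' := c'.ψ.map_source hm'
  have hLI : LI 𝒜 𝒜 (β.Φ a) m := Eventually.of_forall (β.iso a)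
  have hco := hLI.coord hc hc' hm hm'
  have e := c.ex_apply c' (β.Φ a) hm
  rw [build_A_cov β hc hy, build_A_cov β hc' hy', ← e]
  refine cov_iso c.chr c'.chr hy (e ▸ hy') (hco.mono fun z hz => hz.2.2)
    ((build_evU_sm β hc hy U).differentiableAt (by simp))
    ((build_evU_sm β hc' (e ▸ hy') U).differentiableAt (by simp)) ?_ ξ
  filter_upwards [(c.ψ.tendsto_symm hm).eventually (hLI.continuousAt.eventually
    (c'.ψ.open_source.mem_nhds hm')), c.ψ.open_target.mem_nhds hy] with z h1 h2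
  have := build_tr_ev β hc hc' a (c.ψ.map_target h2) h1 U
  rw [c.ψ.right_inv h2] at this
  exact this

theorem build_partial {a : V} {y : E} (h : DifferentiableAt ℝ (build_th β c) (a, y)) (ξ : E) :
    fderiv ℝ (c.ex c (β.Φ a)) y ξ = fderiv ℝ (build_th β c) (a, y) (0, ξ) := by
  have h1 : HasFDerivAt (fun z : E => (a, z)) (ContinuousLinearMap.inr ℝ V E) y :=
    hasFDerivAt_prodMk_right a y
  have h2 : HasFDerivAt (c.ex c (β.Φ a)) _ y := h.hasFDerivAt.comp y h1
  rw [h2.fderiv]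
  simp

theorem build_diff_near (hc : c ∈ 𝒜.S) {y : E} (hy : y ∈ c.ψ.target) (U : V) :
    ∀ᶠ r : ℝ in 𝓝 0, DifferentiableAt ℝ (build_th β c) (r • U, y) := by
  have h1 : ContDiffAt ℝ 1 (build_th β c) (0, y) := (build_th_sm β hc hy).of_le (by simp)
  have h2 := h1.eventually (by simp)
  have h3 : Tendsto (fun r : ℝ => (r • U, y)) (𝓝 0) (𝓝 ((0 : V), y)) := by
    simpa using (build_line U y).continuousAt.tendsto
  exact (h3.eventually h2).mono fun r hr => hr.differentiableAt (by simp)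

theorem build_dth_zero (hc : c ∈ 𝒜.S) {y : E} (hy : y ∈ c.ψ.target) (ξ : E) :
    fderiv ℝ (build_th β c) (0, y) (0, ξ) = ξ := by
  rw [← build_partial β ((build_th_sm β hc hy).differentiableAt (by simp))]
  have : c.ex c (β.Φ 0) =ᶠ[𝓝 y] id := by
    filter_upwards [c.ψ.open_target.mem_nhds hy] with z hz
    exact build_th_zero β hz
  rw [this.fderiv_eq]
  simp

theorem build_mixed (hc : c ∈ 𝒜.S) {y : E} (hy : y ∈ c.ψ.target) (U : V) (ξ : E) :
    fderiv ℝ (fderiv ℝ (build_th β c)) (0, y) (U, 0) (0, ξ) = fderiv ℝ (build_ev β c) y ξ U := by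
  have hsym : ∀ a b, fderiv ℝ (fderiv ℝ (build_th β c)) (0, y) a b
      = fderiv ℝ (fderiv ℝ (build_th β c)) (0, y) b a :=
    ((build_th_sm β hc hy).of_le (m := 2) (WithTop.coe_le_coe.2 le_top)).isSymmSndFDerivAt (by simp)
  rw [hsym, ← build_d_ev_apply β hc hy]
  have h0 := ((build_dth_sm β hc hy).differentiableAt (by simp)).hasFDerivAt
  have h1 : HasFDerivAt (fun z : E => ((0 : V), z)) (ContinuousLinearMap.inr ℝ V E) y :=
    hasFDerivAt_prodMk_right 0 y
  have h2 := (h0.comp y h1).clm_apply (hasFDerivAt_const ((U, 0) : V × E) y)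
  have e : (fun z => build_ev β c z U)
      = fun z => (fderiv ℝ (build_th β c) ∘ fun z : E => ((0 : V), z)) z (U, 0) :=
    funext fun z => build_ev_apply β c z U
  rw [e, h2.fderiv]
  simp

theorem build_skew (hc : c ∈ 𝒜.S) {y : E} (hy : y ∈ c.ψ.target) (U : V) (a b : E) :
    c.G y (build_A β c y U a) b = -c.G y a (build_A β c y U b) := by
  have hm := c.ψ.map_target hy
  have hG := (c.chr.diffG hy).hasFDerivAt.comp_hasDerivAt_of_eq 0 (build_th_line β hc hy U)
    (by simp [build_th_zero β hy])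
  have h1 := (hG.clm_apply (build_dth_line β hc hy U (0, a))).clm_apply
    (build_dth_line β hc hy U (0, b))
  have h2 : (fun _ : ℝ => c.G y a b) =ᶠ[𝓝 0] fun r : ℝ =>
      (c.G ∘ fun r : ℝ => build_th β c (r • U, y)) r (fderiv ℝ (build_th β c) (r • U, y) (0, a))
        (fderiv ℝ (build_th β c) (r • U, y) (0, b)) := by
    filter_upwards [build_near β _ U c.ψ.open_source hm, build_diff_near β hc hy U] with r h3 h4
    have h5 := ((β.iso (r • U) _).2 c hc c hc hm h3).2 a b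
    rw [c.ψ.right_inv hy, build_partial β h4, build_partial β h4] at h5
    exact h5.symm
  have h3 := (h1.congr_of_eventuallyEq h2).unique (hasDerivAt_const 0 _)
  simp only [Function.comp, zero_smul, build_th_zero β hy, build_dth_zero β hc hy,
    build_mixed β hc hy, add_apply] at h3
  rw [c.chr.compat y hy, c.chr.symΓ y hy _ a, c.chr.symΓ y hy _ b] at h3
  simp only [build_A_apply, map_add, add_apply]
  linarith

theorem build_comm (hc : c ∈ 𝒜.S) {y : E} (hy : y ∈ c.ψ.target) (U W : V) :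
    build_A β c y U (build_ev β c y W) = build_A β c y W (build_ev β c y U) := by
  have hm := c.ψ.map_target hy
  have h0 := ((build_evU_sm β hc hy U).differentiableAt (by simp)).hasFDerivAt.comp_hasDerivAt_of_eq
    0 (build_th_line β hc hy W) (by simp [build_th_zero β hy])
  have h1 := build_dth_line β hc hy W (0, build_ev β c y U)
  have h2 : (fun r : ℝ => fderiv ℝ (build_th β c) (r • W, y) (0, build_ev β c y U)) =ᶠ[𝓝 0]
      ((fun z => build_ev β c z U) ∘ fun r : ℝ => build_th β c (r • W, y)) := by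
    filter_upwards [build_near β _ W c.ψ.open_source hm, build_diff_near β hc hy W] with r h3 h4
    have h5 := build_tr_ev β hc hc (r • W) hm h3 U
    rw [c.ψ.right_inv hy, build_partial β h4] at h5
    exact h5.symm
  have h3 := (h0.congr_of_eventuallyEq h2).unique h1
  rw [build_mixed β hc hy, build_d_ev_apply β hc hy] at h3
  rw [build_A_apply, build_A_apply, h3, c.chr.symΓ y hy]

theorem build_d_A (hn : Nonneg 𝒜) (hc : c ∈ 𝒜.S) {y : E} (hy : y ∈ c.ψ.target) (ξ : E) (U : V)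
    (η : E) : fderiv ℝ (build_A β c) y ξ U η
      = Rm c.Γ y ξ (build_ev β c y U) η - c.Γ y ξ (build_A β c y U η)
        + build_A β c y U (c.Γ y ξ η) := by
  have h1 := ((build_A_sm β hc hy).differentiableAt (by simp)).hasFDerivAt
  have h2 : fderiv ℝ (fun z => build_A β c z U) y ξ = fderiv ℝ (build_A β c) y ξ U := by
    rw [(h1.clm_apply (hasFDerivAt_const U y)).fderiv]
    simp
  have h3 : (fun z => build_A β c z U) =ᶠ[𝓝 y] cov c.Γ (fun z => build_ev β c z U) := by
    filter_upwards [c.ψ.open_target.mem_nhds hy] with z hz using build_A_cov β hc hz U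
  rw [← h2, h3.fderiv_eq, build_A_cov β hc hy]
  refine killing_deriv c.chr (fun z hz => (build_evU_sm β hc hz U).contDiffWithinAt)
    (fun z hz a b => ?_) hy (hn.alg hc hy) ξ η
  rw [← build_A_cov β hc hz]
  exact build_skew β hc hz U a b

end aux

/-
TASK Build.  For a chart c let Θ (a, y) = c.ψ (Φ a (c.ψ.symm y)); it is smooth at (0, y) for all y
in the target (PreAct.smooth), Θ (0, y) = y there.
ev c y = (fderiv Θ (0, y)).comp (inl), A c y = (fderiv (ev c) y).flip + (Γ y).flip.comp (ev c y),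
so A c y U = cov Γ (fun z => ev c z U) y on the target.
orbit: r ↦ Φ (r U) m = Φ ((r - s) U) (Φ (s U) m).
tr_ev: differentiate at r = 0 the identity Φ (r U) (Φ a m) = Φ a (Φ (r U) m) read in charts.
tr_A: cov_iso applied to tr_ev at the points near m (LI.coord).
skew: differentiate at a = 0 (direction U) the identity IsoAt G G (Θ (a, .)) y, which holds for a
near 0; mixed second derivatives of Θ commute (cda_symm); use compat.
comm: by tr_ev with c' = c and a = r W: ev (Θ (r W, y)) U = fderiv (Θ (r W, .)) y (ev y U) for small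
r; differentiate at r = 0: fderiv ev y (ev W) U = fderiv ev y (ev U) W; then symΓ.
d_A: killing_deriv.
-/
theorem PreAct.exists_act (β : PreAct 𝒜 V) (hn : Nonneg 𝒜) :
    ∃ α : Act 𝒜 V, α.Φ = β.Φ := by
  refine ⟨{ β with
    ev := build_ev β
    A := build_A β
    sm_ev := fun c hc y hy => (build_ev_sm β hc hy).contDiffWithinAt
    sm_A := fun c hc y hy => (build_A_sm β hc hy).contDiffWithinAt
    d_ev := fun c _ y _ ξ U => by rw [build_A_apply, add_sub_cancel_right]
    d_A := fun c hc y hy ξ U η => build_d_A β hn hc hy ξ U η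
    skew := fun c hc y hy U a b => build_skew β hc hy U a b
    comm := fun c hc y hy U W => build_comm β hc hy U W
    tr_ev := fun c hc c' hc' a m hm hm' U => build_tr_ev β hc hc' a hm hm' U
    tr_A := fun c hc c' hc' a m hm hm' U ξ => build_tr_A β hc hc' a hm hm' U ξ
    orbit := fun c hc m U s hm => build_orbit β hc m U s hm }, rfl⟩

end Pool.Agent.MP_3a00c0_gt

end
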