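import Pool.Agent.MP_3a00c0_gt.Nice
import Pool.Agent.MP_3a00c0_gt.Act

-- part MP_3a00c0_gt.Rho
section

/-! Distance to a closed set and minimal geodesics on a compact manifold. -/

open Set Metric Filter Topology
open scoped ContDiff RealInnerProductSpace

set_option maxSynthPendingDepth 3
set_option linter.unusedSectionVars false

namespace Pool.Agent.MP_3a00c0_gt

open Pool.Agent.MP_3fed84_gt

variable {E : Type} [NormedAddCommGroup E] [InnerProductSpace ℝ E] [FiniteDimensional ℝ E]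
  {M : Type} [TopologicalSpace M] [T2Space M] [PreconnectedSpace M] [CompactSpace M]
  {𝒜 : Atlas E M}

/-- The distance from x to the set F. -/
noncomputable def rho (𝒜 : Atlas E M) (F : Set M) (x : M) : ℝ := sInf (𝒜.d x '' F)

theorem rho_nonneg (F : Set M) (x : M) : 0 ≤ rho 𝒜 F x := by
  refine Real.sInf_nonneg ?_
  rintro _ ⟨y, -, rfl⟩
  exact d_nonneg x y

theorem rho_bdd (F : Set M) (x : M) : BddBelow (𝒜.d x '' F) :=
  ⟨0, by rintro _ ⟨y, -, rfl⟩; exact d_nonneg x y⟩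

theorem rho_empty (x : M) : rho 𝒜 ∅ x = 0 := by
  simp [rho]

theorem rho_ge {F : Set M} (hne : F.Nonempty) {x : M} {b : ℝ} (h : ∀ y ∈ F, b ≤ 𝒜.d x y) :
    b ≤ rho 𝒜 F x := by
  refine le_csInf (hne.image _) ?_
  rintro _ ⟨y, hy, rfl⟩
  exact h y hy

theorem rho_le {F : Set M} (x : M) {y : M} (hy : y ∈ F) : rho 𝒜 F x ≤ 𝒜.d x y := by
  exact csInf_le (rho_bdd F x) ⟨y, hy, rfl⟩

theorem rho_le_add (F : Set M) (x x' : M) : rho 𝒜 F x ≤ rho 𝒜 F x' + 𝒜.d x x' := by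
  rcases F.eq_empty_or_nonempty with rfl | hne
  · rw [rho_empty, rho_empty, zero_add]
    exact d_nonneg x x'
  · have := rho_ge (𝒜 := 𝒜) hne (x := x') (b := rho 𝒜 F x - 𝒜.d x x') fun y hy => by
      linarith [rho_le (𝒜 := 𝒜) x hy, d_triangle (𝒜 := 𝒜) x x' y]
    linarith

theorem rho_abs_le (F : Set M) (x m : M) : |rho 𝒜 F x - rho 𝒜 F m| ≤ 𝒜.d m x := by
  have h1 := rho_le_add (𝒜 := 𝒜) F x m
  have h2 := rho_le_add (𝒜 := 𝒜) F m x
  rw [d_comm x m] at h1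
  rw [abs_le]
  constructor <;> linarith

theorem continuous_rho (F : Set M) : Continuous (rho 𝒜 F) := by
  refine continuous_iff_continuousAt.2 fun m => Metric.tendsto_nhds.2 fun ε hε => ?_
  have h := (continuous_d (𝒜 := 𝒜) m).tendsto m
  rw [d_self] at h
  filter_upwards [h.eventually (gt_mem_nhds hε)] with x hx
  rw [Real.dist_eq]
  exact (rho_abs_le F x m).trans_lt hx

theorem exists_foot {F : Set M} (hF : IsClosed F) (hne : F.Nonempty) (x : M) :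
    ∃ y ∈ F, 𝒜.d x y = rho 𝒜 F x := by
  obtain ⟨y, hy, h⟩ := hF.isCompact.exists_isMinOn hne (continuous_d (𝒜 := 𝒜) x).continuousOn
  exact ⟨y, hy, le_antisymm (rho_ge hne fun z hz => h hz) (rho_le x hy)⟩

/- exists_d_ball separates points. -/
theorem rho_pos {F : Set M} (hF : IsClosed F) (hne : F.Nonempty) {x : M} (hx : x ∉ F) :
    0 < rho 𝒜 F x := by
  obtain ⟨r, hr, h⟩ := exists_d_ball (𝒜 := 𝒜) (hF.isOpen_compl.mem_nhds hx)
  refine hr.trans_le (rho_ge hne fun y hy => ?_)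
  by_contra hn
  exact h y (not_le.1 hn).le hy

theorem not_mem_of_d_lt {F : Set M} {x m : M} (h : 𝒜.d x m < rho 𝒜 F x) : m ∉ F :=
  fun hm => (not_le.2 h) (rho_le x hm)

/-- σ is a unit speed geodesic of length r realising the distance from σ 0 to F. -/
structure MinGeo (𝒜 : Atlas E M) (F : Set M) (σ : ℝ → M) (r : ℝ) : Prop where
  pos : 0 < r
  geo : ∀ t ∈ Icc 0 r, GeoAt 𝒜 σ t ∧ UnitAt 𝒜 σ t
  eq : ∀ t ∈ Icc 0 r, rho 𝒜 F (σ t) = r - t

theorem rho_eq_of_d {a b : M} (h : 𝒜.d a b ≤ 0) : a = b := by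
  by_contra hne
  have h1 := rho_pos (𝒜 := 𝒜) (F := {b}) isClosed_singleton (singleton_nonempty b) hne
  have h2 := rho_le (𝒜 := 𝒜) (F := {b}) a (mem_singleton b)
  linarith

theorem rho_self {F : Set M} {x : M} (hx : x ∈ F) : rho 𝒜 F x = 0 :=
  le_antisymm ((rho_le x hx).trans (d_self x).le) (rho_nonneg F x)

/-- A function that is locally 1-Lipschitz for the distance is admissible. -/
theorem rho_mem_Lip {f : M → ℝ} (h : ∀ m, ∀ᶠ x in 𝓝 m, |f x - f m| ≤ 𝒜.d m x) : f ∈ 𝒜.Lip := by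
  intro m
  obtain ⟨c, hc, hn⟩ := 𝒜.norm m
  refine ⟨c, hc, hn.1, fun lam hl => ?_⟩
  obtain ⟨ρ, hρ, hb⟩ := hn.exists_ball hl
  have hsm : c.ψ.symm 0 = m := by rw [← hn.2.1, c.ψ.left_inv hn.1]
  filter_upwards [(c.ψ.tendsto_symm hn.1).eventually (h m),
    closedBall_mem_nhds (c.ψ m) hρ] with y h1 h2
  rw [hn.2.1] at h2
  refine h1.trans ?_
  have key := d_le_of_segment hc (y := 0) (z := y) (lam := lam * ‖y - 0‖)
    (mul_nonneg (by linarith) (norm_nonneg _)) fun w hw => by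
      have := hb w ((convex_closedBall (0 : E) ρ).segment_subset (mem_closedBall_self hρ.le) h2 hw)
      exact ⟨this.1, (this.2 _).1⟩
  rw [hsm] at key
  rw [hn.2.1, hn.2.2, real_inner_self_eq_norm_sq, Real.sqrt_sq (norm_nonneg _)]
  exact key

/-- The distance is intrinsic. -/
theorem rho_between {z y : M} {e : ℝ} (he : 0 ≤ e) (h : e ≤ 𝒜.d z y) :
    ∃ z', 𝒜.d z z' = e ∧ 𝒜.d z' y = 𝒜.d z y - e := by
  rcases h.eq_or_lt with h | h
  · exact ⟨y, h.symm, by rw [d_self, h, sub_self]⟩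
  set B : Set M := {w | 𝒜.d z w ≤ e} with hB
  have hBc : IsClosed B := isClosed_le (continuous_d z) continuous_const
  have hz : z ∈ B := by
    change 𝒜.d z z ≤ e
    rwa [d_self]
  have hd : ∀ x m : M, |𝒜.d z x - 𝒜.d z m| ≤ 𝒜.d m x := fun x m => by
    have h1 := d_triangle (𝒜 := 𝒜) z m x
    have h2 := d_triangle (𝒜 := 𝒜) z x m
    rw [d_comm x m] at h2
    rw [abs_le]
    constructor <;> linarith
  have hin : ∀ x m, 𝒜.d z x ≤ e → 𝒜.d z m ≤ e →
      |min (𝒜.d z x) e + rho 𝒜 B x - (min (𝒜.d z m) e + rho 𝒜 B m)| ≤ 𝒜.d m x := by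
    intro x m hx hm
    rw [min_eq_left hx, min_eq_left hm, rho_self (F := B) hx, rho_self (F := B) hm, add_zero,
      add_zero]
    exact hd x m
  have hout : ∀ x m, e ≤ 𝒜.d z x → e ≤ 𝒜.d z m →
      |min (𝒜.d z x) e + rho 𝒜 B x - (min (𝒜.d z m) e + rho 𝒜 B m)| ≤ 𝒜.d m x := by
    intro x m hx hm
    rw [min_eq_right hx, min_eq_right hm, add_sub_add_left_eq_sub]
    exact rho_abs_le B x m
  have hf : (fun w => min (𝒜.d z w) e + rho 𝒜 B w) ∈ 𝒜.Lip := by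
    refine rho_mem_Lip fun m => ?_
    have hc := (continuous_d (𝒜 := 𝒜) z).tendsto m
    rcases lt_trichotomy (𝒜.d z m) e with hm | hm | hm
    · filter_upwards [hc.eventually (gt_mem_nhds hm)] with x hx
      exact hin x m hx.le hm.le
    · refine Eventually.of_forall fun x => ?_
      rcases le_total (𝒜.d z x) e with hx | hx
      · exact hin x m hx hm.le
      · exact hout x m hx hm.ge
    · filter_upwards [hc.eventually (lt_mem_nhds hm)] with x hx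
      exact hout x m hx.le hm.le
  have h1 := le_d hf z y
  rw [min_eq_right h.le, d_self, min_eq_left he, rho_self hz] at h1
  obtain ⟨z', hz', h2⟩ := exists_foot (𝒜 := 𝒜) hBc ⟨z, hz⟩ y
  have h3 := d_triangle (𝒜 := 𝒜) z z' y
  have h4 : 𝒜.d z z' ≤ e := hz'
  rw [d_comm y z'] at h2
  exact ⟨z', by linarith, by linarith⟩

/-- A uniform radius below which minimal geodesics exist. -/
theorem rho_lebesgue (𝒜 : Atlas E M) : ∃ e₀ > 0, ∀ a b, 0 < 𝒜.d a b → 𝒜.d a b < e₀ →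
    ∃ γ : ℝ → M, γ 0 = a ∧ γ (𝒜.d a b) = b ∧
      ∀ t ∈ Icc 0 (𝒜.d a b), GeoAt 𝒜 γ t ∧ UnitAt 𝒜 γ t := by
  have key := (isCompact_univ (X := M)).induction_on
    (p := fun s => ∃ e₀ > 0, ∀ a ∈ s, ∀ b, 0 < 𝒜.d a b → 𝒜.d a b < e₀ →
      ∃ γ : ℝ → M, γ 0 = a ∧ γ (𝒜.d a b) = b ∧
        ∀ t ∈ Icc 0 (𝒜.d a b), GeoAt 𝒜 γ t ∧ UnitAt 𝒜 γ t)
    ⟨1, one_pos, fun a ha => ha.elim⟩
    (fun s t hst ⟨e, he, h⟩ => ⟨e, he, fun a ha => h a (hst ha)⟩)
    (fun s t ⟨e, he, h⟩ ⟨e', he', h'⟩ => ⟨min e e', lt_min he he', fun a ha b h0 h1 =>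
      ha.elim (fun ha => h a ha b h0 (h1.trans_le (min_le_left _ _)))
        fun ha => h' a ha b h0 (h1.trans_le (min_le_right _ _))⟩)
    (fun m _ => by
      obtain ⟨O, hO, h⟩ := exists_minimising 𝒜 m
      obtain ⟨r, hr, hb⟩ := exists_d_ball (𝒜 := 𝒜) hO
      have hc := (continuous_d (𝒜 := 𝒜) m).tendsto m
      rw [d_self] at hc
      refine ⟨{a | 𝒜.d m a < r / 2},
        mem_nhdsWithin_of_mem_nhds (hc.eventually (gt_mem_nhds (half_pos hr))),
        r / 2, half_pos hr, fun a ha b h0 h1 => ?_⟩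
      have ha' : 𝒜.d m a < r / 2 := ha
      have h2 := d_triangle (𝒜 := 𝒜) m a b
      refine (h a (hb a (by linarith)) b (hb b (by linarith)) ?_).2
      rintro rfl
      rw [d_self] at h0
      exact lt_irrefl _ h0)
  obtain ⟨e₀, he₀, h⟩ := key
  exact ⟨e₀, he₀, fun a => h a (mem_univ a)⟩

theorem rho_unit_congr {γ γ' : ℝ → M} {t : ℝ} (h : UnitAt 𝒜 γ t) (he : γ =ᶠ[𝓝 t] γ') :
    UnitAt 𝒜 γ' t := by
  intro c hc ht
  rw [← he.eq_of_nhds] at ht ⊢
  obtain ⟨v, h1, h2⟩ := h c hc ht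
  exact ⟨v, h1.congr_of_eventuallyEq (he.fun_comp c.ψ).symm, h2⟩

theorem rho_shift {γ : ℝ → M} {t b : ℝ} (h : GeoAt 𝒜 γ (t + b) ∧ UnitAt 𝒜 γ (t + b)) :
    GeoAt 𝒜 (fun s => γ (s + b)) t ∧ UnitAt 𝒜 (fun s => γ (s + b)) t := by
  constructor
  · have := GeoAt.affine (γ := γ) (a := 1) (b := b) (t := t) (by rw [one_mul]; exact h.1)
    simpa only [one_mul] using this
  · intro c hc ht
    obtain ⟨v, h1, h2⟩ := h.2 c hc ht
    exact ⟨v, h1.comp_add_const t b, h2⟩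

theorem rho_norm_one {γ : ℝ → M} {t : ℝ} (h : UnitAt 𝒜 γ t) {c : Chart E M} (hc : c ∈ 𝒜.S)
    (hn : c.NormAt (γ t)) : ∃ v, HasDerivAt (c.ψ ∘ γ) v t ∧ ‖v‖ = 1 := by
  obtain ⟨v, h1, h2⟩ := h c hc hn.1
  refine ⟨v, h1, ?_⟩
  rw [hn.2.1, hn.2.2, real_inner_self_eq_norm_sq] at h2
  exact (pow_eq_one_iff_of_nonneg (norm_nonneg v) two_ne_zero).1 h2

/-- Two minimal geodesics that together minimise fit together to one geodesic. -/
theorem rho_concat {σ γ : ℝ → M} {T e : ℝ} (hT : 0 < T) (he : 0 < e)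
    (hσ : ∀ t ∈ Icc 0 T, GeoAt 𝒜 σ t ∧ UnitAt 𝒜 σ t)
    (hγ : ∀ t ∈ Icc 0 e, GeoAt 𝒜 γ t ∧ UnitAt 𝒜 γ t) (h0 : γ 0 = σ T)
    (hd : T + e ≤ 𝒜.d (σ 0) (γ e)) :
    ∃ τ : ℝ → M, τ 0 = σ 0 ∧ τ (T + e) = γ e ∧
      ∀ t ∈ Icc 0 (T + e), GeoAt 𝒜 τ t ∧ UnitAt 𝒜 τ t := by
  classical
  have k1 := rho_shift (γ := σ) (t := 0) (b := T)
    (by rw [zero_add]; exact hσ T (right_mem_Icc.2 hT.le))
  have k2 := hγ 0 (left_mem_Icc.2 he.le)
  obtain ⟨c, hc, hn⟩ := 𝒜.norm (σ T)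
  have e1 : σ (0 + T) = σ T := by rw [zero_add]
  obtain ⟨v₁, hv₁, n₁⟩ := rho_norm_one k1.2 hc (by rw [e1]; exact hn)
  obtain ⟨v₂, hv₂, n₂⟩ := rho_norm_one k2.2 hc (h0 ▸ hn)
  have hv : v₁ = v₂ := by
    by_contra hne
    obtain ⟨κ, hκ, hev⟩ := shortcut hc hn e1 h0 k1.1.continuousAt k2.1.continuousAt hv₁ hv₂ n₁ n₂
      hne univ_mem
    obtain ⟨s, ⟨⟨β, -, w0, w1, -, w2⟩, hs⟩⟩ :=
      (hev.and (Ioc_mem_nhdsGT (lt_min hT he))).exists
    have hsT : s ≤ T := hs.2.trans (min_le_left _ _)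
    have hse : s ≤ e := hs.2.trans (min_le_right _ _)
    have a1 := w2 0 (left_mem_Icc.2 zero_le_one) 1 (right_mem_Icc.2 zero_le_one) zero_le_one
    rw [w0, w1] at a1
    have a2 := d_le_of_unit (𝒜 := 𝒜) (γ := σ) (a := 0) (b := -s + T) (by linarith)
      fun t ht => hσ t ⟨ht.1, by linarith [ht.2, hs.1]⟩
    have a3 := d_le_of_unit (𝒜 := 𝒜) (γ := γ) (a := s) (b := e) hse
      fun t ht => hγ t ⟨hs.1.le.trans ht.1, ht.2⟩
    have a4 := d_triangle (𝒜 := 𝒜) (σ 0) (σ (-s + T)) (γ e)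
    have a5 := d_triangle (𝒜 := 𝒜) (σ (-s + T)) (γ s) (γ e)
    have a6 := mul_pos hκ hs.1
    nlinarith
  have heq : (fun s => σ (s + T)) =ᶠ[𝓝 0] γ :=
    k1.1.unique_nhds k2.1 hc (by rw [e1]; exact hn.1) (e1.trans h0.symm) hv₁ (hv ▸ hv₂)
  have heq' : σ =ᶠ[𝓝 T] fun t => γ (t + -T) := by
    have ht : Tendsto (fun t : ℝ => t + -T) (𝓝 T) (𝓝 0) := by
      have : Continuous fun t : ℝ => t + -T := by fun_prop
      simpa using this.tendsto T
    filter_upwards [ht.eventually heq] with t h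
    simpa using h
  refine ⟨fun t => if t ≤ T then σ t else γ (t + -T), if_pos hT.le, ?_, fun t ht => ?_⟩
  · simp only [if_neg (not_le.2 (lt_add_of_pos_right T he))]
    congr 1
    ring
  rcases le_or_gt t T with h | h
  · have hev : σ =ᶠ[𝓝 t] fun t => if t ≤ T then σ t else γ (t + -T) := by
      rcases h.eq_or_lt with rfl | h
      · filter_upwards [heq'] with s hs
        split_ifs
        · rfl
        · exact hs
      · filter_upwards [gt_mem_nhds h] with s hs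
        rw [if_pos hs.le]
    exact ⟨(hσ t ⟨ht.1, h⟩).1.congr hev, rho_unit_congr (hσ t ⟨ht.1, h⟩).2 hev⟩
  · have hev : (fun t => γ (t + -T)) =ᶠ[𝓝 t] fun t => if t ≤ T then σ t else γ (t + -T) := by
      filter_upwards [lt_mem_nhds h] with s hs
      rw [if_neg (not_le.2 hs)]
    have k := rho_shift (γ := γ) (t := t) (b := -T) (hγ _ ⟨by linarith, by linarith [ht.2]⟩)
    exact ⟨k.1.congr hev, rho_unit_congr k.2 hev⟩

/-- Any two distinct points are joined by a minimal geodesic. -/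
theorem rho_exists_geo {x y : M} (hxy : 0 < 𝒜.d x y) :
    ∃ σ : ℝ → M, σ 0 = x ∧ σ (𝒜.d x y) = y ∧
      ∀ t ∈ Icc 0 (𝒜.d x y), GeoAt 𝒜 σ t ∧ UnitAt 𝒜 σ t := by
  obtain ⟨e₀, he₀, hL⟩ := rho_lebesgue 𝒜
  obtain ⟨N, hN⟩ := exists_nat_gt (𝒜.d x y / e₀)
  rw [div_lt_iff₀ he₀] at hN
  have hN1 : (0 : ℝ) < N + 1 := by positivity
  set e := 𝒜.d x y / (N + 1) with he
  have he0 : 0 < e := div_pos hxy hN1
  have he1 : e < e₀ := by
    rw [he, div_lt_iff₀ hN1]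
    nlinarith
  have step : ∀ z, e ≤ 𝒜.d z y → ∃ γ : ℝ → M, γ 0 = z ∧ 𝒜.d (γ e) y = 𝒜.d z y - e ∧
      ∀ t ∈ Icc 0 e, GeoAt 𝒜 γ t ∧ UnitAt 𝒜 γ t := by
    intro z hz
    obtain ⟨z', h1, h2⟩ := rho_between he0.le hz
    obtain ⟨γ, g0, g1, g2⟩ := hL z z' (h1 ▸ he0) (h1 ▸ he1)
    rw [h1] at g1 g2
    exact ⟨γ, g0, g1 ▸ h2, g2⟩
  have key : ∀ k : ℕ, (k + 1) * e ≤ 𝒜.d x y → ∃ σ : ℝ → M, σ 0 = x ∧
      𝒜.d (σ ((k + 1) * e)) y = 𝒜.d x y - (k + 1) * e ∧
      ∀ t ∈ Icc 0 ((k + 1) * e), GeoAt 𝒜 σ t ∧ UnitAt 𝒜 σ t := by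
    intro k
    induction k with
    | zero =>
      intro h
      simp only [Nat.cast_zero, zero_add, one_mul] at h ⊢
      exact step x h
    | succ k ih =>
      intro h
      have e1 : ((k + 1 : ℕ) + 1 : ℝ) * e = (k + 1) * e + e := by push_cast; ring
      rw [e1] at h ⊢
      obtain ⟨σ, s0, s1, s2⟩ := ih (by linarith)
      obtain ⟨γ, g0, g1, g2⟩ := step (σ ((k + 1) * e)) (by linarith)
      have h3 := d_triangle (𝒜 := 𝒜) x (γ e) y
      obtain ⟨τ, t0, t1, t2⟩ := rho_concat (by positivity) he0 s2 g2 g0 (by rw [s0]; linarith)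
      exact ⟨τ, t0.trans s0, by rw [t1]; linarith, t2⟩
  have e2 : (N + 1 : ℝ) * e = 𝒜.d x y := by
    rw [he]
    field_simp
  obtain ⟨σ, s0, s1, s2⟩ := key N e2.le
  rw [e2] at s1 s2
  exact ⟨σ, s0, rho_eq_of_d (𝒜 := 𝒜) (by linarith), s2⟩

/- Hopf-Rinow on a compact manifold.
(i) d is intrinsic: if 0 < e < d z y then some z' with d z z' = e has d z' y = d z y - e.  Indeed
S = {d z · = e} is compact, nonempty by connectedness, and the function equal to d z · on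
{d z · ≤ e} and to e + rho S outside lies in 𝒜.Lip (it is locally 1-Lipschitz for d, and d is
bounded by lam times the chart norm near each point, d_le_of_segment with exists_ball).
(ii) a Lebesgue number e₀ for exists_minimising (compactness, exists_d_ball).
(iii) let y be a foot point, r = d x y = N e with e < e₀; build x₀ = x, x_{i+1} as in (i), join
by the local minimisers and show by induction that the concatenation is a geodesic: at a
junction the two velocities agree by shortcut, then GeoAt.unique_nhds.  rho (σ t) = r - t from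
rho_le, rho_le_add and d_le_of_unit. -/
theorem exists_minGeo {F : Set M} (hF : IsClosed F) (hne : F.Nonempty) {x : M} (hx : x ∉ F) :
    ∃ σ : ℝ → M, σ 0 = x ∧ MinGeo 𝒜 F σ (rho 𝒜 F x) := by
  obtain ⟨y, hy, h⟩ := exists_foot (𝒜 := 𝒜) hF hne x
  have hp := rho_pos (𝒜 := 𝒜) hF hne hx
  obtain ⟨σ, s0, s1, s2⟩ := rho_exists_geo (h ▸ hp : 0 < 𝒜.d x y)
  rw [h] at s1 s2
  refine ⟨σ, s0, hp, s2, fun t ht => ?_⟩
  have a1 := d_le_of_unit (𝒜 := 𝒜) (γ := σ) ht.1 fun u hu => s2 u ⟨hu.1, hu.2.trans ht.2⟩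
  have a2 := d_le_of_unit (𝒜 := 𝒜) (γ := σ) ht.2 fun u hu => s2 u ⟨ht.1.trans hu.1, hu.2⟩
  have a3 := rho_le (𝒜 := 𝒜) (σ t) hy
  have a4 := rho_le_add (𝒜 := 𝒜) F x (σ t)
  rw [s0] at a1
  rw [s1] at a2
  linarith

theorem MinGeo.nonempty {F : Set M} {σ : ℝ → M} {r : ℝ} (h : MinGeo 𝒜 F σ r) : F.Nonempty := by
  rcases F.eq_empty_or_nonempty with rfl | hne
  · have h1 := h.eq 0 (left_mem_Icc.2 h.pos.le)
    rw [rho_empty] at h1
    linarith [h.pos]
  · exact hne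

theorem MinGeo.end_mem {F : Set M} (hF : IsClosed F) {σ : ℝ → M} {r : ℝ} (h : MinGeo 𝒜 F σ r) :
    σ r ∈ F := by
  by_contra hn
  have h1 := rho_pos (𝒜 := 𝒜) hF h.nonempty hn
  rw [h.eq r (right_mem_Icc.2 h.pos.le), sub_self] at h1
  exact lt_irrefl _ h1

theorem MinGeo.not_mem {F : Set M} {σ : ℝ → M} {r : ℝ} (h : MinGeo 𝒜 F σ r) {t : ℝ}
    (ht : t ∈ Ico 0 r) : σ t ∉ F := by
  intro hm
  have h1 := h.eq t (Ico_subset_Icc_self ht)
  rw [rho_self hm] at h1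
  linarith [ht.2]

theorem MinGeo.shift {F : Set M} {σ : ℝ → M} {r : ℝ} (h : MinGeo 𝒜 F σ r) {t₀ : ℝ}
    (ht : t₀ ∈ Ico 0 r) : MinGeo 𝒜 F (fun s => σ (s + t₀)) (r - t₀) := by
  have hm : ∀ t ∈ Icc 0 (r - t₀), t + t₀ ∈ Icc 0 r := fun t h1 =>
    ⟨by linarith [h1.1, ht.1], by linarith [h1.2]⟩
  refine ⟨sub_pos.2 ht.2, fun t h1 => rho_shift (h.geo _ (hm t h1)), fun t h1 => ?_⟩
  rw [h.eq _ (hm t h1)]
  ring

/- Push a minimal geodesic from a to {b} by φ (GeoAt.push; unit speed is preserved) and use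
d_le_of_unit. -/
theorem d_map_le {φ : M → M} (hφ : ∀ m, LI0 𝒜 𝒜 φ m) (a b : M) :
    𝒜.d (φ a) (φ b) ≤ 𝒜.d a b := by
  rcases (d_nonneg (𝒜 := 𝒜) a b).eq_or_lt with h | h
  · rw [rho_eq_of_d h.ge, d_self, d_self]
  obtain ⟨σ, s0, s1, s2⟩ := rho_exists_geo h
  have key := d_le_of_unit (𝒜 := 𝒜) (γ := φ ∘ σ) h.le fun t ht => by
    obtain ⟨g, u⟩ := s2 t ht
    refine ⟨g.push (Eventually.of_forall hφ), fun c' hc' ht' => ?_⟩
    obtain ⟨c, hc, hm, -⟩ := 𝒜.norm (σ t)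
    obtain ⟨v, h1, h2⟩ := u c hc hm
    obtain ⟨k1, k2⟩ := (hφ (σ t)).2 c hc c' hc' hm ht'
    have k3 := (k1.differentiableAt (by simp)).hasFDerivAt.comp_hasDerivAt t h1
    refine ⟨_, k3.congr_of_eventuallyEq ?_, ?_⟩
    · filter_upwards [g.continuousAt.eventually (c.ψ.open_source.mem_nhds hm)] with s hs
      exact (c.ex_apply c' φ hs).symm
    · have := k2 v v
      rw [c.ex_apply c' φ hm] at this
      exact this.trans h2
  simp only [Function.comp, s0, s1, sub_zero] at key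
  exact key

variable {V : Type} [NormedAddCommGroup V] [NormedSpace ℝ V] [FiniteDimensional ℝ V]

theorem Act.rho_Φ (α : Act 𝒜 V) (U a : V) (x : M) :
    rho 𝒜 (α.Om U)ᶜ (α.Φ a x) = rho 𝒜 (α.Om U)ᶜ x := by
  have hinv : ∀ b m, α.Φ (-b) (α.Φ b m) = m := fun b m => by
    rw [← α.add, neg_add_cancel, α.zero]
  have key : ∀ b z, rho 𝒜 (α.Om U)ᶜ (α.Φ b z) ≤ rho 𝒜 (α.Om U)ᶜ z := fun b z => by
    rcases ((α.Om U)ᶜ).eq_empty_or_nonempty with h | hne
    · rw [h, rho_empty, rho_empty]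
    refine rho_ge hne fun y hy => ?_
    have h1 : α.Φ b y ∈ (α.Om U)ᶜ := fun h => hy (hinv b y ▸ α.Φ_mem_Om (-b) h)
    exact (rho_le _ h1).trans (d_map_le (α.iso b) z y)
  refine le_antisymm (key a x) ?_
  have := key (-a) (α.Φ a x)
  rwa [hinv] at this

/- Inner ball.  With N = 1/κ + 1 and s = N ‖z‖:  d (σ 0) (σ (r - s)) ≤ r - s (d_le_of_unit),
c.ψ (σ (r - s)) = -s n + o(s), ‖z + s n‖ ≤ (N - κ/2) ‖z‖, and d_le_of_segment with
NormAt.exists_ball for lam close to 1 gives d (σ (r - s)) (c.ψ.symm z) < s. -/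
theorem inner_ball {σ : ℝ → M} {r : ℝ} (hr : 0 < r)
    (hσ : ∀ t ∈ Icc 0 r, GeoAt 𝒜 σ t ∧ UnitAt 𝒜 σ t) {c : Chart E M} (hc : c ∈ 𝒜.S)
    (hn : c.NormAt (σ r)) {n : E} (hv : HasDerivAt (c.ψ ∘ σ) n r) :
    ‖n‖ = 1 ∧ ∀ κ > 0, ∃ η > 0, ∀ z : E, z ≠ 0 → ‖z‖ < η → ⟪z, n⟫ ≤ -κ * ‖z‖ →
      z ∈ c.ψ.target ∧ 𝒜.d (σ 0) (c.ψ.symm z) < r := by
  obtain ⟨g, u⟩ := hσ r (right_mem_Icc.2 hr.le)
  obtain ⟨v, h1, h2⟩ := rho_norm_one u hc hn
  have hn1 : ‖n‖ = 1 := h1.unique hv ▸ h2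
  refine ⟨hn1, fun κ hκ => ?_⟩
  set N : ℝ := 1 / κ + 1 with hN
  have hN0 : 0 < N := by positivity
  have hNκ : N * κ = 1 + κ := by
    rw [hN]
    field_simp
  have hlam : 1 < 1 + κ / (4 * N) := lt_add_of_pos_right _ (by positivity)
  obtain ⟨ρ, hρ, hb⟩ := hn.exists_ball hlam
  have ev : ∀ᶠ t in 𝓝 r, σ t ∈ c.ψ.source ∧ c.ψ (σ t) ∈ closedBall (0 : E) ρ ∧
      ‖c.ψ (σ t) - (t - r) • n‖ ≤ κ / (4 * N) * ‖t - r‖ := by
    refine (g.continuousAt.eventually (c.ψ.open_source.mem_nhds hn.1)).and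
      ((hv.continuousAt.eventually_mem ?_).and ?_)
    · rw [Function.comp_apply, hn.2.1]
      exact closedBall_mem_nhds _ hρ
    · simpa [hn.2.1] using hv.isLittleO.def (show 0 < κ / (4 * N) by positivity)
  obtain ⟨δ, hδ, hev⟩ := Metric.eventually_nhds_iff.1 ev
  refine ⟨min ρ (min δ r / N), lt_min hρ (div_pos (lt_min hδ hr) hN0), fun z hz h3 h4 => ?_⟩
  have hz0 : 0 < ‖z‖ := norm_pos_iff.2 hz
  have hzρ : z ∈ closedBall (0 : E) ρ :=
    mem_closedBall_zero_iff.2 (h3.le.trans (min_le_left _ _))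
  refine ⟨(hb z hzρ).1, ?_⟩
  set s := N * ‖z‖ with hs
  have hs0 : 0 < s := mul_pos hN0 hz0
  have hs1 : s < min δ r := by
    have := h3.trans_le (min_le_right _ _)
    rw [lt_div_iff₀ hN0] at this
    rw [hs, mul_comm]
    exact this
  have hsδ : s < δ := hs1.trans_le (min_le_left _ _)
  have hsr : s < r := hs1.trans_le (min_le_right _ _)
  obtain ⟨a1, a2, a3⟩ := hev (y := r - s) (by
    rw [Real.dist_eq, sub_sub_cancel_left, abs_neg, abs_of_pos hs0]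
    exact hsδ)
  rw [sub_sub_cancel_left, norm_neg, Real.norm_eq_abs, abs_of_pos hs0, neg_smul,
    sub_neg_eq_add] at a3
  have hκ1 : κ ≤ 1 := by
    have := abs_real_inner_le_norm z n
    rw [hn1, mul_one, abs_le] at this
    nlinarith [this.1]
  have hN1 : 1 ≤ N := le_add_of_nonneg_left (by positivity)
  have b1 : ‖z + s • n‖ ≤ (N - κ / 2) * ‖z‖ := by
    refine (abs_le_of_sq_le_sq' ?_ (mul_nonneg (by linarith) hz0.le)).2
    rw [norm_add_sq_real, inner_smul_right, norm_smul, hn1, Real.norm_eq_abs, abs_of_pos hs0,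
      mul_one, hs]
    have c1 : N * ‖z‖ * ⟪z, n⟫ ≤ N * ‖z‖ * (-κ * ‖z‖) := mul_le_mul_of_nonneg_left h4 hs0.le
    have c2 : N * ‖z‖ * (-κ * ‖z‖) = -((1 + κ) * ‖z‖ ^ 2) := by rw [← hNκ]; ring
    have c3 : ((N - κ / 2) * ‖z‖) ^ 2 =
        (N * ‖z‖) ^ 2 - (1 + κ) * ‖z‖ ^ 2 + κ ^ 2 / 4 * ‖z‖ ^ 2 := by rw [← hNκ]; ring
    have c4 : 0 ≤ κ * ‖z‖ ^ 2 := by positivity
    have c5 : 0 ≤ κ ^ 2 / 4 * ‖z‖ ^ 2 := by positivity
    rw [c3]
    linarith
  have b2 : ‖z - c.ψ (σ (r - s))‖ ≤ (N - κ / 4) * ‖z‖ := by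
    have c1 : z - c.ψ (σ (r - s)) = (z + s • n) - (c.ψ (σ (r - s)) + s • n) := by abel
    have c2 : κ / (4 * N) * s = κ / 4 * ‖z‖ := by
      rw [hs]
      field_simp
    rw [c1]
    linarith [norm_sub_le (z + s • n) (c.ψ (σ (r - s)) + s • n)]
  have b3 := d_le_of_segment hc (y := c.ψ (σ (r - s))) (z := z)
    (lam := (1 + κ / (4 * N)) * ‖z - c.ψ (σ (r - s))‖) (by positivity) fun w hw => by
      have := hb w ((convex_closedBall (0 : E) ρ).segment_subset a2 hzρ hw)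
      exact ⟨this.1, (this.2 _).1⟩
  rw [c.ψ.left_inv a1] at b3
  have b4 : (1 + κ / (4 * N)) * ‖z - c.ψ (σ (r - s))‖ < s := by
    refine (mul_le_mul_of_nonneg_left b2 (by positivity)).trans_lt ?_
    have c1 : (1 + κ / (4 * N)) * ((N - κ / 4) * ‖z‖) = s - κ ^ 2 / (16 * N) * ‖z‖ := by
      rw [hs]
      field_simp
      ring
    have c2 : 0 < κ ^ 2 / (16 * N) * ‖z‖ := by positivity
    linarith
  have b5 := d_le_of_unit (𝒜 := 𝒜) (γ := σ) (a := 0) (b := r - s) (by linarith)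
    fun t ht => hσ t ⟨ht.1, by linarith [ht.2]⟩
  have b6 := d_triangle (𝒜 := 𝒜) (σ 0) (σ (r - s)) (c.ψ.symm z)
  linarith

end Pool.Agent.MP_3a00c0_gt

end

-- part MP_3a00c0_gt.Conv
section

/-! The region where a Killing field is parallel is locally convex. -/

open Set Metric Filter Topology
open scoped ContDiff RealInnerProductSpace

set_option maxSynthPendingDepth 3
set_option linter.unusedSectionVars false

namespace Pool.Agent.MP_3a00c0_gt

open Pool.Agent.MP_3fed84_gt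

variable {E : Type} [NormedAddCommGroup E] [InnerProductSpace ℝ E] [FiniteDimensional ℝ E]
  {M : Type} [TopologicalSpace M] [T2Space M] {𝒜 : Atlas E M}
  {V : Type} [NormedAddCommGroup V] [NormedSpace ℝ V] [FiniteDimensional ℝ V]
  {c : Chart E M} {δ ε : ℝ} {X : E × E → E}

theorem conv_smul_mem {δ : ℝ} {w : E} (hw : w ∈ ball (0 : E) δ) {l : ℝ} (hl : l ∈ Icc (0 : ℝ) 1) :
    l • w ∈ ball (0 : E) δ := by
  rw [mem_ball_zero_iff] at hw ⊢
  rw [norm_smul, Real.norm_of_nonneg hl.1]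
  exact (mul_le_of_le_one_left (norm_nonneg w) hl.2).trans_lt hw

theorem conv_sub (h : Nice c δ ε X) {y : E} (hy : y ∈ ball (0 : E) ε) : y ∈ ball (0 : E) δ :=
  ball_subset_ball h.εle hy

theorem conv_tgt (h : Nice c δ ε X) {y : E} (hy : y ∈ ball (0 : E) δ) : y ∈ c.ψ.target :=
  h.mem y (ball_subset_ball (by linarith [h.δpos]) hy)

theorem conv_cont (h : Nice c δ ε X) {q w : E} (hq : q ∈ ball (0 : E) δ) (hw : w ∈ ball (0 : E) δ) :
    ContinuousAt (fun v => X (q, v)) w := by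
  have h1 : ContinuousAt X (q, w) :=
    h.sm.continuousOn.continuousAt ((isOpen_ball.prod isOpen_ball).mem_nhds ⟨hq, hw⟩)
  exact ContinuousAt.comp (f := fun v => (q, v)) h1 (continuousAt_const.prodMk continuousAt_id)

theorem conv_zero {F : Type} [NormedAddCommGroup F] [NormedSpace ℝ F] {g : E → F} {L : E →L[ℝ] F}
    {x : E} {k : F} (hg : HasFDerivAt g L x) (he : ∀ᶠ z in 𝓝 x, g z = k) : L = 0 :=
  hg.unique ((hasFDerivAt_const k x).congr_of_eventuallyEq he)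

theorem conv_eq_zero {y v : E} (hy : y ∈ c.ψ.target) (hv : c.G y v v ≤ 0) : v = 0 := by
  by_contra hne
  exact absurd (c.chr.pos y hy v hne) (not_lt.2 hv)

/- Apply rauch to the reversed ray y t = X (q, (1 - t) w), u t = -fderiv X (q, (1-t) w) (0, w)
(‖u‖ ≤ 2δ by close), J = ev U, J₁ = A U u (Act.jacAt); u 1 = -w by vel. -/
theorem Act.ray_rauch (α : Act 𝒜 V) (hn : Nonneg 𝒜) (hc : c ∈ 𝒜.S) (h : Nice c δ ε X) {U : V}
    {q w : E} (hq : q ∈ ball (0 : E) δ) (hw : w ∈ ball (0 : E) δ)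
    (h0 : α.A c (X (q, w)) U = 0) :
    MonotoneOn (fun l : ℝ => α.F c U (X (q, l • w))) (Icc 0 1) ∧
      c.G q (α.A c q U w) (α.A c q U w) ≤ c.G q (α.A c q U w) (α.ev c q U) ∧
      (c.G q (α.A c q U w) (α.ev c q U) = 0 → α.F c U q = α.F c U (X (q, w))) := by
  have hs : ∀ t ∈ Icc (0 : ℝ) 1, (1 - t) • w ∈ ball (0 : E) δ := fun t ht =>
    conv_smul_mem hw ⟨by linarith [ht.2], by linarith [ht.1]⟩
  have hy : ∀ t ∈ Icc (0 : ℝ) 1, X (q, (1 - t) • w) ∈ ball (0 : E) (3 * δ) := fun t ht =>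
    h.mem_ball hq (hs t ht)
  have hl : ∀ t : ℝ, HasDerivAt (fun s : ℝ => 1 - s) (-1) t := fun t =>
    (hasDerivAt_id t).const_sub 1
  have key := rauch c.chr (y := fun t : ℝ => X (q, (1 - t) • w))
    (u := fun t : ℝ => -fderiv ℝ X (q, (1 - t) • w) (0, w))
    (J := fun t : ℝ => α.ev c (X (q, (1 - t) • w)) U)
    (J₁ := fun t : ℝ => α.A c (X (q, (1 - t) • w)) U (-fderiv ℝ X (q, (1 - t) • w) (0, w)))
    (fun t ht => by
      obtain ⟨g1, g2⟩ := (h.geo q hq w (1 - t) (hs t ht)).self_of_nhds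
      refine ⟨h.mem _ (hy t ht), α.jacAt hc (y := fun t : ℝ => X (q, (1 - t) • w))
        (u := fun t : ℝ => -fderiv ℝ X (q, (1 - t) • w) (0, w)) (h.mem _ (hy t ht)) ?_ ?_ U⟩
      · exact (g1.scomp t (hl t)).congr_deriv (by simp)
      · exact (g2.scomp t (hl t)).neg.congr_deriv (by simp))
    (fun t ht => hn.alg hc (h.mem _ (hy t ht)))
    (fun t ht b => by
      refine h.curv _ (hy t ht) _ b ?_
      have h1 := h.close q hq _ (hs t ht) w
      have h2 := norm_le_insert' (fderiv ℝ X (q, (1 - t) • w) (0, w)) w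
      have h3 := mem_ball_zero_iff.1 hw
      rw [norm_neg]
      linarith [h.δpos])
    (by simp [h0])
  obtain ⟨k1, k2, k3⟩ := key
  simp only [sub_self, zero_smul, h.zero q hq, h.vel q hq, map_neg, _root_.neg_apply,
    neg_neg, sub_zero, one_smul, neg_eq_zero] at k2 k3
  refine ⟨fun l₁ h₁ l₂ h₂ hle => ?_, k2, k3⟩
  have := k1 (a := 1 - l₂) ⟨by linarith [h₂.2], by linarith [h₂.1]⟩ (b := 1 - l₁)
    ⟨by linarith [h₁.2], by linarith [h₁.1]⟩ (by linarith)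
  simpa only [sub_sub_cancel, Act.F] using this

/- Let a = X (q, w), B a small ball around a inside ball 0 ε on which A U = 0; F U is constant,
= F U a, on B (hasFDerivAt_F).  For w' near w, X (q, w') ∈ B and monotonicity squeezes
F U (X (q, l w')) = F U a.  By map_nhds at l w, F U is constant near x = X (q, l w).  For x' near
x (in ball 0 ε) the derivative of F U vanishes, so ray_rauch at x' gives A x' U w'' = 0 for
all w'' near the vector log of a at x' (X (x', w'') ∈ B by continuity); a linear map vanishing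
on a nonempty open set is zero.  So a neighbourhood of c.ψ.symm x lies in P U (mem_P). -/
theorem Act.ray_Om (α : Act 𝒜 V) (hn : Nonneg 𝒜) (hc : c ∈ 𝒜.S) (h : Nice c δ ε X) {U : V}
    {q w : E} (hq : q ∈ ball (0 : E) δ) (hw : w ∈ ball (0 : E) δ)
    (ha : X (q, w) ∈ ball (0 : E) ε) (hO : c.ψ.symm (X (q, w)) ∈ α.Om U)
    (hF : α.F c U (X (q, w)) ≤ α.F c U q) {l : ℝ} (hl : l ∈ Ioc (0 : ℝ) 1)
    (hx : X (q, l • w) ∈ ball (0 : E) ε) : c.ψ.symm (X (q, l • w)) ∈ α.Om U := by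
  set a := X (q, w) with hadef
  have hat : a ∈ c.ψ.target := conv_tgt h (conv_sub h ha)
  have hN : ∀ᶠ z in 𝓝 a, z ∈ c.ψ.target ∧ α.A c z U = 0 := by
    filter_upwards [c.ψ.open_target.mem_nhds hat,
      (c.ψ.continuousAt_symm hat).eventually (mem_interior_iff_mem_nhds.1 hO)] with z h1 h2
    refine ⟨h1, ?_⟩
    have := (α.mem_P hc (c.ψ.map_target h1) U).1 h2
    rwa [c.ψ.right_inv h1] at this
  obtain ⟨r, hr, hB⟩ := Metric.eventually_nhds_iff_ball.1 hN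
  have hconst : ∀ z ∈ ball a r, α.F c U z = α.F c U a := by
    intro z hz
    have h1 : ∀ x ∈ ball a r, HasFDerivWithinAt (α.F c U) (0 : E →L[ℝ] ℝ) (ball a r) x := by
      intro x hx
      obtain ⟨L, hL, hL'⟩ := α.hasFDerivAt_F hc (hB x hx).1 U
      have : L = 0 := by
        ext ξ
        rw [hL', (hB x hx).2]
        simp
      exact (this ▸ hL).hasFDerivWithinAt
    have h2 := (convex_ball a r).norm_image_sub_le_of_norm_hasFDerivWithin_le
      (f' := fun _ => (0 : E →L[ℝ] ℝ)) (C := 0) h1 (fun _ _ => by simp) (mem_ball_self hr) hz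
    rw [zero_mul, norm_le_zero_iff, sub_eq_zero] at h2
    exact h2
  have hl' : l ∈ Icc (0 : ℝ) 1 := ⟨hl.1.le, hl.2⟩
  have h1 : ∀ᶠ w' in 𝓝 w, α.F c U (X (q, l • w')) = α.F c U a := by
    filter_upwards [isOpen_ball.mem_nhds hw,
      (conv_cont h hq hw).eventually (isOpen_ball.mem_nhds (mem_ball_self hr))] with w' k1 k2
    have hm := (α.ray_rauch hn hc h hq k1 (hB _ k2).2).1
    have e1 := hm (left_mem_Icc.2 zero_le_one) hl' hl'.1
    have e2 := hm hl' (right_mem_Icc.2 zero_le_one) hl'.2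
    simp only [zero_smul, one_smul, h.zero q hq] at e1 e2
    have e3 := hconst _ k2
    linarith
  have h2 : ∀ᶠ v in 𝓝 (l • w), α.F c U (X (q, v)) = α.F c U a := by
    have ht : Tendsto (fun v : E => l⁻¹ • v) (𝓝 (l • w)) (𝓝 w) := by
      have := (continuous_const_smul l⁻¹ (T := E)).tendsto (l • w)
      rwa [inv_smul_smul₀ hl.1.ne'] at this
    filter_upwards [ht.eventually h1] with v hv
    rwa [smul_inv_smul₀ hl.1.ne'] at hv
  have h3 : ∀ᶠ z in 𝓝 (X (q, l • w)), α.F c U z = α.F c U a := by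
    rw [← h.map_nhds hq (conv_smul_mem hw hl')]
    exact h2
  have h4 : ∀ᶠ x' in 𝓝 (X (q, l • w)), α.A c x' U = 0 := by
    filter_upwards [h3.eventually_nhds, isOpen_ball.mem_nhds hx] with x' k1 k2
    have k3 := conv_sub h k2
    have k4 := conv_tgt h k3
    obtain ⟨L, hL, hL'⟩ := α.hasFDerivAt_F hc k4 U
    have hL0 := conv_zero hL k1
    obtain ⟨w₀, hw₀, hXw⟩ := h.log a ha x' k2
    refine conv_zero (k := 0) (x := w₀) (α.A c x' U).hasFDerivAt ?_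
    have k5 : ball a r ∈ 𝓝 (X (x', w₀)) := hXw ▸ isOpen_ball.mem_nhds (mem_ball_self hr)
    filter_upwards [isOpen_ball.mem_nhds hw₀, (conv_cont h k3 hw₀).eventually k5] with v e1 e2
    have e3 := (α.ray_rauch hn hc h k3 e1 (hB _ e2).2).2.1
    have e4 := hL' v
    rw [hL0, _root_.zero_apply] at e4
    exact conv_eq_zero k4 (by linarith)
  have hxt : X (q, l • w) ∈ c.ψ.target := conv_tgt h (conv_sub h hx)
  have hsrc := c.ψ.map_target hxt
  have ht : Tendsto c.ψ (𝓝 (c.ψ.symm (X (q, l • w)))) (𝓝 (X (q, l • w))) := by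
    have := (c.ψ.continuousAt hsrc).tendsto
    rwa [c.ψ.right_inv hxt] at this
  refine mem_interior_iff_mem_nhds.2 ?_
  filter_upwards [ht.eventually h4, c.ψ.open_source.mem_nhds hsrc] with m k1 k2
  exact (α.mem_P hc k2 U).2 k1

/- Take a nice chart at y, O = source ∩ preimage of ball 0 ε, η = δ/4.  With q = c.ψ (γ b), u the
velocity at b (‖u‖ ≤ 2 by met), ray_eq gives γ t = c.ψ.symm (X (q, (t - b) u)); put
w = (a - b) u and use ray_rauch, ray_Om, f_eq. -/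
theorem Act.conv (α : Act 𝒜 V) (hn : Nonneg 𝒜) (y : M) : ∃ O ∈ 𝓝 y, ∃ η > 0,
    ∀ (U : V) (γ : ℝ → M) (a b : ℝ), a ≤ b → b - a ≤ η →
      (∀ t ∈ Icc a b, GeoAt 𝒜 γ t ∧ SlowAt 𝒜 γ t ∧ γ t ∈ O) →
      (γ a ∈ α.P U → α.f U (γ b) ≤ α.f U (γ a)) ∧
      (γ a ∈ α.Om U → α.f U (γ a) ≤ α.f U (γ b) → ∀ t ∈ Ico a b, γ t ∈ α.Om U) := by
  obtain ⟨c, hc, hcn⟩ := 𝒜.norm y
  obtain ⟨δ, ε, X, -, h⟩ := exists_nice hcn one_pos
  refine ⟨c.ψ.source ∩ c.ψ ⁻¹' ball 0 ε, ?_, δ / 4, by linarith [h.δpos], ?_⟩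
  · refine inter_mem (c.ψ.open_source.mem_nhds hcn.1) ((c.ψ.continuousAt hcn.1).preimage_mem_nhds ?_)
    rw [hcn.2.1]
    exact ball_mem_nhds 0 h.εpos
  intro U γ a b hab hη hγ
  have hb : b ∈ Icc a b := right_mem_Icc.2 hab
  have ha : a ∈ Icc a b := left_mem_Icc.2 hab
  have hsrc : ∀ t ∈ Icc a b, γ t ∈ c.ψ.source := fun t ht => (hγ t ht).2.2.1
  have hball : ∀ t ∈ Icc a b, c.ψ (γ t) ∈ ball (0 : E) ε := fun t ht => (hγ t ht).2.2.2
  have hq : c.ψ (γ b) ∈ ball (0 : E) δ := conv_sub h (hball b hb)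
  obtain ⟨v, hv, hv1⟩ := (hγ b hb).2.1 c hc (hsrc b hb)
  have hv2 : ‖v‖ ≤ 2 := by
    have h1 := h.met _ (ball_subset_ball (by linarith [h.δpos]) hq) v v
    rw [real_inner_self_eq_norm_mul_norm] at h1
    have h2 := (abs_le.1 h1).1
    nlinarith [norm_nonneg v]
  have hmem : ∀ t ∈ Icc a b, (t - b) • v ∈ ball (0 : E) δ := by
    intro t ht
    rw [mem_ball_zero_iff, norm_smul, Real.norm_eq_abs, abs_sub_comm, abs_of_nonneg (by linarith [ht.2])]
    have h1 : b - t ≤ δ / 4 := by linarith [ht.1]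
    have h2 : (b - t) * ‖v‖ ≤ δ / 4 * 2 :=
      mul_le_mul h1 hv2 (norm_nonneg v) (by linarith [h.δpos])
    linarith [h.δpos]
  have hray : ∀ t ∈ Icc a b, γ t = c.ψ.symm (X (c.ψ (γ b), (t - b) • v)) := by
    intro t ht
    refine h.ray_eq hc (fun s hs => (hγ s ?_).1) (hsrc b hb) hq hv (hmem t ht)
    exact uIcc_subset_Icc hb ht hs
  have hcoord : ∀ t ∈ Icc a b, c.ψ (γ t) = X (c.ψ (γ b), (t - b) • v) := by
    intro t ht
    conv_lhs => rw [hray t ht]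
    exact c.ψ.right_inv (h.mem _ (h.mem_ball hq (hmem t ht)))
  rw [α.f_eq hc (hsrc a ha), α.f_eq hc (hsrc b hb), hcoord a ha]
  constructor
  · intro hP
    have h0 := (α.mem_P hc (hsrc a ha) U).1 hP
    rw [hcoord a ha] at h0
    have := (α.ray_rauch hn hc h hq (hmem a ha) h0).1 (left_mem_Icc.2 zero_le_one)
      (right_mem_Icc.2 zero_le_one) zero_le_one
    simpa only [zero_smul, one_smul, h.zero _ hq] using this
  · intro hO hF t ht
    have hlt : 0 < b - a := by linarith [ht.1, ht.2]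
    have ht' : t ∈ Icc a b := ⟨ht.1, ht.2.le⟩
    have he : ((b - t) / (b - a)) • (a - b) • v = (t - b) • v := by
      rw [smul_smul]
      congr 1
      field_simp
      ring
    have := α.ray_Om hn hc h hq (hmem a ha) (hcoord a ha ▸ hball a ha) (hray a ha ▸ hO) hF
      (l := (b - t) / (b - a))
      ⟨div_pos (by linarith [ht.2]) hlt, (div_le_one hlt).2 (by linarith [ht.1])⟩
      (by rw [he, ← hcoord t ht']; exact hball t ht')
    rwa [he, ← hray t ht'] at this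

/- The set {m ∈ P U | f U m = 0} is closed.  It is open: in a nice chart at such an m, every
q ∈ ball 0 ε has q ↦ 0 = X (q, w) for some w (log), so F U q ≤ F U 0 = 0 by ray_rauch; hence
ev U = 0 near 0, and d_ev gives A U = 0 near 0. -/
theorem Act.P_eq_univ [PreconnectedSpace M] (α : Act 𝒜 V) (hn : Nonneg 𝒜) {U : V} {m : M}
    (hm : m ∈ α.P U) (h0 : α.f U m = 0) : α.P U = univ := by
  have hcl : IsClosed (α.P U ∩ {m | α.f U m = 0}) :=
    (α.isClosed_P U).inter (isClosed_eq (α.continuous_f U) continuous_const)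
  have hop : IsOpen (α.P U ∩ {m | α.f U m = 0}) := by
    rw [isOpen_iff_mem_nhds]
    rintro m' ⟨h1, h2⟩
    obtain ⟨c, hc, hcn⟩ := 𝒜.norm m'
    obtain ⟨δ, ε, X, -, h⟩ := exists_nice hcn one_pos
    have hA0 : α.A c 0 U = 0 := hcn.2.1 ▸ (α.mem_P hc hcn.1 U).1 h1
    have hF0 : α.F c U 0 = 0 := by
      have h3 := α.f_eq hc hcn.1 U
      rw [hcn.2.1] at h3
      exact h3.symm.trans h2
    have hev : ∀ z ∈ ball (0 : E) ε, α.ev c z U = 0 := by
      intro z hz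
      obtain ⟨w, hw, hX⟩ := h.log 0 (mem_ball_self h.εpos) z hz
      have h3 := (α.ray_rauch hn hc h (conv_sub h hz) hw (hX ▸ hA0)).1 (left_mem_Icc.2 zero_le_one)
        (right_mem_Icc.2 zero_le_one) zero_le_one
      simp only [zero_smul, one_smul, h.zero _ (conv_sub h hz), hX, hF0] at h3
      exact conv_eq_zero (conv_tgt h (conv_sub h hz)) h3
    have hA : ∀ z ∈ ball (0 : E) ε, α.A c z U = 0 := by
      intro z hz
      have hzt := conv_tgt h (conv_sub h hz)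
      have hd : HasFDerivAt (α.ev c) (fderiv ℝ (α.ev c) z) z :=
        (((α.sm_ev c hc).contDiffAt (c.ψ.open_target.mem_nhds hzt)).differentiableAt
          (by simp)).hasFDerivAt
      have h3 := conv_zero (k := 0) (hd.clm_apply (hasFDerivAt_const U z))
        (by filter_upwards [isOpen_ball.mem_nhds hz] with x hx using hev x hx)
      ext ξ
      have h4 := congrArg (fun L : E →L[ℝ] E => L ξ) h3
      have h5 := α.d_ev c hc z hzt ξ U
      rw [hev z hz, map_zero, sub_zero] at h5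
      rw [← h5]
      simpa using h4
    have hb : ball (0 : E) ε ∈ 𝓝 (c.ψ m') := by
      rw [hcn.2.1]; exact ball_mem_nhds 0 h.εpos
    filter_upwards [c.ψ.open_source.mem_nhds hcn.1,
      (c.ψ.continuousAt hcn.1).preimage_mem_nhds hb] with x k1 k2
    refine ⟨(α.mem_P hc k1 U).2 (hA _ k2), ?_⟩
    change α.f U x = 0
    rw [α.f_eq hc k1 U, Act.F, hev _ k2, map_zero]
  have := IsClopen.eq_univ ⟨hcl, hop⟩ ⟨m, hm, h0⟩
  exact eq_univ_of_univ_subset (this ▸ inter_subset_left)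

end Pool.Agent.MP_3a00c0_gt

end
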