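import Pool.Agent.MP_3a00c0_gt.Act
import Pool.Agent.MP_3a00c0_gt.Defs
import Pool.Agent.MP_3a00c0_gt.Mg.Build
import Pool.Agent.MP_3a00c0_gt.Mg.Rank
import Pool.Agent.MP_3a00c0_gt.Mg.Alg
import Pool.Agent.MP_3fed84_gt.Bridge

-- part MP_3a00c0_gt.Par
section

/-! A compact simply connected manifold has no nonzero parallel field. -/

open Set Metric Filter Topology
open scoped ContDiff RealInnerProductSpace

set_option maxSynthPendingDepth 3
set_option linter.unusedSectionVars false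

namespace Pool.Agent.MP_3a00c0_gt

open Pool.Agent.MP_3fed84_gt

/-- The gluing lemma with values in a discrete abelian group. -/
theorem par_glue {M ι A : Type} [TopologicalSpace M] [SimplyConnectedSpace M]
    [LocallyPathConnectedSpace M] [AddCommGroup A] [TopologicalSpace A] [DiscreteTopology A]
    (O : ι → Set M) (hO : ∀ i, IsOpen (O i)) (hc : ∀ m, ∃ i, m ∈ O i) (f : ι → M → A)
    (hf : ∀ i j, ∀ m ∈ O i ∩ O j, ∀ᶠ x in 𝓝 m, f i x - f j x = f i m - f j m) :
    ∃ F : M → A, ∀ i, ∀ m ∈ O i, ∀ᶠ x in 𝓝 m, F x - f i x = F m - f i m := by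
  choose idx hidx using hc
  let Z : FiberBundleCore ι M A :=
    { baseSet := O
      isOpen_baseSet := hO
      indexAt := idx
      mem_baseSet_at := hidx
      coordChange := fun i j x v => v + (f i x - f j x)
      coordChange_self := fun i x _ v => by simp
      continuousOn_coordChange := fun i j => by
        rintro ⟨m, v⟩ ⟨hm, -⟩
        refine ContinuousAt.continuousWithinAt ?_
        have h1 : ∀ᶠ p : M × A in 𝓝 (m, v), f i p.1 - f j p.1 = f i m - f j m :=
          (continuousAt_fst (p := (m, v))).tendsto.eventually (hf i j m hm)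
        have h2 : ∀ᶠ p : M × A in 𝓝 (m, v), p.2 = v :=
          (continuousAt_snd (p := (m, v))).tendsto.eventually
            ((isOpen_discrete {v}).mem_nhds rfl)
        refine (continuousAt_const (y := v + (f i m - f j m))).congr ?_
        filter_upwards [h1, h2] with p e1 e2
        rw [e1, e2]
      coordChange_comp := fun i j k x _ v => by abel }
  have cov : IsCoveringMap Z.proj :=
    IsFiberBundle.isCoveringMap fun x => ⟨Z.localTriv (idx x), hidx x⟩
  obtain ⟨m₀⟩ : Nonempty M := inferInstance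
  obtain ⟨σ, ⟨-, hσ⟩, -⟩ := cov.existsUnique_continuousMap_lifts (ContinuousMap.id M) m₀
    ⟨m₀, (0 : A)⟩ rfl
  have hp : ∀ x, (σ x).1 = x := fun x => congrFun hσ x
  let s : M → A := fun x => (σ x).2
  refine ⟨fun x => s x + f (idx x) x, fun i m hm => ?_⟩
  have e : ∀ x, (Z.localTriv i (σ x)).2 = s x + f (idx x) x - f i x := by
    intro x
    rw [Z.localTriv_apply]
    change s x + (f (idx (σ x).1) (σ x).1 - f i (σ x).1) = _
    rw [hp]
    abel
  have h1 : ContinuousAt (fun x => (Z.localTriv i (σ x)).2) m := by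
    refine continuousAt_snd.comp (ContinuousAt.comp ?_ σ.continuous.continuousAt)
    refine (Z.localTriv i).continuousAt ?_
    rw [Z.mem_localTriv_source, hp]
    exact hm
  have h2 := h1.tendsto.eventually ((isOpen_discrete {(Z.localTriv i (σ m)).2}).mem_nhds rfl)
  filter_upwards [h2] with x hx
  rw [← e, ← e]
  exact hx

/- The functions f i differ by locally constant functions on overlaps, so v ↦ v + f j x - f i x
are the coordinate changes of a FiberBundleCore with fibre ℝ with the discrete topology (use a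
type synonym); its projection is a covering map (FiberBundle.isCoveringMap or IsCoveringMap.mk),
and IsCoveringMap.existsUnique_continuousMap_lifts gives a continuous section. -/
theorem exists_global_primitive {M ι : Type} [TopologicalSpace M] [SimplyConnectedSpace M]
    [LocallyPathConnectedSpace M] (O : ι → Set M) (hO : ∀ i, IsOpen (O i)) (hc : ∀ m, ∃ i, m ∈ O i)
    (f : ι → M → ℝ)
    (hf : ∀ i j, ∀ m ∈ O i ∩ O j, ∀ᶠ x in 𝓝 m, f i x - f j x = f i m - f j m) :
    ∃ F : M → ℝ, ∀ i, ∀ m ∈ O i, ∀ᶠ x in 𝓝 m, F x - f i x = F m - f i m :=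
  @par_glue M ι ℝ _ _ _ _ ⊥ (discreteTopology_bot ℝ) O hO hc f hf

/-- A function whose derivative vanishes near a point is constant near that point. -/
theorem par_const {X Y : Type} [NormedAddCommGroup X] [NormedSpace ℝ X] [NormedAddCommGroup Y]
    [NormedSpace ℝ Y] {h : X → Y} {a : X}
    (hh : ∀ᶠ y in 𝓝 a, HasFDerivAt h (0 : X →L[ℝ] Y) y) : ∀ᶠ y in 𝓝 a, h y = h a := by
  obtain ⟨r, hr, hb⟩ := Metric.eventually_nhds_iff_ball.1 hh
  filter_upwards [ball_mem_nhds a hr] with y hy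
  exact isOpen_ball.is_const_of_fderiv_eq_zero (convex_ball a r).isPreconnected
    (fun z hz => (hb z hz).differentiableAt.differentiableWithinAt)
    (fun z hz => (hb z hz).fderiv) hy (mem_ball_self hr)

variable {E : Type} [NormedAddCommGroup E] [InnerProductSpace ℝ E] [FiniteDimensional ℝ E]
  {M : Type} [TopologicalSpace M] [T2Space M] [CompactSpace M] [SimplyConnectedSpace M]
  [LocallyPathConnectedSpace M] {𝒜 : Atlas E M}
  {V : Type} [NormedAddCommGroup V] [NormedSpace ℝ V] [FiniteDimensional ℝ V]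

theorem Act.par_A (α : Act 𝒜 V) {U : V} (hU : α.P U = univ) {c : Chart E M} (hc : c ∈ 𝒜.S)
    {y : E} (hy : y ∈ c.ψ.target) : α.A c y U = 0 := by
  have h : c.ψ.symm y ∈ α.P U := hU ▸ mem_univ _
  have := h c hc (c.ψ.map_target hy)
  rwa [c.ψ.right_inv hy] at this

/-- The dual one form of a parallel field is closed. -/
theorem Act.par_closed (α : Act 𝒜 V) {U : V} (hU : α.P U = univ) {c : Chart E M} (hc : c ∈ 𝒜.S)
    {y : E} (hy : y ∈ c.ψ.target) : ∃ L : E →L[ℝ] E →L[ℝ] ℝ,
      HasFDerivAt (fun z => c.G z (α.ev c z U)) L y ∧ ∀ ξ η, L ξ η = L η ξ := by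
  have hG := (c.chr.diffG hy).hasFDerivAt
  have he : HasFDerivAt (α.ev c) (fderiv ℝ (α.ev c) y) y :=
    (((α.sm_ev c hc).contDiffAt (c.ψ.open_target.mem_nhds hy)).differentiableAt
      (by simp)).hasFDerivAt
  refine ⟨_, hG.clm_apply (he.clm_apply (hasFDerivAt_const U y)), fun ξ η => ?_⟩
  simp only [add_apply, ContinuousLinearMap.comp_apply,
    ContinuousLinearMap.flip_apply, zero_apply, map_zero, zero_add,
    α.d_ev c hc y hy, c.chr.compat y hy, α.par_A hU hc hy, map_neg, zero_sub,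
    neg_apply]
  rw [c.chr.symΓ y hy ξ η]
  ring

/-- Local primitives of the dual one form. -/
theorem Act.par_local (α : Act 𝒜 V) {U : V} (hU : α.P U = univ) (m : M) :
    ∃ c ∈ 𝒜.S, ∃ B : Set E, ∃ g : E → ℝ, m ∈ c.ψ.source ∧ IsOpen B ∧ c.ψ m ∈ B ∧
      ∀ y ∈ B, HasFDerivAt g (c.G y (α.ev c y U)) y := by
  obtain ⟨c, hc, hm, -⟩ := 𝒜.norm m
  obtain ⟨r, hr, hb⟩ := Metric.isOpen_iff.1 c.ψ.open_target _ (c.ψ.map_source hm)
  have h1 : DifferentiableOn ℝ (fun z => c.G z (α.ev c z U)) (ball (c.ψ m) r) := fun y hy => by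
    obtain ⟨L, h1, -⟩ := α.par_closed hU hc (hb hy)
    exact h1.differentiableAt.differentiableWithinAt
  obtain ⟨g, hg⟩ := (convex_ball (c.ψ m) r).exists_forall_hasFDerivAt_of_fderiv_symmetric
    isOpen_ball h1 fun y hy ξ η => by
      obtain ⟨L, h1, h2⟩ := α.par_closed hU hc (hb hy)
      rw [h1.fderiv]
      exact h2 ξ η
  exact ⟨c, hc, ball (c.ψ m) r, g, hm, isOpen_ball, mem_ball_self hr, hg⟩

/-- Two local primitives differ by a locally constant function. -/
theorem Act.par_overlap (α : Act 𝒜 V) {U : V} {c c' : Chart E M} (hc : c ∈ 𝒜.S) (hc' : c' ∈ 𝒜.S)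
    {B B' : Set E} (hB : IsOpen B) (hB' : IsOpen B') {g g' : E → ℝ}
    (hg : ∀ y ∈ B, HasFDerivAt g (c.G y (α.ev c y U)) y)
    (hg' : ∀ y ∈ B', HasFDerivAt g' (c'.G y (α.ev c' y U)) y) {m : M} (hm : m ∈ c.ψ.source)
    (hm' : m ∈ c'.ψ.source) (hmB : c.ψ m ∈ B) (hmB' : c'.ψ m ∈ B') :
    ∀ᶠ x in 𝓝 m, g (c.ψ x) - g' (c'.ψ x) = g (c.ψ m) - g' (c'.ψ m) := by
  have key : ∀ x ∈ c.ψ.source, x ∈ c'.ψ.source → c.ψ x ∈ B → c'.ψ x ∈ B' →
      HasFDerivAt (fun y => g y - g' (c.ex c' id y)) (0 : E →L[ℝ] ℝ) (c.ψ x) := by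
    intro x hx hx' hxB hxB'
    obtain ⟨h1, h2⟩ := 𝒜.compat c hc c' hc' x hx hx'
    have e : c.ex c' id (c.ψ x) = c'.ψ x := c.ex_apply c' id hx
    have h3 := (h1.differentiableAt (by simp)).hasFDerivAt
    have h4 : HasFDerivAt g' (c'.G (c'.ψ x) (α.ev c' (c'.ψ x) U)) (c.ex c' id (c.ψ x)) := by
      rw [e]
      exact hg' _ hxB'
    refine ((hg _ hxB).sub (h4.comp _ h3)).congr_fderiv ?_
    ext ξ
    have h5 := α.tr_ev c hc c' hc' 0 x hx (by rw [α.zero]; exact hx') U
    rw [α.zero, α.Φ_zero] at h5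
    have h6 := h2 (α.ev c (c.ψ x) U) ξ
    rw [e] at h6
    simp only [sub_apply, ContinuousLinearMap.comp_apply,
      zero_apply]
    rw [h5, h6, sub_self]
  have hn : ∀ᶠ x in 𝓝 m, x ∈ c.ψ.source ∧ x ∈ c'.ψ.source ∧ c.ψ x ∈ B ∧ c'.ψ x ∈ B' := by
    filter_upwards [c.ψ.open_source.mem_nhds hm, c'.ψ.open_source.mem_nhds hm',
      (c.ψ.continuousAt hm).tendsto.eventually (hB.mem_nhds hmB),
      (c'.ψ.continuousAt hm').tendsto.eventually (hB'.mem_nhds hmB')] with x a1 a2 a3 a4
    exact ⟨a1, a2, a3, a4⟩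
  have h0 : ∀ᶠ y in 𝓝 (c.ψ m),
      HasFDerivAt (fun y => g y - g' (c.ex c' id y)) (0 : E →L[ℝ] ℝ) y := by
    filter_upwards [(c.ψ.tendsto_symm hm).eventually hn,
      c.ψ.open_target.mem_nhds (c.ψ.map_source hm)] with y hy hyt
    have := key _ hy.1 hy.2.1 hy.2.2.1 hy.2.2.2
    rwa [c.ψ.right_inv hyt] at this
  filter_upwards [(c.ψ.continuousAt hm).tendsto.eventually (par_const h0), hn] with x hx hx'
  rw [c.ex_apply c' id hx'.1, c.ex_apply c' id hm] at hx
  exact hx

/-- A parallel field has a zero. -/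
theorem Act.par_zero (α : Act 𝒜 V) {U : V} (hU : α.P U = univ) : ∃ m, α.f U m = 0 := by
  choose c hc B g hm hB hmB hg using α.par_local hU
  obtain ⟨F, hF⟩ := exists_global_primitive (fun i => (c i).ψ.source ∩ (c i).ψ ⁻¹' B i)
    (fun i => (c i).ψ.isOpen_inter_preimage (hB i)) (fun m => ⟨m, hm m, hmB m⟩)
    (fun i x => g i ((c i).ψ x))
    (fun i j m h => α.par_overlap (hc i) (hc j) (hB i) (hB j) (hg i) (hg j) h.1.1 h.2.1 h.1.2
      h.2.2)
  have hF' : ∀ m, F =ᶠ[𝓝 m] fun x => g m ((c m).ψ x) + (F m - g m ((c m).ψ m)) := by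
    intro m
    filter_upwards [hF m m ⟨hm m, hmB m⟩] with x hx
    linarith
  have hcont : Continuous F := by
    refine continuous_iff_continuousAt.2 fun m => ContinuousAt.congr ?_ (hF' m).symm
    exact (ContinuousAt.comp (f := (c m).ψ) (hg m _ (hmB m)).continuousAt
      ((c m).ψ.continuousAt (hm m))).add continuousAt_const
  obtain ⟨m, -, hmax⟩ := isCompact_univ.exists_isMaxOn univ_nonempty hcont.continuousOn
  have hloc : IsLocalMax (g m) ((c m).ψ m) := by
    filter_upwards [((c m).ψ.tendsto_symm (hm m)).eventually (hF' m),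
      (c m).ψ.open_target.mem_nhds ((c m).ψ.map_source (hm m))] with y hy hyt
    rw [(c m).ψ.right_inv hyt] at hy
    have h1 : F ((c m).ψ.symm y) ≤ F m := hmax (mem_univ _)
    linarith
  refine ⟨m, ?_⟩
  rw [α.f_eq (hc m) (hm m), Act.F, hloc.hasFDerivAt_eq_zero (hg m _ (hmB m))]
  rfl

/-- A parallel field vanishes. -/
theorem Act.par_ev (α : Act 𝒜 V) {U : V} (hU : α.P U = univ) {c : Chart E M} (hc : c ∈ 𝒜.S)
    {m : M} (hm : m ∈ c.ψ.source) : α.ev c (c.ψ m) U = 0 := by
  have hl : IsLocallyConstant (α.f U) := by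
    refine (IsLocallyConstant.iff_eventually_eq _).2 fun x => ?_
    obtain ⟨d, hd, hx, -⟩ := 𝒜.norm x
    have h0 : ∀ᶠ y in 𝓝 (d.ψ x), HasFDerivAt (α.F d U) (0 : E →L[ℝ] ℝ) y := by
      filter_upwards [d.ψ.open_target.mem_nhds (d.ψ.map_source hx)] with y hy
      obtain ⟨L, h1, h2⟩ := α.hasFDerivAt_F hd hy U
      refine h1.congr_fderiv ?_
      ext ξ
      rw [h2, α.par_A hU hd hy]
      simp
    filter_upwards [(d.ψ.continuousAt hx).tendsto.eventually (par_const h0),
      d.ψ.open_source.mem_nhds hx] with z h1 h2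
    rw [α.f_eq hd h2, α.f_eq hd hx]
    exact h1
  obtain ⟨m₀, h0⟩ := α.par_zero hU
  have h1 : α.f U m = 0 := (hl.apply_eq_of_preconnectedSpace m m₀).trans h0
  rw [α.f_eq hc hm] at h1
  exact eq_zero_of_pos (c.chr.pos _ (c.ψ.map_source hm)) h1

/- In a chart c the 1-form ω y = G y (ev y U) has derivative ω' η ξ = G (ev U) (Γ η ξ) (compat,
d_ev, A U = 0), which is symmetric; on a ball it has a primitive (Poincare lemma,
Convex.exists_forall_hasFDerivAt_of_fderiv_symmetric or a direct integral).  Two primitives have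
the same derivative on overlaps (tr_ev with a = 0, isometry of the transition), so
exists_global_primitive applies.  At a maximum point of the continuous function F, ω = 0, so
f U = 0 there; f U is locally constant (hasFDerivAt_F), so ev U = 0 everywhere, and by orbit the
curve s ↦ Φ (s U) m is locally constant. -/
theorem Act.trivial_of_parallel (α : Act 𝒜 V) {U : V} (hU : α.P U = univ) (s : ℝ) (m : M) :
    α.Φ (s • U) m = m := by
  have hcont : Continuous fun r : ℝ => α.Φ (r • U) m :=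
    α.cont.comp ((continuous_id.smul continuous_const).prodMk continuous_const)
  have hl : IsLocallyConstant fun r : ℝ => α.Φ (r • U) m := by
    refine (IsLocallyConstant.iff_eventually_eq _).2 fun t => ?_
    obtain ⟨c, hc, hx, -⟩ := 𝒜.norm (α.Φ (t • U) m)
    have hn : ∀ᶠ r : ℝ in 𝓝 t, α.Φ (r • U) m ∈ c.ψ.source :=
      hcont.continuousAt.tendsto.eventually (c.ψ.open_source.mem_nhds hx)
    have h0 : ∀ᶠ r : ℝ in 𝓝 t,
        HasFDerivAt (fun r : ℝ => c.ψ (α.Φ (r • U) m)) (0 : ℝ →L[ℝ] E) r := by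
      filter_upwards [hn] with r hr
      have h1 := α.orbit c hc m U r hr
      rw [α.par_ev hU hc hr] at h1
      refine h1.hasFDerivAt.congr_fderiv ?_
      ext
      simp
    filter_upwards [par_const h0, hn] with r h1 h2
    exact c.ψ.injOn h2 hx h1
  have := hl.apply_eq_of_preconnectedSpace s 0
  simpa [α.zero] using this

end Pool.Agent.MP_3a00c0_gt

end

-- part MP_3a00c0_gt.Final
section

/-! The bound on the symmetry rank. -/

open Set Metric Filter Topology
open scoped ContDiff RealInnerProductSpace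

set_option maxSynthPendingDepth 3
set_option linter.unusedSectionVars false

namespace Pool.Agent.MP_3a00c0_gt

open Pool.Agent.MP_3fed84_gt

open scoped Manifold

theorem Act.bound {E : Type} [NormedAddCommGroup E] [InnerProductSpace ℝ E] [FiniteDimensional ℝ E]
    {M : Type} [TopologicalSpace M] [T2Space M] [PreconnectedSpace M] [CompactSpace M] [Nonempty M]
    {𝒜 : Atlas E M} {V : Type} [NormedAddCommGroup V] [NormedSpace ℝ V] [FiniteDimensional ℝ V]
    (α : Act 𝒜 V) (hn : Nonneg 𝒜) (hNP : ∀ U, α.P U = univ → U = 0) :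
    3 * Module.finrank ℝ V ≤ 2 * Module.finrank ℝ E := by
  obtain ⟨x, c, hc, hN, inj, hZ, hnull⟩ := α.generic hn hNP
  have h0 : (0 : E) ∈ c.ψ.target := hN.2.1 ▸ c.ψ.map_source hN.1
  obtain ⟨v, hv, ho⟩ := α.exists_dirs hn hNP hc hN (Module.finrank ℝ (α.Z x)) (α.Z x) le_rfl le_rfl
  have key : ∀ i U, ⟪v i, α.ev c 0 U⟫ = 0 ∧ ⟪v i, α.A c 0 U (α.ev c 0 U)⟫ ≤ 0 ∧
      (α.A c 0 U (α.ev c 0 U) = 0 →
        ⟪Rm c.Γ 0 (v i) (α.ev c 0 U) (α.ev c 0 U), v i⟫ = 0) := by
    intro i U
    obtain ⟨W, -, σ, r, hσ, hm, hd⟩ := hv i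
    exact α.orbit_ineq hn hm hc (hσ ▸ hN) hd U
  refine alg_bound (α.ev c 0) (α.A c 0) (Rm c.Γ 0) hN.2.2 (hn.alg hc h0) inj (fun U a b => ?_)
    (α.comm c hc 0 h0) (α.gauss hn hc h0) hnull (Submodule.finrank_mono fun U hU => hZ U hU) v
    (fun i => ?_) ho (fun i U => (key i U).1) (fun i U => (key i U).2.1)
    (fun i U => (key i U).2.2)
  · rw [← hN.2.2, ← hN.2.2]
    exact α.skew c hc 0 h0 U a b
  · obtain ⟨W, -, σ, r, hσ, hm, hd⟩ := hv i
    obtain ⟨u, hu, hu'⟩ := (hm.geo 0 ⟨le_rfl, hm.pos.le⟩).2 c hc (hσ ▸ hN.1)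
    rw [← hd.unique hu] at hu'
    intro h
    rw [h] at hu'
    simp at hu'

variable {E : Type} [NormedAddCommGroup E] [InnerProductSpace ℝ E] [FiniteDimensional ℝ E]
  {M : Type} [TopologicalSpace M] [ChartedSpace E M] [IsManifold 𝓘(ℝ, E) ∞ M]

theorem nonneg_model {g : RiemMetric E M} (hg : NonnegCurvature g) {x : M} {c : Chart E M}
    (hψ : c.ψ = chartAt E x) (hG : ∀ y a b, c.G y a b = coef g x y a b) {y : E}
    (hy : y ∈ c.ψ.target) (a b : E) : 0 ≤ c.G y (Rm c.Γ y a b b) a := by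
  have hd : ∀ z ∈ c.ψ.target, ∀ a b e : E,
      fderiv ℝ (fun z => coef g x z b e) z a = fderiv ℝ c.G z a b e := by
    intro z hz a b e
    have e1 : (fun z => coef g x z b e) = fun z => c.G z b e := funext fun z => (hG z b e).symm
    rw [e1, (fderiv_form_apply (c.chr.diffG hz) b e).fderiv]
    simp
  have h1 : IsChristoffel (coef g x) (fun y a b => c.Γ y a b) (chartAt E x).target := by
    intro z hz a b e
    rw [← hψ] at hz
    rw [hd z hz, hd z hz, hd z hz, c.chr.compat z hz, c.chr.compat z hz, c.chr.compat z hz,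
      ← hG, c.chr.symΓ z hz b a, c.chr.symΓ z hz e a, c.chr.symΓ z hz e b,
      c.chr.symm z hz a (c.Γ z b e), c.chr.symm z hz b (c.Γ z a e)]
    ring
  have h2 := hg x _ h1 y (hψ ▸ hy) a b
  have hΓ : DifferentiableAt ℝ c.Γ y :=
    (c.chr.smΓ.contDiffAt (c.chr.opn.mem_nhds hy)).differentiableAt (by simp)
  have h3 : ∀ a b e : E, fderiv ℝ (fun z => c.Γ z b e) y a = fderiv ℝ c.Γ y a b e := by
    intro a b e
    rw [((hΓ.hasFDerivAt.clm_apply (hasFDerivAt_const b y)).clm_apply
      (hasFDerivAt_const e y)).fderiv]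
    simp
  rw [riemann, h3, h3, ← hG] at h2
  rw [rm_apply]
  exact h2

theorem nonneg_of_models {g : RiemMetric E M} {𝒜 : Atlas E M} (h𝒜 : Models g 𝒜)
    (hg : NonnegCurvature g) : Nonneg 𝒜 := by
  intro c hc y hy a b
  obtain ⟨c', hc', hψ, hG⟩ := h𝒜 (c.ψ.symm y)
  have hm' : c.ψ.symm y ∈ c'.ψ.source := hψ ▸ mem_chart_source E _
  have k := (LI.id 𝒜 (c.ψ.symm y)).coord hc hc' (c.ψ.map_target hy) hm'
  rw [c.ψ.right_inv hy] at k
  have k0 := k.self_of_nhds
  rw [← k0.2.2.2, ← rm_iso c.chr c'.chr hy k0.2.1 (k.mono fun z hz => hz.2.2)]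
  exact nonneg_model hg hψ hG k0.2.1 _ _

theorem li0_of_isometry {g : RiemMetric E M} {𝒜 : Atlas E M} (h𝒜 : Models g 𝒜) {f : M → M}
    (hf : IsIsometry g f) (m : M) : LI0 𝒜 𝒜 f m := by
  obtain ⟨c, hc, hψ, hG⟩ := h𝒜 m
  obtain ⟨c', hc', hψ', hG'⟩ := h𝒜 (f m)
  have hm : m ∈ (chartAt E m).source := mem_chart_source E _
  have hm' : f m ∈ (chartAt E (f m)).source := mem_chart_source E _
  refine LI0.of_chart hf.1.continuous.continuousAt hc hc' (hψ ▸ hm) (hψ' ▸ hm') ?_
  have hex : c.ex c' f = chartAt E (f m) ∘ (f ∘ (chartAt E m).symm) := by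
    rw [Chart.ex, hψ, hψ']
  have h1 := cm_chart_symm ((chartAt E m).map_source hm)
  have h0 : (chartAt E m).symm (chartAt E m m) = m := (chartAt E m).left_inv hm
  have h2 : ContMDiffAt 𝓘(ℝ, E) 𝓘(ℝ, E) ∞ (f ∘ (chartAt E m).symm) (chartAt E m m) :=
    (hf.1 _).comp _ h1
  have h3 : (f ∘ (chartAt E m).symm) (chartAt E m m) ∈ (chartAt E (f m)).source := by
    rw [Function.comp_apply, h0]
    exact hm'
  rw [LocIso, hex, hψ]
  refine ⟨contMDiffAt_iff_contDiffAt.1 ((cm_chart h3).comp _ h2), fun a b => ?_⟩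
  rw [hG, hG', ← dE_eq_fderiv]
  refine (pullback_chart g (h2.mdifferentiableAt (by simp)) h3 a b).symm.trans ?_
  rw [pullback_eq, dE_comp ((hf.1 _).mdifferentiableAt (by simp)) (h1.mdifferentiableAt (by simp)),
    coef_eq]
  exact hf.2 _ _ _

theorem symmetry_rank [T2Space M] [CompactSpace M] [SimplyConnectedSpace M] (g : RiemMetric E M)
    (hg : NonnegCurvature g) (k : ℕ) [MulAction (Fin k → Circle) M]
    [ContinuousSMul (Fin k → Circle) M] [FaithfulSMul (Fin k → Circle) M]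
    (hiso : ∀ t : Fin k → Circle, IsIsometry g (fun m => t • m)) :
    3 * k ≤ 2 * Module.finrank ℝ E := by
  obtain ⟨𝒜, h𝒜⟩ := exists_models g
  have hn := nonneg_of_models h𝒜 hg
  haveI : LocallyPathConnectedSpace M := ChartedSpace.locallyPathConnectedSpace E M
  let e : (Fin k → ℝ) → (Fin k → Circle) := fun a i => Circle.exp (a i)
  have he : Continuous e := continuous_pi fun i => Circle.exp.continuous.comp (continuous_apply i)
  let β : PreAct 𝒜 (Fin k → ℝ) :=
    { Φ := fun a m => e a • m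
      zero := fun m => by
        have : e 0 = 1 := funext fun i => Circle.exp_zero
        rw [this, one_smul]
      add := fun a b m => by
        have : e (a + b) = e a * e b := funext fun i => Circle.exp_add _ _
        rw [this, mul_smul]
      cont := (he.comp continuous_fst).smul continuous_snd
      iso := fun a m => li0_of_isometry h𝒜 (hiso (e a)) m }
  obtain ⟨α, hα⟩ := β.exists_act hn
  have hNP : ∀ U, α.P U = univ → U = 0 := by
    intro U hU
    have h1 : ∀ s : ℝ, e (s • U) = 1 := fun s => by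
      refine FaithfulSMul.eq_of_smul_eq_smul (α := M) fun m => ?_
      have h2 := α.trivial_of_parallel hU s m
      rw [hα] at h2
      rw [one_smul]
      exact h2
    funext i
    by_contra hi
    have hi' : U i ≠ 0 := hi
    have h3 : Circle.exp (Real.pi / U i * U i) = 1 := congrFun (h1 (Real.pi / U i)) i
    rw [div_mul_cancel₀ _ hi'] at h3
    obtain ⟨n, hn'⟩ := Circle.exp_eq_one.1 h3
    have h4 : (1 : ℝ) = 2 * n := mul_right_cancel₀ Real.pi_ne_zero (by linarith)
    have h5 : (1 : ℤ) = 2 * n := by exact_mod_cast h4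
    omega
  have h := α.bound hn hNP
  rwa [Module.finrank_fin_fun] at h

end Pool.Agent.MP_3a00c0_gt

end
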