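import Pool.Agent.MP_3a00c0_gt.Nice
import Pool.Agent.MP_3fed84_gt.PairAux

-- part MP_3a00c0_gt.LenA
section

/-! The second variation of length along a geodesic in nonnegative curvature. -/

open Set Metric Filter Topology
open scoped ContDiff RealInnerProductSpace

set_option maxSynthPendingDepth 3
set_option linter.unusedSectionVars false

namespace Pool.Agent.MP_3a00c0_gt

open Pool.Agent.MP_3fed84_gt

variable {E : Type} [NormedAddCommGroup E] [InnerProductSpace ℝ E] [FiniteDimensional ℝ E]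
  {M : Type} [TopologicalSpace M] [T2Space M] [PreconnectedSpace M] {𝒜 : Atlas E M}

/-- The estimate of second order between the rays from σ t₁ and σ t₂ with the vectors
s P₁ (o - (t₁/r) ⟪v, o⟫ v) and s P₂ (o - (t₂/r) ⟪v, o⟫ v), for (s, o) near (0, w). -/
def Est (𝒜 : Atlas E M) (σ : ℝ → M) (r : ℝ) (v : E) (c₁ c₂ : Chart E M) (P₁ P₂ : E →L[ℝ] E)
    (t₁ t₂ : ℝ) (w : E) (κ : ℝ) : Prop :=
  ∀ ε > 0, ∀ᶠ p : ℝ × E in 𝓝 (0, w), ∀ z₁ z₂,
    Ray 𝒜 c₁ (σ t₁) (p.1 • P₁ (p.2 - (t₁ / r * ⟪v, p.2⟫) • v)) z₁ →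
    Ray 𝒜 c₂ (σ t₂) (p.1 • P₂ (p.2 - (t₂ / r * ⟪v, p.2⟫) • v)) z₂ →
    𝒜.d z₁ z₂ ≤ (t₂ - t₁) * (1 - p.1 * ⟪v, p.2⟫ / r) - (κ - ε) * p.1 ^ 2

/-- P is an isometry from the model space to the tangent space at σ t, read in the chart c,
sending v to the velocity of σ. -/
def Frame (σ : ℝ → M) (v : E) (c : Chart E M) (P : E →L[ℝ] E) (t : ℝ) : Prop :=
  σ t ∈ c.ψ.source ∧ (∀ a b, c.G (c.ψ (σ t)) (P a) (P b) = ⟪a, b⟫) ∧
    HasDerivAt (c.ψ ∘ σ) (P v) t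

theorem lena_taylor_pos {φ φ₁ φ₂ : ℝ → ℝ} {s B : ℝ} (hs : 0 ≤ s)
    (h : ∀ x ∈ Icc 0 s, HasDerivAt φ (φ₁ x) x ∧ HasDerivAt φ₁ (φ₂ x) x ∧ φ₂ x ≤ B) :
    φ s ≤ φ 0 + s * φ₁ 0 + B / 2 * s ^ 2 := by
  have h1 : ∀ x ∈ Icc 0 s, φ₁ x ≤ φ₁ 0 + B * x := by
    refine image_le_of_deriv_right_le_deriv_boundary
      (fun x hx => (h x hx).2.1.continuousAt.continuousWithinAt)
      (fun x hx => (h x (Ico_subset_Icc_self hx)).2.1.hasDerivWithinAt) (by simp)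
      (B' := fun _ => B) (by fun_prop) (fun x _ => ?_)
      (fun x hx => (h x (Ico_subset_Icc_self hx)).2.2)
    simpa using (((hasDerivAt_id x).const_mul B).const_add (φ₁ 0)).hasDerivWithinAt
  have h2 := image_le_of_deriv_right_le_deriv_boundary (f := φ) (f' := φ₁) (a := 0) (b := s)
    (B := fun x => φ 0 + x * φ₁ 0 + B / 2 * x ^ 2) (B' := fun x => φ₁ 0 + B * x)
    (fun x hx => (h x hx).1.continuousAt.continuousWithinAt)
    (fun x hx => (h x (Ico_subset_Icc_self hx)).1.hasDerivWithinAt) (by simp) (by fun_prop)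
    (fun x _ => by
      have := ((((hasDerivAt_id x).mul_const (φ₁ 0)).const_add (φ 0)).add
        (((hasDerivAt_id x).pow 2).const_mul (B / 2))).hasDerivWithinAt (s := Ici x)
      refine this.congr_deriv ?_
      simp
      ring)
    (fun x hx => h1 x (Ico_subset_Icc_self hx))
  exact h2 (right_mem_Icc.2 hs)

theorem lena_taylor {φ φ₁ φ₂ : ℝ → ℝ} {s B : ℝ}
    (h : ∀ x, |x| ≤ |s| → HasDerivAt φ (φ₁ x) x ∧ HasDerivAt φ₁ (φ₂ x) x ∧ φ₂ x ≤ B) :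
    φ s ≤ φ 0 + s * φ₁ 0 + B / 2 * s ^ 2 := by
  rcases le_total 0 s with hs | hs
  · exact lena_taylor_pos hs fun x hx => h x (by
      rw [abs_of_nonneg hx.1, abs_of_nonneg hs]; exact hx.2)
  · have := lena_taylor_pos (φ := fun x => φ (-x)) (φ₁ := fun x => -φ₁ (-x))
      (φ₂ := fun x => φ₂ (-x)) (s := -s) (B := B) (by linarith) fun x hx => by
        obtain ⟨a1, a2, a3⟩ := h (-x) (by
          rw [abs_neg, abs_of_nonneg hx.1, abs_of_nonpos hs]; exact hx.2)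
        refine ⟨?_, ?_, a3⟩
        · exact (a1.comp x (hasDerivAt_neg x)).congr_deriv (by ring)
        · exact (a2.comp x (hasDerivAt_neg x)).neg.congr_deriv (by ring)
    simp only [neg_neg, neg_zero] at this
    nlinarith

theorem lena_smooth {Y : Type} [NormedAddCommGroup Y] [NormedSpace ℝ Y] {F : Y → Y} {z : ℝ → Y}
    {I : Set ℝ} (hI : IsOpen I) (hF : ∀ t ∈ I, ContDiffAt ℝ ∞ F (z t))
    (hz : ∀ t ∈ I, HasDerivAt z (F (z t)) t) : ContDiffOn ℝ ∞ z I := by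
  rw [contDiffOn_infty]
  intro n
  induction n with
  | zero => exact contDiffOn_zero.2 fun t ht => (hz t ht).continuousAt.continuousWithinAt
  | succ n ih =>
    have : ContDiffOn ℝ ((n : WithTop ℕ∞) + 1) z I := by
      rw [contDiffOn_succ_iff_deriv_of_isOpen hI]
      refine ⟨fun t ht => (hz t ht).differentiableAt.differentiableWithinAt, by simp, ?_⟩
      refine ContDiffOn.congr (f := fun t => F (z t)) (fun t ht => ?_) fun t ht => (hz t ht).deriv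
      exact ((hF t ht).of_le (nat_le_top' n)).comp_contDiffWithinAt t (ih t ht)
    exact_mod_cast this

theorem lena_piece (hn : Nonneg 𝒜) {c : Chart E M} (hc : c ∈ 𝒜.S) {δ ε₀ : ℝ} {X : E × E → E}
    (h : Nice c δ ε₀ X) {y u : ℝ → E} {W W' : ℝ × E → E} {α : E → ℝ} {a b κ : ℝ} {w : E}
    (hab : a ≤ b) (hα : Continuous α)
    (hy : ∀ t ∈ Icc a b, y t ∈ ball (0 : E) δ ∧ HasDerivAt y (u t) t ∧
      c.G (y t) (u t) (u t) = 1 ∧ ContinuousAt u t ∧ ContinuousAt W (t, w) ∧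
      ContinuousAt W' (t, w) ∧ 2 * κ ≤ c.G (y t) (Rm c.Γ (y t) (u t) (W (t, w)) (W (t, w))) (u t) ∧
      ∀ o, HasDerivAt (fun r => W (r, o)) (W' (t, o)) t ∧
        W' (t, o) + c.Γ (y t) (W (t, o)) (u t) = -(α o • u t))
    {ε : ℝ} (hε : 0 < ε) : ∀ᶠ p : ℝ × E in 𝓝 (0, w),
      (∀ t ∈ Icc a b, p.1 • W (t, p.2) ∈ ball (0 : E) δ) ∧
      𝒜.d (c.ψ.symm (X (y a, p.1 • W (a, p.2)))) (c.ψ.symm (X (y b, p.1 • W (b, p.2))))
        ≤ (1 - p.1 * α p.2 - (κ - ε) * p.1 ^ 2) * (b - a) := by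
  obtain ⟨J, J₁, hJ, hJ0⟩ := h.jacobi
  have hop : IsOpen (ball (0 : E) δ ×ˢ ball (0 : E) δ) := isOpen_ball.prod isOpen_ball
  have h0δ : (0 : E) ∈ ball (0 : E) δ := mem_ball_self h.δpos
  set arg : (ℝ × E) × ℝ → ℝ × (E × E) × (E × E) := fun x =>
    (x.1.1, (y x.2, W (x.2, x.1.2)), (u x.2, W' (x.2, x.1.2))) with harg
  set pt : (ℝ × E) × ℝ → E × E := fun x => (y x.2, x.1.1 • W (x.2, x.1.2)) with hpt
  set φ₂ : (ℝ × E) × ℝ → ℝ := fun x =>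
    2 * (c.G (X (pt x)) (Rm c.Γ (X (pt x)) (fderiv ℝ X (pt x) (0, W (x.2, x.1.2))) (J (arg x))
      (fderiv ℝ X (pt x) (0, W (x.2, x.1.2)))) (J (arg x))
      + c.G (X (pt x)) (J₁ (arg x)) (J₁ (arg x))) with hφ₂
  set B : ℝ := 2 * (α w ^ 2 - 2 * κ + ε) with hB
  have hloc : ∀ t ∈ Icc a b, ∀ᶠ x : (ℝ × E) × ℝ in 𝓝 ((0, w), t),
      x.1.1 • W (x.2, x.1.2) ∈ ball (0 : E) δ ∧ φ₂ x < B := by
    intro t ht
    obtain ⟨y1, y2, y3, y4, y5, y6, y7, y8⟩ := hy t ht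
    have cW : ContinuousAt (fun x : (ℝ × E) × ℝ => W (x.2, x.1.2)) ((0, w), t) :=
      ContinuousAt.comp (f := fun x : (ℝ × E) × ℝ => (x.2, x.1.2)) y5 (by fun_prop)
    have cW' : ContinuousAt (fun x : (ℝ × E) × ℝ => W' (x.2, x.1.2)) ((0, w), t) :=
      ContinuousAt.comp (f := fun x : (ℝ × E) × ℝ => (x.2, x.1.2)) y6 (by fun_prop)
    have cy : ContinuousAt (fun x : (ℝ × E) × ℝ => y x.2) ((0, w), t) :=
      ContinuousAt.comp (f := fun x : (ℝ × E) × ℝ => x.2) y2.continuousAt (by fun_prop)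
    have cu : ContinuousAt (fun x : (ℝ × E) × ℝ => u x.2) ((0, w), t) :=
      ContinuousAt.comp (f := fun x : (ℝ × E) × ℝ => x.2) y4 (by fun_prop)
    have cs : ContinuousAt (fun x : (ℝ × E) × ℝ => x.1.1) ((0, w), t) := by fun_prop
    have carg : ContinuousAt arg ((0, w), t) := cs.prodMk ((cy.prodMk cW).prodMk (cu.prodMk cW'))
    have cpt : ContinuousAt pt ((0, w), t) := cy.prodMk (cs.smul cW)
    have ept : pt ((0, w), t) = (y t, 0) := by simp [hpt]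
    have hXa : ContDiffAt ℝ ∞ X (pt ((0, w), t)) := by
      rw [ept]; exact h.sm.contDiffAt (hop.mem_nhds ⟨y1, h0δ⟩)
    have eX : X (pt ((0, w), t)) = y t := by rw [ept, h.zero _ y1]
    have hyt : y t ∈ c.ψ.target :=
      h.mem _ (ball_subset_ball (by linarith [h.δpos]) y1)
    have cX : ContinuousAt (fun x => X (pt x)) ((0, w), t) := hXa.continuousAt.comp cpt
    have cD : ContinuousAt (fun x => fderiv ℝ X (pt x)) ((0, w), t) :=
      (cda_fderiv hXa).continuousAt.comp cpt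
    have cT : ContinuousAt (fun x => fderiv ℝ X (pt x) (0, W (x.2, x.1.2))) ((0, w), t) :=
      cD.clm_apply (continuousAt_const.prodMk cW)
    have cG : ContinuousAt (fun x => c.G (X (pt x))) ((0, w), t) :=
      ContinuousAt.comp (by
        rw [eX]; exact (c.chr.smG.contDiffAt (c.chr.opn.mem_nhds hyt)).continuousAt) cX
    have cR : ContinuousAt (fun x => Rm c.Γ (X (pt x))) ((0, w), t) :=
      ContinuousAt.comp (g := Rm c.Γ) (f := fun x => X (pt x)) (by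
        rw [eX]; exact ((rm_smooth c.chr).contDiffAt (c.chr.opn.mem_nhds hyt)).continuousAt) cX
    obtain ⟨j1, j2, -, -⟩ := hJ 0 (y t) (W (t, w)) (u t) (W' (t, w)) y1 (by simpa using h0δ)
    have cJ : ContinuousAt (fun x => J (arg x)) ((0, w), t) := ContinuousAt.comp j1 carg
    have cJ₁ : ContinuousAt (fun x => J₁ (arg x)) ((0, w), t) := ContinuousAt.comp j2 carg
    have cφ : ContinuousAt φ₂ ((0, w), t) :=
      continuousAt_const.mul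
        (((cG.clm_apply (((cR.clm_apply cT).clm_apply cJ).clm_apply cT)).clm_apply cJ).add
          ((cG.clm_apply cJ₁).clm_apply cJ₁))
    refine Filter.Eventually.and ?_ (cφ.eventually (gt_mem_nhds ?_))
    · refine (cs.smul cW).eventually_mem (isOpen_ball.mem_nhds ?_)
      simpa using h0δ
    · obtain ⟨k1, k2⟩ := hJ0 (y t) (W (t, w)) (u t) (W' (t, w)) y1
      have e1 : J (arg ((0, w), t)) = u t := k1
      have e2 : J₁ (arg ((0, w), t)) = -(α w • u t) := k2.trans (y8 w).2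
      simp only [hφ₂]
      rw [eX, e1, e2, ept, h.vel _ y1, (hn.alg hc hyt).anti]
      simp only [map_neg, map_smul, neg_apply, smul_apply, smul_eq_mul, y3]
      simp only [hB]
      nlinarith
  have hunif := (isCompact_Icc (a := a) (b := b)).eventually_forall_of_forall_eventually
    (P := fun (p : ℝ × E) (t : ℝ) => p.1 • W (t, p.2) ∈ ball (0 : E) δ ∧ φ₂ (p, t) < B) hloc
  obtain ⟨ρ, hρ, hball⟩ := Metric.eventually_nhds_iff_ball.1 hunif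
  have ev1 : ∀ᶠ p : ℝ × E in 𝓝 (0, w), 0 < 1 - p.1 * α p.2 - (κ - ε) * p.1 ^ 2 := by
    have : ContinuousAt (fun p : ℝ × E => 1 - p.1 * α p.2 - (κ - ε) * p.1 ^ 2) (0, w) := by
      fun_prop
    refine this.eventually (lt_mem_nhds ?_)
    simp
  have ev2 : ∀ᶠ p : ℝ × E in 𝓝 (0, w),
      0 < α p.2 ^ 2 - α w ^ 2 + ε + 2 * p.1 * α p.2 * (κ - ε) := by
    have : ContinuousAt
        (fun p : ℝ × E => α p.2 ^ 2 - α w ^ 2 + ε + 2 * p.1 * α p.2 * (κ - ε)) (0, w) := by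
      fun_prop
    refine this.eventually (lt_mem_nhds ?_)
    simpa using hε
  filter_upwards [ball_mem_nhds ((0 : ℝ), w) hρ, ev1, ev2] with p hp e1 e2
  obtain ⟨s, o⟩ := p
  have hsub : ∀ x, |x| ≤ |s| → (x, o) ∈ ball ((0 : ℝ), w) ρ := by
    intro x hx
    rw [mem_ball, Prod.dist_eq, max_lt_iff] at hp ⊢
    refine ⟨lt_of_le_of_lt ?_ hp.1, hp.2⟩
    simpa [Real.dist_eq] using hx
  have hb0 := hball _ hp
  refine ⟨fun t ht => (hb0 t ht).1, ?_⟩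
  have hdX : ∀ t ∈ Icc a b, HasDerivAt (fun r => X (y r, s • W (r, o)))
      (fderiv ℝ X (y t, s • W (t, o)) (u t, s • W' (t, o))) t := by
    intro t ht
    obtain ⟨y1, y2, -, -, -, -, -, y8⟩ := hy t ht
    have hXa : ContDiffAt ℝ ∞ X (y t, s • W (t, o)) :=
      h.sm.contDiffAt (hop.mem_nhds ⟨y1, (hb0 t ht).1⟩)
    exact HasFDerivAt.comp_hasDerivAt (l := X) (f := fun r => (y r, s • W (r, o))) t
      (cda_hasF hXa) (y2.prodMk ((y8 o).1.const_smul s))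
  have htg : ∀ t ∈ Icc a b, X (y t, s • W (t, o)) ∈ c.ψ.target := fun t ht =>
    h.mem _ (h.mem_ball (hy t ht).1 (hb0 t ht).1)
  refine d_le_of_curve (γ := fun r => c.ψ.symm (X (y r, s • W (r, o)))) hab e1.le
    (c.ψ.continuousOn_symm.comp (fun t ht => (hdX t ht).continuousAt.continuousWithinAt) htg)
    fun t ht => ?_
  have ht' := Ico_subset_Icc_self ht
  obtain ⟨y1, y2, y3, -, -, -, -, y8⟩ := hy t ht'
  refine ⟨c, hc, c.ψ.map_target (htg t ht'), _, ((hdX t ht').congr_of_eventuallyEq ?_).hasDerivWithinAt,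
    ?_⟩
  · filter_upwards [(hdX t ht').continuousAt.eventually
      (c.ψ.open_target.mem_nhds (htg t ht'))] with r hr
    exact c.ψ.right_inv hr
  · rw [c.ψ.right_inv (htg t ht')]
    set Y : ℝ → E := fun r => X (y t, r • W (t, o)) with hY
    set Jr : ℝ → E := fun r => J (r, (y t, W (t, o)), (u t, W' (t, o))) with hJr
    set Jr₁ : ℝ → E := fun r => J₁ (r, (y t, W (t, o)), (u t, W' (t, o))) with hJr₁
    have key := lena_taylor (φ := fun r => c.G (Y r) (Jr r) (Jr r))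
      (φ₁ := fun r => 2 * c.G (Y r) (Jr₁ r) (Jr r)) (φ₂ := fun r => φ₂ ((r, o), t)) (s := s)
      (B := B) fun x hx => by
        obtain ⟨b1, b2⟩ := hball _ (hsub x hx) t ht'
        obtain ⟨-, -, -, jac⟩ := hJ x (y t) (W (t, o)) (u t) (W' (t, o)) y1 b1
        have hYx : Y x ∈ c.ψ.target := h.mem _ (h.mem_ball y1 b1)
        refine ⟨?_, ?_, b2.le⟩
        · refine (cov_inner c.chr hYx jac.dy jac.dJ jac.dJ).congr_deriv ?_
          rw [c.chr.symm _ hYx (Jr x)]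
          ring
        · exact (cov_inner c.chr hYx jac.dy jac.dJ₁ jac.dJ).const_mul 2
    obtain ⟨-, -, j3, -⟩ := hJ s (y t) (W (t, o)) (u t) (W' (t, o)) y1 (hb0 t ht').1
    obtain ⟨k1, k2⟩ := hJ0 (y t) (W (t, o)) (u t) (W' (t, o)) y1
    have e3 : Y 0 = y t := by simp [hY, h.zero _ y1]
    have e4 : Jr 0 = u t := k1
    have e5 : Jr₁ 0 = -(α o • u t) := k2.trans (y8 o).2
    have e6 : Jr s = fderiv ℝ X (y t, s • W (t, o)) (u t, s • W' (t, o)) := j3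
    simp only [e3, e4, e5, e6, map_neg, map_smul, neg_apply, smul_apply, smul_eq_mul, y3] at key
    refine key.trans ?_
    simp only [hB]
    have e7 := mul_nonneg (sq_nonneg s) e2.le
    have e8 := sq_nonneg ((κ - ε) * s ^ 2)
    simp only at e7
    nlinarith

/-
TASK LenLocal.  Let c be normalised at σ t₀, Nice c δ ε X, y = c.ψ ∘ σ with velocity u near t₀
(GeoAt.chart; (y, u) is smooth near t₀: it agrees with a ray of X, ray_eq, or bootstrap).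
exists_fund for L t = -(Γ (y t) (u t)) gives the parallel transport Φ t on ball t₀ η (Φ t is
invertible: it is a G-isometry by cov_inner, and Φ t u(t₀) = u t by the uniqueness clause).
Put P t = Φ t ∘ (Φ t₁)⁻¹ ∘ P₁, W t o = P t (o - (t/r) ⟪v,o⟫ v), so the t-derivative of W is
W' = -Γ u W - (⟪v,o⟫/r) u.  For small s the curve t ↦ X (y t, s W t) joins z₁ to z₂ (ray_iff) and
has velocity J (s, (y, W), (u, W')) of Nice.jacobi.  φ s = G (X (y, s W)) J J has φ 0 = 1,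
φ' = 2 G J₁ J, φ'(0) = -2 ⟪v,o⟫/r, φ'' = 2 G J₁ J₁ - 2 G (Rm J T T) J with T the velocity of the
ray (cov_inner, anti), φ''(0) = 2 ⟪v,o⟫²/r² - 2 k(t, o), k = G (Rm u W W) u ≥ 0.  φ'' is continuous
in (s, t, o), so uniformly for t in an interval [a, b] ⊆ [t₁, t₂] on which k(t, w) ≥ 2 κ' ≥ 0
(compactness, IsCompact.eventually_forall_of_forall_eventually) Taylor's inequality gives
φ s ≤ (1 - s ⟪v,o⟫/r - (κ' - ε) s²)² eventually; then d_le_of_curve on [a, b].  If t₁ < t₂ and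
k(t₁, w) > 0 use [t₁, b] with κ' = k(t₁, w)/4 and [b, t₂] with κ' = 0, κ = (b - t₁) κ'.
-/
theorem len_local (hn : Nonneg 𝒜) {σ : ℝ → M} {r : ℝ} (hr : 0 < r)
    (hσ : ∀ t ∈ Icc 0 r, GeoAt 𝒜 σ t ∧ UnitAt 𝒜 σ t) {v : E} (hv : ‖v‖ = 1) {t₀ : ℝ}
    (ht₀ : t₀ ∈ Icc 0 r) :
    ∃ c ∈ 𝒜.S, ∃ η > 0, (∀ t ∈ Icc 0 r, |t - t₀| < η → σ t ∈ c.ψ.source) ∧
      ∀ t₁ ∈ Icc 0 r, ∀ t₂ ∈ Icc 0 r, |t₁ - t₀| < η → |t₂ - t₀| < η → t₁ ≤ t₂ →
      ∀ P₁, Frame σ v c P₁ t₁ → ∃ P₂, Frame σ v c P₂ t₂ ∧ ∀ w, ∃ κ ≥ 0,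
        (t₁ < t₂ → 0 < c.G (c.ψ (σ t₁)) (Rm c.Γ (c.ψ (σ t₁)) (P₁ v)
          (P₁ (w - (t₁ / r * ⟪v, w⟫) • v)) (P₁ (w - (t₁ / r * ⟪v, w⟫) • v))) (P₁ v) → 0 < κ) ∧
        Est 𝒜 σ r v c c P₁ P₂ t₁ t₂ w κ := by
  obtain ⟨c, hc, hN⟩ := 𝒜.norm (σ t₀)
  obtain ⟨δ, ε₀, X, -, h⟩ := exists_nice hN one_pos
  obtain ⟨u, hu⟩ := (hσ t₀ ht₀).1.chart hc hN.1
  set y : ℝ → E := c.ψ ∘ σ with hy
  have hy0 : y t₀ = 0 := hN.2.1
  have ev : ∀ᶠ t in 𝓝 t₀, σ t ∈ c.ψ.source ∧ y t ∈ ball (0 : E) δ ∧ HasDerivAt y (u t) t ∧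
      HasDerivAt u (-(c.Γ (y t) (u t) (u t))) t := by
    refine ((hσ t₀ ht₀).1.continuousAt.eventually_mem (c.ψ.open_source.mem_nhds hN.1)).and
      ((hu.self_of_nhds.1.continuousAt.eventually_mem (isOpen_ball.mem_nhds ?_)).and hu)
    rw [hy0]; exact mem_ball_self h.δpos
  obtain ⟨η₁, hη₁, hb₁⟩ := Metric.eventually_nhds_iff_ball.1 ev
  have htg : ∀ t ∈ ball t₀ η₁, y t ∈ c.ψ.target := fun t ht => c.ψ.map_source (hb₁ t ht).1
  have hsm : ContDiffOn ℝ ∞ (fun t => (y t, u t)) (ball t₀ η₁) :=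
    lena_smooth (F := fld c.Γ) isOpen_ball (fun t ht => fld_smooth c.chr (htg t ht))
      fun t ht => (hb₁ t ht).2.2.1.prodMk (hb₁ t ht).2.2.2
  have hL : ∀ᶠ t in 𝓝 t₀, ContDiffAt ℝ ∞ (fun t => -(c.Γ (y t) (u t))) t := by
    filter_upwards [ball_mem_nhds t₀ hη₁] with t ht
    have h1 := hsm.contDiffAt (isOpen_ball.mem_nhds ht)
    exact ((ContDiffAt.comp (f := y) t (c.chr.smΓ.contDiffAt (c.chr.opn.mem_nhds (htg t ht)))
      h1.fst).clm_apply h1.snd).neg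
  obtain ⟨η₂, hη₂, Φ, hΦ0, hΦd, hΦu⟩ := PairAux.exists_fund hL
  set η := min η₁ η₂ with hη
  have hη0 : 0 < η := lt_min hη₁ hη₂
  have s₁ : ball t₀ η ⊆ ball t₀ η₁ := ball_subset_ball (min_le_left _ _)
  have s₂ : ball t₀ η ⊆ ball t₀ η₂ := ball_subset_ball (min_le_right _ _)
  have hΦd' : ∀ t ∈ ball t₀ η, ∀ a, HasDerivAt (fun s => Φ s a) (0 - c.Γ (y t) (u t) (Φ t a)) t :=
    fun t ht a => by simpa using hΦd t (s₂ ht) a
  have hiso : ∀ t ∈ ball t₀ η, ∀ a b, c.G (y t) (Φ t a) (Φ t b) = ⟪a, b⟫ := by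
    intro t ht a b
    have hd : ∀ t ∈ ball t₀ η, HasDerivAt (fun s => c.G (y s) (Φ s a) (Φ s b)) 0 t := by
      intro t ht
      simpa using cov_inner c.chr (htg t (s₁ ht)) (hb₁ t (s₁ ht)).2.2.1 (hΦd' t ht a) (hΦd' t ht b)
    have := (convex_ball t₀ η).is_const_of_fderivWithin_eq_zero (𝕜 := ℝ)
      (f := fun s => c.G (y s) (Φ s a) (Φ s b))
      (fun r hr => (hd r hr).differentiableAt.differentiableWithinAt)
      (fun r hr => by
        rw [fderivWithin_of_isOpen isOpen_ball hr, (hd r hr).hasFDerivAt.fderiv]; simp)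
      ht (mem_ball_self hη0)
    rw [this, hΦ0, hy0]
    exact hN.2.2 a b
  have hinj : ∀ t ∈ ball t₀ η, Function.Injective (Φ t) := by
    intro t ht
    rw [injective_iff_map_eq_zero]
    intro a ha
    have := hiso t ht a a
    rw [ha, map_zero] at this
    exact inner_self_eq_zero.1 this.symm
  obtain ⟨a₀, ha₀⟩ := hΦu (ball t₀ η) u isOpen_ball (convex_ball t₀ η).isPreconnected s₂
    ⟨t₀, mem_ball_self hη0⟩ fun t ht => by simpa using (hb₁ t (s₁ ht)).2.2.2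
  have hΦc : ContinuousOn Φ (ball t₀ η) := continuousOn_clm_apply.2 fun a t ht =>
    (hΦd' t ht a).continuousAt.continuousWithinAt
  have hmem : ∀ t, |t - t₀| < η → t ∈ ball t₀ η := fun t ht => by rwa [mem_ball, Real.dist_eq]
  refine ⟨c, hc, η, hη0, fun t _ ht => (hb₁ t (s₁ (hmem t ht))).1, ?_⟩
  intro t₁ ht₁ t₂ ht₂ k₁ k₂ h12 P₁ hP₁
  have m₁ := hmem t₁ k₁
  have m₂ := hmem t₂ k₂
  have hI : ∀ t ∈ Icc t₁ t₂, t ∈ ball t₀ η := fun t ht =>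
    (convex_ball t₀ η).ordConnected.out m₁ m₂ ht
  have hinv := PairAux.isInvertible_of_injective (hinj t₁ m₁)
  set Q : E →L[ℝ] E := (Φ t₁).inverse.comp P₁ with hQ
  have hQ1 : ∀ a, Φ t₁ (Q a) = P₁ a := fun a => hinv.inverse_apply_eq.1 rfl |>.symm
  have hQi : ∀ a b, ⟪Q a, Q b⟫ = ⟪a, b⟫ := fun a b => by
    rw [← hiso t₁ m₁, hQ1, hQ1]; exact hP₁.2.1 a b
  have hQv : Q v = a₀ := by
    refine hinj t₁ m₁ ?_
    rw [hQ1, ← ha₀ t₁ m₁]
    exact hP₁.2.2.unique (hb₁ t₁ (s₁ m₁)).2.2.1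
  have hPv : ∀ t ∈ ball t₀ η, Φ t (Q v) = u t := fun t ht => by rw [hQv, ← ha₀ t ht]
  refine ⟨(Φ t₂).comp Q, ⟨(hb₁ t₂ (s₁ m₂)).1, fun a b => (hiso t₂ m₂ _ _).trans (hQi a b), ?_⟩,
    fun w => ?_⟩
  · rw [ContinuousLinearMap.comp_apply, hPv t₂ m₂]
    exact (hb₁ t₂ (s₁ m₂)).2.2.1
  set W : ℝ × E → E := fun x => Φ x.1 (Q (x.2 - (x.1 / r * ⟪v, x.2⟫) • v)) with hW
  set α : E → ℝ := fun o => ⟪v, o⟫ / r with hα
  set W' : ℝ × E → E := fun x => -(α x.2 • u x.1) - c.Γ (y x.1) (W x) (u x.1) with hW'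
  have hαc : Continuous α := by fun_prop
  have cW : ∀ t ∈ ball t₀ η, ContinuousAt W (t, w) := by
    intro t ht
    have c1 : ContinuousAt (fun x : ℝ × E => Φ x.1) (t, w) :=
      ContinuousAt.comp (f := fun x : ℝ × E => x.1) (hΦc.continuousAt (isOpen_ball.mem_nhds ht))
        continuousAt_fst
    exact c1.clm_apply (by fun_prop)
  have cu : ∀ t ∈ ball t₀ η, ContinuousAt u t := fun t ht =>
    (hb₁ t (s₁ ht)).2.2.2.continuousAt
  have cy : ∀ t ∈ ball t₀ η, ContinuousAt y t := fun t ht =>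
    (hb₁ t (s₁ ht)).2.2.1.continuousAt
  set k : ℝ → ℝ := fun t => c.G (y t) (Rm c.Γ (y t) (u t) (W (t, w)) (W (t, w))) (u t) with hk
  have piece : ∀ a b κ, t₁ ≤ a → a ≤ b → b ≤ t₂ → (∀ t ∈ Icc a b, 2 * κ ≤ k t) → ∀ ε > 0,
      ∀ᶠ p : ℝ × E in 𝓝 (0, w), (∀ t ∈ Icc a b, p.1 • W (t, p.2) ∈ ball (0 : E) δ) ∧
        𝒜.d (c.ψ.symm (X (y a, p.1 • W (a, p.2)))) (c.ψ.symm (X (y b, p.1 • W (b, p.2))))
          ≤ (1 - p.1 * α p.2 - (κ - ε) * p.1 ^ 2) * (b - a) := by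
    intro a b κ h1 h2 h3 h4 ε hε
    refine lena_piece hn hc h (u := u) (W' := W') h2 hαc (fun t ht => ?_) hε
    have m := hI t ⟨h1.trans ht.1, ht.2.trans h3⟩
    have q := hb₁ t (s₁ m)
    refine ⟨q.2.1, q.2.2.1, ?_, cu t m, cW t m, ?_, h4 t ht, fun o => ⟨?_, by simp [hW']⟩⟩
    · rw [← hPv t m, hiso t m, hQi, real_inner_self_eq_norm_sq, hv]; norm_num
    · have c1 : ContinuousAt (fun x : ℝ × E => u x.1) (t, w) :=
        ContinuousAt.comp (f := fun x : ℝ × E => x.1) (cu t m) continuousAt_fst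
      have c0 : ContinuousAt (fun x : ℝ × E => y x.1) (t, w) :=
        ContinuousAt.comp (g := y) (f := fun x : ℝ × E => x.1) (cy t m) continuousAt_fst
      have c2 : ContinuousAt (fun x : ℝ × E => c.Γ (y x.1)) (t, w) :=
        ContinuousAt.comp (g := c.Γ) (f := fun x : ℝ × E => y x.1)
          (c.chr.smΓ.contDiffAt (c.chr.opn.mem_nhds (htg t (s₁ m)))).continuousAt c0
      have c3 : ContinuousAt (fun x : ℝ × E => α x.2) (t, w) := by fun_prop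
      exact (c3.smul c1).neg.sub ((c2.clm_apply (cW t m)).clm_apply c1)
    · have e : (fun r' => W (r', o))
          = fun r' => Φ r' (Q o) - (r' / r * ⟪v, o⟫) • Φ r' (Q v) := by
        funext r'; simp [hW]
      have d1 : HasDerivAt (fun r' : ℝ => r' / r * ⟪v, o⟫) (1 / r * ⟪v, o⟫) t :=
        ((hasDerivAt_id t).div_const r).mul_const _
      rw [e]
      refine ((hΦd' t m (Q o)).sub (d1.smul (hΦd' t m (Q v)))).congr_deriv ?_
      simp only [hW', hW, hα, map_sub, map_smul, hPv t m, sub_apply, smul_apply,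
        c.chr.symΓ _ (htg t (s₁ m)) (Φ t (Q o)) (u t)]
      rw [one_div, inv_mul_eq_div]
      module
  have hk0 : ∀ t ∈ Icc t₁ t₂, 0 ≤ k t := fun t ht => hn c hc _ (htg t (s₁ (hI t ht))) _ _
  have eW₁ : ∀ o, W (t₁, o) = P₁ (o - (t₁ / r * ⟪v, o⟫) • v) := fun o => hQ1 _
  have fin : ∀ b κ, t₁ ≤ b → b ≤ t₂ → (∀ t ∈ Icc t₁ b, 2 * κ ≤ k t) →
      Est 𝒜 σ r v c c P₁ ((Φ t₂).comp Q) t₁ t₂ w ((b - t₁) * κ) := by
    intro b κ h1 h2 h3 ε hε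
    have hε' : 0 < ε / (t₂ - t₁ + 1) := div_pos hε (by linarith)
    filter_upwards [piece t₁ b κ le_rfl h1 h2 h3 _ hε', piece b t₂ 0 h1 h2 le_rfl
      (fun t ht => by simpa using hk0 t ⟨h1.trans ht.1, ht.2⟩) _ hε'] with p p1 p2 z₁ z₂ r₁ r₂
    rw [← eW₁] at r₁
    have e1 := (h.ray_iff hc (hb₁ t₁ (s₁ m₁)).1 (hb₁ t₁ (s₁ m₁)).2.1
      (p1.1 t₁ (left_mem_Icc.2 h1)) z₁).1 r₁
    have e2 := (h.ray_iff hc (hb₁ t₂ (s₁ m₂)).1 (hb₁ t₂ (s₁ m₂)).2.1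
      (p2.1 t₂ (right_mem_Icc.2 h2)) z₂).1 r₂
    rw [e1, e2]
    refine (d_triangle _ (c.ψ.symm (X (y b, p.1 • W (b, p.2)))) _).trans
      ((add_le_add p1.2 p2.2).trans ?_)
    have e3 : ε / (t₂ - t₁ + 1) * (t₂ - t₁) ≤ ε := by
      rw [div_mul_eq_mul_div, div_le_iff₀ (by linarith)]
      nlinarith
    have e4 := mul_le_mul_of_nonneg_right e3 (sq_nonneg p.1)
    simp only [hα]
    rw [mul_div_assoc]
    nlinarith
  by_cases hpos : t₁ < t₂ ∧ 0 < k t₁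
  · have ck : ContinuousAt k t₁ := by
      have c1 : ContinuousAt (fun t => W (t, w)) t₁ :=
        ContinuousAt.comp (f := fun t : ℝ => (t, w)) (cW t₁ m₁) (by fun_prop)
      have c2 : ContinuousAt (fun t => c.G (y t)) t₁ :=
        (c.chr.smG.contDiffAt (c.chr.opn.mem_nhds (htg t₁ (s₁ m₁)))).continuousAt.comp (cy t₁ m₁)
      have c3 : ContinuousAt (fun t => Rm c.Γ (y t)) t₁ :=
        ((rm_smooth c.chr).contDiffAt (c.chr.opn.mem_nhds (htg t₁ (s₁ m₁)))).continuousAt.comp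
          (cy t₁ m₁)
      exact (c2.clm_apply (((c3.clm_apply (cu t₁ m₁)).clm_apply c1).clm_apply c1)).clm_apply
        (cu t₁ m₁)
    obtain ⟨θ, hθ, hθ'⟩ := Metric.eventually_nhds_iff_ball.1
      (ck.eventually (lt_mem_nhds (show k t₁ / 2 < k t₁ by linarith [hpos.2])))
    have hb1 : t₁ < min t₂ (t₁ + θ / 2) := lt_min hpos.1 (by linarith)
    refine ⟨(min t₂ (t₁ + θ / 2) - t₁) * (k t₁ / 4), mul_nonneg (by linarith) (by linarith [hpos.2]),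
      fun _ _ => mul_pos (by linarith) (by linarith [hpos.2]),
      fin _ _ hb1.le (min_le_left _ _) fun t ht => ?_⟩
    have := hθ' t (by
      rw [mem_ball, Real.dist_eq, abs_of_nonneg (by linarith [ht.1])]
      linarith [ht.2, min_le_right t₂ (t₁ + θ / 2)])
    linarith
  · refine ⟨0, le_rfl, fun a1 a2 => ?_, ?_⟩
    · refine absurd ⟨a1, ?_⟩ hpos
      simp only [hk]
      rw [eW₁, ← hPv t₁ m₁, hQ1]
      exact a2
    · simpa using fin t₁ 0 le_rfl h12 fun t ht => by simpa using hk0 t ⟨ht.1, ht.2.trans h12⟩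

end Pool.Agent.MP_3a00c0_gt

end

-- part MP_3a00c0_gt.Len
section

/-! The second variation of length along a geodesic in nonnegative curvature. -/

open Set Metric Filter Topology
open scoped ContDiff RealInnerProductSpace

set_option maxSynthPendingDepth 3
set_option linter.unusedSectionVars false

namespace Pool.Agent.MP_3a00c0_gt

open Pool.Agent.MP_3fed84_gt

variable {E : Type} [NormedAddCommGroup E] [InnerProductSpace ℝ E] [FiniteDimensional ℝ E]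
  {M : Type} [TopologicalSpace M] [T2Space M] [PreconnectedSpace M] {𝒜 : Atlas E M}

/-- Short rays exist. -/
theorem len_ray_exists {c : Chart E M} (hc : c ∈ 𝒜.S) {m : M} (hm : m ∈ c.ψ.source) :
    ∀ᶠ w in 𝓝 (0 : E), ∃ z, Ray 𝒜 c m w z := by
  obtain ⟨c', hc', hn⟩ := 𝒜.norm m
  obtain ⟨δ, ε, X, -, hN⟩ := exists_nice hn one_pos
  have ht : Tendsto (fderiv ℝ (c.ex c' id) (c.ψ m)) (𝓝 0) (𝓝 0) := by
    simpa using (fderiv ℝ (c.ex c' id) (c.ψ m)).continuous.tendsto 0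
  filter_upwards [ht.eventually (ball_mem_nhds 0 hN.δpos)] with w hw
  exact ⟨_, Ray.of_change hc hc' hm
    ((hN.ray_iff hc' hn.1 (by rw [hn.2.1]; exact mem_ball_self hN.δpos) hw _).2 rfl)⟩

theorem len_tendsto (P : E →L[ℝ] E) (a : ℝ) (v w : E) :
    Tendsto (fun p : ℝ × E => p.1 • P (p.2 - (a * ⟪v, p.2⟫) • v)) (𝓝 (0, w)) (𝓝 0) := by
  have hc : Continuous fun p : ℝ × E => p.1 • P (p.2 - (a * ⟪v, p.2⟫) • v) := by fun_prop
  simpa using hc.tendsto (0, w)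

/-- The inductive statement at time t in the chart c. -/
def LenData (𝒜 : Atlas E M) (σ : ℝ → M) (r : ℝ) (v : E) (c₀ c : Chart E M) (P : E →L[ℝ] E)
    (t : ℝ) : Prop :=
  Frame σ v c P t ∧
    (t = 0 → ∀ w, 0 < ⟪Rm c₀.Γ 0 v w w, v⟫ →
      0 < c.G (c.ψ (σ t)) (Rm c.Γ (c.ψ (σ t)) (P v) (P w) (P w)) (P v)) ∧
    ∀ w, ∃ κ ≥ 0, (0 < t → 0 < ⟪Rm c₀.Γ 0 v w w, v⟫ → 0 < κ) ∧
      Est 𝒜 σ r v c₀ c (ContinuousLinearMap.id ℝ E) P 0 t w κ

theorem len_change {σ : ℝ → M} {r t : ℝ} {v : E} {c₀ c c' : Chart E M} (hc : c ∈ 𝒜.S)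
    (hc' : c' ∈ 𝒜.S) (hσ : ContinuousAt σ t) (ht : σ t ∈ c'.ψ.source) {P : E →L[ℝ] E}
    (h : LenData 𝒜 σ r v c₀ c P t) :
    LenData 𝒜 σ r v c₀ c' ((fderiv ℝ (c.ex c' id) (c.ψ (σ t))).comp P) t := by
  obtain ⟨⟨h1, h2, h3⟩, h4, h5⟩ := h
  have hco := (LI.id 𝒜 (σ t)).coord hc hc' h1 ht
  have he : c.ex c' id (c.ψ (σ t)) = c'.ψ (σ t) := c.ex_apply c' id h1
  have hiso : ∀ a b, c'.G (c'.ψ (σ t)) (fderiv ℝ (c.ex c' id) (c.ψ (σ t)) a)
      (fderiv ℝ (c.ex c' id) (c.ψ (σ t)) b) = c.G (c.ψ (σ t)) a b := fun a b => by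
    rw [← he]; exact hco.self_of_nhds.2.2.2 a b
  refine ⟨⟨ht, fun a b => ?_, vel_change hc hc' hσ h1 ht h3⟩, fun h0 w hw => ?_, fun w => ?_⟩
  · simp only [ContinuousLinearMap.comp_apply]
    rw [hiso, h2]
  · simp only [ContinuousLinearMap.comp_apply]
    have hr := rm_iso c.chr c'.chr hco.self_of_nhds.1 hco.self_of_nhds.2.1
      (hco.mono fun z hz => hz.2.2) (P v) (P w) (P w)
    rw [he] at hr
    rw [hr, hiso]
    exact h4 h0 w hw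
  · obtain ⟨κ, k0, k1, k2⟩ := h5 w
    refine ⟨κ, k0, k1, fun ε hε => ?_⟩
    filter_upwards [k2 ε hε] with p hp z₁ z₂ r₁ r₂
    refine hp z₁ z₂ r₁ (Ray.of_change hc hc' h1 ?_)
    rw [map_smul]
    exact r₂

theorem len_zero {σ : ℝ → M} {r : ℝ} {v : E} {c₀ : Chart E M} (hc₀ : c₀ ∈ 𝒜.S)
    (hn₀ : c₀.NormAt (σ 0)) (hv : HasDerivAt (c₀.ψ ∘ σ) v 0) :
    LenData 𝒜 σ r v c₀ c₀ (ContinuousLinearMap.id ℝ E) 0 := by
  refine ⟨⟨hn₀.1, fun a b => ?_, hv⟩, fun _ w hw => ?_, fun w => ⟨0, le_rfl,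
    fun h => absurd h (lt_irrefl _), fun ε hε => ?_⟩⟩
  · rw [hn₀.2.1]; exact hn₀.2.2 a b
  · rw [hn₀.2.1, hn₀.2.2]; exact hw
  · obtain ⟨δ, ε', X, -, hN⟩ := exists_nice hn₀ one_pos
    filter_upwards [(len_tendsto (ContinuousLinearMap.id ℝ E) (0 / r) v w).eventually
      (ball_mem_nhds 0 hN.δpos)] with p hp z₁ z₂ r₁ r₂
    have hq : c₀.ψ (σ 0) ∈ ball (0 : E) δ := by rw [hn₀.2.1]; exact mem_ball_self hN.δpos
    rw [(hN.ray_iff hc₀ hn₀.1 hq hp _).1 r₁, (hN.ray_iff hc₀ hn₀.1 hq hp _).1 r₂, d_self]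
    have : 0 ≤ ε * p.1 ^ 2 := by positivity
    linarith

theorem len_step {σ : ℝ → M} {r t₁ t₂ : ℝ} {v : E} {c₀ c : Chart E M} (hc : c ∈ 𝒜.S)
    (h0 : 0 ≤ t₁) (h12 : t₁ < t₂) {P₁ P₂ : E →L[ℝ] E} (h : LenData 𝒜 σ r v c₀ c P₁ t₁)
    (hF : Frame σ v c P₂ t₂)
    (hE : ∀ w, ∃ κ ≥ 0,
      (t₁ < t₂ → 0 < c.G (c.ψ (σ t₁)) (Rm c.Γ (c.ψ (σ t₁)) (P₁ v)
        (P₁ (w - (t₁ / r * ⟪v, w⟫) • v)) (P₁ (w - (t₁ / r * ⟪v, w⟫) • v))) (P₁ v) → 0 < κ) ∧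
      Est 𝒜 σ r v c c P₁ P₂ t₁ t₂ w κ) :
    LenData 𝒜 σ r v c₀ c P₂ t₂ := by
  obtain ⟨h1, h4, h5⟩ := h
  refine ⟨hF, fun h2 => absurd (h0.trans_lt h12) (by rw [h2]; exact lt_irrefl _), fun w => ?_⟩
  obtain ⟨κ, k0, k1, k2⟩ := h5 w
  obtain ⟨κ', l0, l1, l2⟩ := hE w
  refine ⟨κ + κ', add_nonneg k0 l0, fun _ hw => ?_, fun ε hε => ?_⟩
  · rcases h0.eq_or_lt with h | h
    · have := h4 h.symm w hw
      have h' : 0 < κ' := l1 h12 (by subst h; simpa using this)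
      linarith
    · linarith [k1 h hw]
  · filter_upwards [k2 (ε / 2) (by positivity), l2 (ε / 2) (by positivity),
      (len_tendsto P₁ (t₁ / r) v w).eventually (len_ray_exists hc h1.1)] with p hp hp' hz z₀ z₂ r₀ r₂
    obtain ⟨z₁, r₁⟩ := hz
    have e1 := hp z₀ z₁ r₀ r₁
    have e2 := hp' z₁ z₂ r₁ r₂
    have e3 := d_triangle (𝒜 := 𝒜) z₀ z₁ z₂
    linarith

/-
TASK LenGlobal.  Q t: for every chart c ∈ S containing σ t there is P with Frame σ v c P t and for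
all w some κ ≥ 0 with (0 < t → K(v, w) > 0 → 0 < κ) and Est σ r v c₀ c id P 0 t w κ.
It is enough to have one chart (Ray.of_change, vel_change, isometry of the transition).
Q 0 holds with P = id, κ = 0 (uniqueness of rays, d_self).  Q t₁ → Q t₂ for t₁ ≤ t₂ near t₀ by
len_local, the triangle inequality and existence of the middle ray for small s (ray_iff in a
normalised chart); for t₁ = 0 transport the curvature condition with rm_iso.  Conclude Q r by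
a supremum argument.  At t = r the frame is orthonormal because c₁ is normalised.
-/
theorem second_variation (hn : Nonneg 𝒜) {σ : ℝ → M} {r : ℝ} (hr : 0 < r)
    (hσ : ∀ t ∈ Icc 0 r, GeoAt 𝒜 σ t ∧ UnitAt 𝒜 σ t) {c₀ c₁ : Chart E M} (hc₀ : c₀ ∈ 𝒜.S)
    (hc₁ : c₁ ∈ 𝒜.S) (hn₀ : c₀.NormAt (σ 0)) (hn₁ : c₁.NormAt (σ r)) {v n : E}
    (hv : HasDerivAt (c₀.ψ ∘ σ) v 0) (hn' : HasDerivAt (c₁.ψ ∘ σ) n r) :
    ∃ P : E →L[ℝ] E, (∀ a b, ⟪P a, P b⟫ = ⟪a, b⟫) ∧ P v = n ∧ ∀ w, ∃ κ ≥ 0,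
      (0 < ⟪Rm c₀.Γ 0 v w w, v⟫ → 0 < κ) ∧ ∀ ε > 0, ∀ᶠ p : ℝ × E in 𝓝 (0, w), ∀ z₀ z₁,
        Ray 𝒜 c₀ (σ 0) (p.1 • p.2) z₀ → Ray 𝒜 c₁ (σ r) (p.1 • P (p.2 - ⟪v, p.2⟫ • v)) z₁ →
        𝒜.d z₀ z₁ ≤ r - p.1 * ⟪v, p.2⟫ - (κ - ε) * p.1 ^ 2 := by
  have hr0 : (0 : ℝ) ∈ Icc 0 r := ⟨le_rfl, hr.le⟩
  have hrr : r ∈ Icc 0 r := ⟨hr.le, le_rfl⟩
  have hv1 : ‖v‖ = 1 := by
    obtain ⟨v', h1, h2⟩ := (hσ 0 hr0).2 c₀ hc₀ hn₀.1
    rw [h1.unique hv, hn₀.2.1, hn₀.2.2, real_inner_self_eq_norm_sq] at h2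
    nlinarith [norm_nonneg v]
  set A : Set ℝ := {t | t ∈ Icc 0 r ∧ ∃ c ∈ 𝒜.S, ∃ P, LenData 𝒜 σ r v c₀ c P t} with hA
  have h0A : (0 : ℝ) ∈ A := ⟨hr0, c₀, hc₀, _, len_zero hc₀ hn₀ hv⟩
  have hbd : BddAbove A := ⟨r, fun t ht => ht.1.2⟩
  have hT : sSup A ∈ Icc 0 r := ⟨le_csSup hbd h0A, csSup_le ⟨0, h0A⟩ fun t ht => ht.1.2⟩
  have hrA : r ∈ A := by
    obtain ⟨c, hc, η, hη, hsrc, hloc⟩ := len_local hn hr hσ hv1 hT
    obtain ⟨t₁, ht₁, hlt⟩ := exists_lt_of_lt_csSup ⟨0, h0A⟩ (show sSup A - η < sSup A by linarith)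
    have hle : t₁ ≤ sSup A := le_csSup hbd ht₁
    rcases ht₁.1.2.eq_or_lt with h | h
    · exact h ▸ ht₁
    have a1 : |t₁ - sSup A| < η := abs_lt.2 ⟨by linarith, by linarith⟩
    have hm : min r (sSup A + η / 2) ∈ Icc 0 r :=
      ⟨le_min hr.le (by linarith [hT.1]), min_le_left _ _⟩
    have hlt2 : t₁ < min r (sSup A + η / 2) := lt_min h (by linarith)
    have a2 : |min r (sSup A + η / 2) - sSup A| < η :=
      abs_lt.2 ⟨by linarith, by linarith [min_le_right r (sSup A + η / 2)]⟩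
    obtain ⟨ht₁', c', hc', P, hP⟩ := ht₁
    have hP' := len_change hc' hc (hσ t₁ ht₁').1.continuousAt (hsrc t₁ ht₁' a1) hP
    obtain ⟨P₂, hF, hE⟩ := hloc t₁ ht₁' _ hm a1 a2 hlt2.le _ hP'.1
    have hmA : min r (sSup A + η / 2) ∈ A := ⟨hm, c, hc, P₂, len_step hc ht₁'.1 hlt2 hP' hF hE⟩
    have := le_csSup hbd hmA
    rcases min_cases r (sSup A + η / 2) with h' | h'
    · exact h'.1 ▸ hmA
    · linarith [h'.1]
  obtain ⟨-, c, hc, P, hP⟩ := hrA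
  obtain ⟨⟨-, h2, h3⟩, -, h5⟩ := len_change hc hc₁ (hσ r hrr).1.continuousAt hn₁.1 hP
  refine ⟨_, fun a b => ?_, h3.unique hn', fun w => ?_⟩
  · rw [← h2 a b, hn₁.2.1, hn₁.2.2]
  · obtain ⟨κ, k0, k1, k2⟩ := h5 w
    refine ⟨κ, k0, k1 hr, fun ε hε => ?_⟩
    filter_upwards [k2 ε hε] with p hp z₀ z₁ r₀ r₁
    have := hp z₀ z₁ (by simpa using r₀) (by rwa [div_self hr.ne', one_mul])
    have e : (r - 0) * (1 - p.1 * ⟪v, p.2⟫ / r) = r - p.1 * ⟪v, p.2⟫ := by field_simp; ring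
    rwa [e] at this

end Pool.Agent.MP_3a00c0_gt

end
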