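import Pool.Agent.MP_3a00c0_gt.Mg.Conv
import Pool.Agent.MP_3a00c0_gt.Mg.Len

-- part MP_3a00c0_gt.CC
section

/-! The distance to the boundary of the parallel region, to second order. -/

open Set Metric Filter Topology
open scoped ContDiff RealInnerProductSpace

set_option maxSynthPendingDepth 3
set_option linter.unusedSectionVars false

namespace Pool.Agent.MP_3a00c0_gt

open Pool.Agent.MP_3fed84_gt

variable {E : Type} [NormedAddCommGroup E] [InnerProductSpace ℝ E] [FiniteDimensional ℝ E]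
  {M : Type} [TopologicalSpace M] [T2Space M] [PreconnectedSpace M] [CompactSpace M]
  {𝒜 : Atlas E M} {V : Type} [NormedAddCommGroup V] [NormedSpace ℝ V] [FiniteDimensional ℝ V]

theorem cc_back {y : ℝ → E} {u n : E} (hy : HasDerivAt y u 0) (h0 : y 0 = 0) (hu : ‖u‖ ≤ 1 / 2)
    (hn : ‖n‖ = 1) (hθ : 0 < ⟪u, n⟫) {η : ℝ} (hη : 0 < η) :
    ∃ l, 0 < l ∧ l < η ∧ y (-l) ≠ 0 ∧ ‖y (-l)‖ < η ∧ ⟪y (-l), n⟫ ≤ -(⟪u, n⟫ / 2) * ‖y (-l)‖ := by
  have hθ' : ⟪u, n⟫ ≤ 1 / 2 := by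
    have := real_inner_le_norm u n
    rw [hn, mul_one] at this
    linarith
  set θ := ⟪u, n⟫ with hθd
  have h1 := (hasDerivAt_iff_isLittleO_nhds_zero.1 hy).def (half_pos hθ)
  obtain ⟨ρ, hρ, h2⟩ := Metric.eventually_nhds_iff.1 h1
  set l := min ρ η / 2 with hl
  have hl0 : 0 < l := half_pos (lt_min hρ hη)
  have hl1 : l < ρ := by
    have := min_le_left ρ η
    linarith
  have hl2 : l < η := by
    have := min_le_right ρ η
    linarith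
  have h3 := h2 (y := -l) (by rw [dist_zero_right, norm_neg, Real.norm_of_nonneg hl0.le]; exact hl1)
  rw [zero_add, h0, sub_zero, norm_neg, Real.norm_of_nonneg hl0.le] at h3
  have h4 : ‖y (-l)‖ ≤ l := by
    have a1 : y (-l) = (y (-l) - (-l) • u) + (-l) • u := by abel
    have a2 : ‖(-l) • u‖ ≤ l * (1 / 2) := by
      rw [norm_smul, norm_neg, Real.norm_of_nonneg hl0.le]
      exact mul_le_mul_of_nonneg_left hu hl0.le
    have a3 := norm_add_le (y (-l) - (-l) • u) ((-l) • u)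
    rw [← a1] at a3
    nlinarith
  have h5 : ⟪y (-l), n⟫ ≤ -(θ / 2) * l := by
    have a1 := real_inner_le_norm (y (-l) - (-l) • u) n
    rw [hn, mul_one, inner_sub_left, real_inner_smul_left, ← hθd] at a1
    nlinarith
  refine ⟨l, hl0, hl2, fun h => ?_, h4.trans_lt hl2, ?_⟩
  · rw [h, inner_zero_left] at h5
    nlinarith
  · nlinarith

theorem cc_cont {c : Chart E M} {δ ε : ℝ} {X : E × E → E} (h : Nice c δ ε X) {w : E}
    (hw : w ∈ ball (0 : E) δ) : ContinuousAt (fun v => X (0, v)) w ∧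
      ContinuousAt (fun v => c.ψ.symm (X (0, v))) w := by
  have h0 : (0 : E) ∈ ball (0 : E) δ := mem_ball_self h.δpos
  have h1 : ContinuousAt X (0, w) :=
    (h.sm.contDiffAt ((isOpen_ball.prod isOpen_ball).mem_nhds ⟨h0, hw⟩)).continuousAt
  have h2 : ContinuousAt (fun v => X (0, v)) w :=
    ContinuousAt.comp (f := fun v : E => ((0 : E), v)) h1 (by fun_prop)
  exact ⟨h2, ContinuousAt.comp (f := fun v => X (0, v))
    (c.ψ.continuousAt_symm (h.mem _ (h.mem_ball h0 hw))) h2⟩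

theorem cc_slow {c : Chart E M} (hc : c ∈ 𝒜.S) {δ ε : ℝ} {X : E × E → E} (h : Nice c δ ε X)
    {u : E} (hu : ‖u‖ ≤ 1 / 2) {t : ℝ} (ht : t • u ∈ ball (0 : E) δ) :
    SlowAt 𝒜 (fun s : ℝ => c.ψ.symm (X (0, s • u))) t := by
  have h0 : (0 : E) ∈ ball (0 : E) δ := mem_ball_self h.δpos
  have h1 := (h.geo 0 h0 u t ht).self_of_nhds.1
  have h2 := h.mem_ball h0 ht
  refine slowAt_of_coord hc (y := fun s : ℝ => X (0, s • u)) h1 (h.mem _ h2) ?_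
  set v := fderiv ℝ X (0, t • u) (0, u) with hv
  have h3 : ‖v - u‖ ≤ (1 / 100) * ‖u‖ := h.close 0 h0 _ ht u
  have h4 : ‖v‖ ≤ 3 / 4 := by
    have := norm_add_le (v - u) u
    rw [sub_add_cancel] at this
    linarith
  have h5 := (abs_le.1 (h.met _ h2 v v)).2
  rw [real_inner_self_eq_norm_mul_norm] at h5
  have h6 : ‖v‖ * ‖v‖ ≤ (3 / 4) * (3 / 4) :=
    mul_le_mul h4 h4 (norm_nonneg _) (by norm_num)
  show c.G (X (0, t • u)) v v ≤ 1
  linarith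

theorem cc_deriv_zero {c : Chart E M} {δ ε : ℝ} {X : E × E → E} (h : Nice c δ ε X) (u : E) :
    (∀ᶠ s in 𝓝 (0 : ℝ), HasDerivAt (fun s : ℝ => X (0, s • u)) (fderiv ℝ X (0, s • u) (0, u)) s) ∧
      fderiv ℝ X (0, (0 : ℝ) • u) (0, u) = u ∧
      HasDerivAt (fun s : ℝ => fderiv ℝ X (0, s • u) (0, u)) (-(c.Γ 0 u u)) 0 := by
  have h0 : (0 : E) ∈ ball (0 : E) δ := mem_ball_self h.δpos
  have h1 := h.geo 0 h0 u 0 (by rw [zero_smul]; exact h0)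
  have h2 : fderiv ℝ X (0, (0 : ℝ) • u) (0, u) = u := by
    rw [zero_smul]
    exact h.vel 0 h0 u
  refine ⟨h1.mono fun s hs => hs.1, h2, ?_⟩
  have h3 := h1.self_of_nhds.2
  simp only [h2] at h3
  rw [zero_smul, h.zero 0 h0] at h3
  exact h3

theorem cc_taylor {y u : ℝ → E} (h1 : ∀ᶠ s in 𝓝 (0 : ℝ), HasDerivAt y (u s) s) (h0 : y 0 = 0)
    (hu : u 0 = 0) (h2 : HasDerivAt u 0 0) {ε : ℝ} (hε : 0 < ε) :
    ∀ᶠ s in 𝓝 (0 : ℝ), ‖y s‖ ≤ ε * s ^ 2 := by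
  have h3 := (hasDerivAt_iff_isLittleO_nhds_zero.1 h2).def hε
  obtain ⟨ρ, hρ, h4⟩ := Metric.eventually_nhds_iff.1 (h1.and h3)
  filter_upwards [ball_mem_nhds (0 : ℝ) hρ] with s hs
  have h5 : ∀ t ∈ closedBall (0 : ℝ) ‖s‖, dist t 0 < ρ := fun t ht => by
    rw [mem_ball, dist_zero_right] at hs
    exact (mem_closedBall.1 ht).trans_lt hs
  have h6 := (convex_closedBall (0 : ℝ) ‖s‖).norm_image_sub_le_of_norm_hasDerivWithin_le
    (f := y) (f' := u) (C := ε * ‖s‖) (x := 0) (y := s)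
    (fun t ht => (h4 (h5 t ht)).1.hasDerivWithinAt) (fun t ht => by
      have a1 := (h4 (h5 t ht)).2
      rw [zero_add, hu, sub_zero, smul_zero, sub_zero] at a1
      rw [mem_closedBall, dist_zero_right] at ht
      exact a1.trans (mul_le_mul_of_nonneg_left ht hε.le))
    (mem_closedBall_self (norm_nonneg _)) (by rw [mem_closedBall, dist_zero_right])
  rw [h0, sub_zero, sub_zero, mul_assoc, Real.norm_eq_abs, abs_mul_abs_self] at h6
  rw [sq]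
  exact h6

theorem cc_real {A B : ℝ} (h : ∀ ε > 0, ∀ᶠ s in 𝓝 (0 : ℝ), s * A + s ^ 2 * B ≤ ε * s ^ 2) :
    A = 0 ∧ B ≤ 0 := by
  have hA : A = 0 := by
    have h1 : IsLocalMax (fun s : ℝ => s * A + s ^ 2 * (B - 1)) 0 := by
      filter_upwards [h 1 one_pos] with s hs
      simp only [zero_mul, ne_eq, OfNat.ofNat_ne_zero, not_false_eq_true, zero_pow, add_zero]
      linarith
    have h2 : HasDerivAt (fun s : ℝ => s * A + s ^ 2 * (B - 1)) A 0 := by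
      refine (((hasDerivAt_id (0 : ℝ)).mul_const A).add
        ((hasDerivAt_pow 2 (0 : ℝ)).mul_const (B - 1))).congr_deriv ?_
      simp
    exact h1.hasDerivAt_eq_zero h2
  refine ⟨hA, le_of_forall_pos_le_add fun ε hε => ?_⟩
  obtain ⟨s, h1, h2⟩ := (((h ε hε).filter_mono nhdsWithin_le_nhds).and
    (self_mem_nhdsWithin (s := {(0 : ℝ)}ᶜ) (a := 0))).exists
  have h3 : 0 < s ^ 2 := sq_pos_of_ne_zero h2
  rw [hA] at h1
  nlinarith

theorem cc_unit {σ : ℝ → M} {t : ℝ} (h : UnitAt 𝒜 σ t) {c : Chart E M} (hc : c ∈ 𝒜.S)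
    (hN : c.NormAt (σ t)) {v : E} (hv : HasDerivAt (c.ψ ∘ σ) v t) : ⟪v, v⟫ = 1 := by
  obtain ⟨v', h1, h2⟩ := h c hc hN.1
  rw [hN.2.1, hN.2.2, h1.unique hv] at h2
  exact h2

/- Let y = σ r ∉ Om W (end_mem), but y ∈ P W (limit of σ t ∈ Om W, isClosed_P).  The ball of
radius r about σ 0 lies in Om W (not_mem_of_d_lt, h.eq 0).  Take Nice c δ ε X and O, η from conv
at y.  Suppose e ≠ 0 small, ⟪e, n⟫ = 0, z = c.ψ.symm (X (0, e)) ∈ Om W (ray_iff).  For small μ > 0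
e' = e + μ n still has c.ψ.symm (X (0, e')) ∈ Om W, and ⟪e', n⟫ > 0.  The curve
γ s = c.ψ.symm (X (0, s e'')) with e'' = e' / (2 ‖e'‖) is a slow geodesic (close, met) inside O;
γ (-l) ∈ Om W for small l > 0 by inner_ball (near gives X (0, w) = w + o(w): shrink or use the
derivative at 0, vel).  Both ends a = -l, b = 2‖e'‖ lie in Om W ⊆ P W, so conv applied to γ and to
the reversed curve (GeoAt.affine) gives equal values of f, hence γ 0 = y ∈ Om W. For e = 0, z = y. -/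
theorem Act.end_not_mem (α : Act 𝒜 V) (hn : Nonneg 𝒜) {W : V} {σ : ℝ → M} {r : ℝ}
    (h : MinGeo 𝒜 (α.Om W)ᶜ σ r) {c : Chart E M} (hc : c ∈ 𝒜.S) (hN : c.NormAt (σ r)) {n : E}
    (hv : HasDerivAt (c.ψ ∘ σ) n r) :
    ∀ᶠ e in 𝓝 (0 : E), ⟪e, n⟫ = 0 → ∀ z, Ray 𝒜 c (σ r) e z → z ∉ α.Om W := by
  have hy : σ r ∈ (α.Om W)ᶜ := h.end_mem isOpen_interior.isClosed_compl
  obtain ⟨δ, ε, X, -, hX⟩ := exists_nice hN one_pos
  obtain ⟨O, hO, η, hη, hconv⟩ := α.conv hn (σ r)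
  obtain ⟨hn1, hball⟩ := inner_ball h.pos h.geo hc hN hv
  have h0 : (0 : E) ∈ ball (0 : E) δ := mem_ball_self hX.δpos
  have hy0 : c.ψ.symm (X (0, 0)) = σ r := by
    rw [hX.zero 0 h0, ← hN.2.1, c.ψ.left_inv hN.1]
  have h1 : ∀ᶠ w in 𝓝 (0 : E), c.ψ.symm (X (0, w)) ∈ O :=
    (cc_cont hX h0).2.eventually (by beta_reduce; rw [hy0]; exact hO)
  obtain ⟨ρ₀, hρ₀, h2⟩ := Metric.eventually_nhds_iff.1 (h1.and (ball_mem_nhds (0 : E) hX.δpos))
  set ρ := min ρ₀ (η / 3) with hρd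
  have hρ : 0 < ρ := lt_min hρ₀ (by linarith)
  have hρη : ρ ≤ η / 3 := min_le_right _ _
  have h3 : ∀ w : E, ‖w‖ < ρ → c.ψ.symm (X (0, w)) ∈ O ∧ w ∈ ball (0 : E) δ := fun w hw =>
    h2 (by rw [dist_zero_right]; exact hw.trans_le (min_le_left _ _))
  have h4 : ∀ u : E, ‖u‖ ≤ 1 / 2 → ∀ t : ℝ, |t| < 2 * ρ →
      GeoAt 𝒜 (fun s : ℝ => c.ψ.symm (X (0, s • u))) t ∧
      SlowAt 𝒜 (fun s : ℝ => c.ψ.symm (X (0, s • u))) t ∧ c.ψ.symm (X (0, t • u)) ∈ O := by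
    intro u hu t ht
    have a1 : ‖t • u‖ < ρ := by
      rw [norm_smul, Real.norm_eq_abs]
      nlinarith [abs_nonneg t, norm_nonneg u]
    exact ⟨hX.geoAt hc h0 u (h3 _ a1).2, cc_slow hc hX hu (h3 _ a1).2, (h3 _ a1).1⟩
  filter_upwards [ball_mem_nhds (0 : E) hρ] with e he hen z hz hzO
  have he' : ‖e‖ < ρ := mem_ball_zero_iff.1 he
  rw [hX.ray_iff hc hN.1 (by rw [hN.2.1]; exact h0) (h3 e he').2, hN.2.1] at hz
  have h5 : Tendsto (fun μ : ℝ => e + μ • n) (𝓝 0) (𝓝 e) := by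
    have : Continuous fun μ : ℝ => e + μ • n := by fun_prop
    simpa using this.tendsto 0
  have h6 : ∀ᶠ w in 𝓝 e, c.ψ.symm (X (0, w)) ∈ α.Om W :=
    (cc_cont hX (h3 e he').2).2.eventually (by beta_reduce; rw [← hz]; exact isOpen_interior.mem_nhds hzO)
  obtain ⟨μ, ⟨h7, h8⟩, hμ⟩ := (((h5.eventually (h6.and (isOpen_ball.mem_nhds he))).filter_mono
    nhdsWithin_le_nhds).and (self_mem_nhdsWithin (s := Ioi (0 : ℝ)) (a := 0))).exists
  have hμ' : 0 < μ := hμ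
  set e' := e + μ • n with he'd
  have h9 : ⟪e', n⟫ = μ := by
    rw [he'd, inner_add_left, hen, real_inner_smul_left, real_inner_self_eq_norm_mul_norm, hn1]
    ring
  have hne : 0 < ‖e'‖ := norm_pos_iff.2 fun h => by
    rw [h, inner_zero_left] at h9
    exact hμ'.ne h9
  have h8' : ‖e'‖ < ρ := mem_ball_zero_iff.1 h8
  set u := (2 * ‖e'‖)⁻¹ • e' with hud
  have hu : ‖u‖ ≤ 1 / 2 := by
    rw [hud, norm_smul, Real.norm_of_nonneg (by positivity)]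
    refine le_of_eq ?_
    field_simp
  have hb : (2 * ‖e'‖) • u = e' := by
    rw [hud, smul_smul, mul_inv_cancel₀ (by positivity), one_smul]
  have hθ : 0 < ⟪u, n⟫ := by
    rw [hud, real_inner_smul_left, h9]
    positivity
  obtain ⟨η', hη', h10⟩ := hball (⟪u, n⟫ / 2) (half_pos hθ)
  obtain ⟨d1, d2, -⟩ := cc_deriv_zero hX u
  have d3 := d1.self_of_nhds
  rw [d2] at d3
  obtain ⟨l, l0, l1, l2, l3, l4⟩ := cc_back d3 (by rw [zero_smul]; exact hX.zero 0 h0) hu hn1 hθ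
    (lt_min hη' hρ)
  have l5 : l < ρ := l1.trans_le (min_le_right _ _)
  have ha : c.ψ.symm (X (0, (-l) • u)) ∈ α.Om W := by
    have a1 := (h10 _ l2 (l3.trans_le (min_le_left _ _)) l4).2
    have a2 := h.eq 0 ⟨le_rfl, h.pos.le⟩
    rw [sub_zero] at a2
    rw [← a2] at a1
    exact not_not.1 (not_mem_of_d_lt a1)
  have k1 := (hconv W (fun s : ℝ => c.ψ.symm (X (0, s • (-u)))) (-(2 * ‖e'‖)) l (by linarith)
    (by linarith) fun t ht => h4 (-u) (by rw [norm_neg]; exact hu) t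
      (abs_lt.2 ⟨by linarith [ht.1], by linarith [ht.2]⟩)).1
  have k2 := (hconv W (fun s : ℝ => c.ψ.symm (X (0, s • u))) (-l) (2 * ‖e'‖) (by linarith)
    (by linarith) fun t ht => h4 u hu t (abs_lt.2 ⟨by linarith [ht.1], by linarith [ht.2]⟩)).2
  beta_reduce at k1 k2
  rw [neg_smul_neg, hb, smul_neg, ← neg_smul l u] at k1
  rw [hb] at k2
  have k3 := k2 ha (k1 (interior_subset h7)) 0 ⟨by linarith, by linarith⟩
  rw [zero_smul, hy0] at k3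
  exact hy k3

/- second_variation, end_not_mem, existence of the ray at the end point (ray_iff), rho_le. -/
theorem Act.cc (α : Act 𝒜 V) (hn : Nonneg 𝒜) {W : V} {σ : ℝ → M} {r : ℝ}
    (h : MinGeo 𝒜 (α.Om W)ᶜ σ r) {c : Chart E M} (hc : c ∈ 𝒜.S) (hN : c.NormAt (σ 0)) {v : E}
    (hv : HasDerivAt (c.ψ ∘ σ) v 0) (w : E) :
    ∃ κ ≥ 0, (0 < ⟪Rm c.Γ 0 v w w, v⟫ → 0 < κ) ∧ ∀ ε > 0, ∀ᶠ p : ℝ × E in 𝓝 (0, w), ∀ z,
      Ray 𝒜 c (σ 0) (p.1 • p.2) z →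
        rho 𝒜 (α.Om W)ᶜ z ≤ r - p.1 * ⟪v, p.2⟫ - (κ - ε) * p.1 ^ 2 := by
  obtain ⟨c₁, hc₁, hN₁⟩ := 𝒜.norm (σ r)
  obtain ⟨n, hn₁, -⟩ := (h.geo r ⟨h.pos.le, le_rfl⟩).2 c₁ hc₁ hN₁.1
  obtain ⟨P, hP, hPv, hw⟩ := second_variation hn h.pos h.geo hc hc₁ hN hN₁ hv hn₁
  obtain ⟨κ, hκ, hκ', hε⟩ := hw w
  refine ⟨κ, hκ, hκ', fun ε hε0 => ?_⟩
  obtain ⟨δ, ε', X, -, hX⟩ := exists_nice hN₁ one_pos
  have hvv := cc_unit (h.geo 0 ⟨le_rfl, h.pos.le⟩).2 hc hN hv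
  have h1 : Tendsto (fun p : ℝ × E => p.1 • P (p.2 - ⟪v, p.2⟫ • v)) (𝓝 (0, w)) (𝓝 0) := by
    have : Continuous fun p : ℝ × E => p.1 • P (p.2 - ⟪v, p.2⟫ • v) := by fun_prop
    simpa using this.tendsto (0, w)
  filter_upwards [hε ε hε0, h1.eventually (α.end_not_mem hn h hc₁ hN₁ hn₁),
    h1.eventually (ball_mem_nhds (0 : E) hX.δpos)] with p h2 h3 h4 z hz
  have h5 := (hX.ray_iff hc₁ hN₁.1 (by rw [hN₁.2.1]; exact mem_ball_self hX.δpos) h4 _).2 rfl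
  refine (rho_le z (h3 ?_ _ h5)).trans (h2 z _ hz h5)
  rw [real_inner_smul_left, ← hPv, hP, inner_sub_left, real_inner_smul_left, hvv,
    real_inner_comm]
  ring

/- Let x = σ 0, e = ev c 0 U, a = A c 0 U e, o s = c.ψ (Φ (s U) x).  By orbit and d_ev, o 0 = 0,
o' = ev (o s) U, o''(0) = a - Γ 0 e e.  With Nice c δ ε X put g s = X (0, s e + (s²/2) a) - o s;
then g 0 = 0, g'(0) = 0, g''(0) = 0 (the second derivative of X along the ray at 0 is -Γ 0 e e by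
geo), so g s = o(s²), and the distance between the two points is o(s²) (d_le_of_segment, met).
rho_Φ, rho_le_add and cc with w = e, p = (s, e + (s/2) a) give, for every ε > 0 and small s of
both signs,  r ≤ r - s ⟪v,e⟫ - (s²/2) ⟪v,a⟫ - (κ - ε) s². -/
theorem Act.orbit_ineq (α : Act 𝒜 V) (hn : Nonneg 𝒜) {W : V} {σ : ℝ → M} {r : ℝ}
    (h : MinGeo 𝒜 (α.Om W)ᶜ σ r) {c : Chart E M} (hc : c ∈ 𝒜.S) (hN : c.NormAt (σ 0)) {v : E}
    (hv : HasDerivAt (c.ψ ∘ σ) v 0) (U : V) :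
    ⟪v, α.ev c 0 U⟫ = 0 ∧ ⟪v, α.A c 0 U (α.ev c 0 U)⟫ ≤ 0 ∧
      (α.A c 0 U (α.ev c 0 U) = 0 → ⟪Rm c.Γ 0 v (α.ev c 0 U) (α.ev c 0 U), v⟫ = 0) := by
  set e := α.ev c 0 U with hed
  set a := α.A c 0 U e with had
  obtain ⟨δ, ε', X, -, hX⟩ := exists_nice hN one_pos
  have h0 : (0 : E) ∈ ball (0 : E) δ := mem_ball_self hX.δpos
  have ht0 : (0 : E) ∈ c.ψ.target := hN.2.1 ▸ c.ψ.map_source hN.1
  set o : ℝ → E := fun s => c.ψ (α.Φ (s • U) (σ 0)) with hod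
  have ho0 : o 0 = 0 := by
    simp only [hod, zero_smul, α.zero]
    exact hN.2.1
  have hsrc : ∀ᶠ s in 𝓝 (0 : ℝ), α.Φ (s • U) (σ 0) ∈ c.ψ.source := by
    have a1 : Continuous fun s : ℝ => α.Φ (s • U) (σ 0) :=
      α.cont.comp (f := fun s : ℝ => (s • U, σ 0)) (by fun_prop)
    refine a1.continuousAt.eventually (c.ψ.open_source.mem_nhds ?_)
    beta_reduce
    rw [zero_smul, α.zero]
    exact hN.1
  have ho1 : ∀ᶠ s in 𝓝 (0 : ℝ), HasDerivAt o (α.ev c (o s) U) s :=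
    hsrc.mono fun s hs => α.orbit c hc (σ 0) U s hs
  have ho2 : HasDerivAt (fun s => α.ev c (o s) U) (a - c.Γ 0 e e) 0 := by
    have a1 : HasFDerivAt (α.ev c) (fderiv ℝ (α.ev c) 0) (o 0) := by
      rw [ho0]
      exact cda_hasF ((α.sm_ev c hc).contDiffAt (c.ψ.open_target.mem_nhds ht0))
    have a2 := ho1.self_of_nhds
    rw [ho0] at a2
    have a3 := (a1.comp_hasDerivAt (0 : ℝ) a2).clm_apply (hasDerivAt_const (0 : ℝ) U)
    refine a3.congr_deriv ?_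
    rw [map_zero, add_zero, α.d_ev c hc 0 ht0]
  obtain ⟨d1, d2, d3⟩ := cc_deriv_zero hX e
  have hB : HasStrictFDerivAt (fun w : E => X (0, w)) (ContinuousLinearMap.id ℝ E) 0 := by
    have a1 : ContDiffAt ℝ ∞ X (0, 0) :=
      hX.sm.contDiffAt ((isOpen_ball.prod isOpen_ball).mem_nhds ⟨h0, h0⟩)
    have a2 := (a1.hasStrictFDerivAt (by simp)).comp (f := fun w : E => ((0 : E), w)) (0 : E)
      ((hasStrictFDerivAt_const (0 : E) (0 : E)).prodMk (hasStrictFDerivAt_id (0 : E)))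
    refine a2.congr_fderiv ?_
    ext w
    simpa using hX.vel 0 h0 w
  have hw : Tendsto (fun s : ℝ => s • (e + (s / 2) • a)) (𝓝 0) (𝓝 0) := by
    have : Continuous fun s : ℝ => s • (e + (s / 2) • a) := by fun_prop
    simpa using this.tendsto 0
  have hw' : Tendsto (fun s : ℝ => s • e) (𝓝 0) (𝓝 0) := by
    have : Continuous fun s : ℝ => s • e := by fun_prop
    simpa using this.tendsto 0
  have hg : ∀ ε > 0, ∀ᶠ s in 𝓝 (0 : ℝ), ‖X (0, s • (e + (s / 2) • a)) - o s‖ ≤ ε * s ^ 2 := by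
    intro ε hε
    have a1 : ∀ᶠ s in 𝓝 (0 : ℝ), ‖X (0, s • e) - o s + (s ^ 2 / 2) • a‖ ≤ ε / 2 * s ^ 2 := by
      refine cc_taylor (u := fun s => fderiv ℝ X (0, s • e) (0, e) - α.ev c (o s) U + s • a)
        ?_ ?_ ?_ ?_ (half_pos hε)
      · filter_upwards [d1, ho1] with s b1 b2
        refine ((b1.sub b2).add (((hasDerivAt_pow 2 s).div_const 2).smul_const a)).congr_deriv ?_
        congr 2
        simp
      · simp [ho0, hX.zero 0 h0]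
      · beta_reduce
        rw [d2, ho0, zero_smul, add_zero]
        exact sub_self _
      · refine ((d3.sub ho2).add (hasDerivAt_line a 0)).congr_deriv ?_
        abel
    have hpos : 0 < ε / (‖a‖ + 1) := by positivity
    have a2 := (hw.prodMk_nhds hw').eventually (hB.isLittleO.def hpos)
    filter_upwards [a1, a2] with s b1 b2
    have b3 : s • (e + (s / 2) • a) - s • e = (s ^ 2 / 2) • a := by
      rw [smul_add, smul_smul, add_sub_cancel_left]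
      congr 1
      ring
    simp only [ContinuousLinearMap.id_apply, b3] at b2
    have b4 : X (0, s • (e + (s / 2) • a)) - o s = (X (0, s • e) - o s + (s ^ 2 / 2) • a)
        + (X (0, s • (e + (s / 2) • a)) - X (0, s • e) - (s ^ 2 / 2) • a) := by abel
    rw [b4]
    refine (norm_add_le _ _).trans ?_
    rw [norm_smul, Real.norm_of_nonneg (by positivity)] at b2
    have b5 : ε / (‖a‖ + 1) * ‖a‖ ≤ ε := by
      rw [div_mul_eq_mul_div, div_le_iff₀ (by positivity)]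
      nlinarith
    nlinarith [sq_nonneg s]
  obtain ⟨κ, hκ, hκ', hcc⟩ := α.cc hn h hc hN hv e
  obtain ⟨ρ, hρ, hρ'⟩ := hN.exists_ball one_lt_two
  have key : ∀ ε > 0, ∀ᶠ s in 𝓝 (0 : ℝ), s * ⟪v, e⟫ + s ^ 2 * (⟪v, a⟫ / 2 + κ) ≤ ε * s ^ 2 := by
    intro ε hε
    have a1 : Tendsto (fun s : ℝ => (s, e + (s / 2) • a)) (𝓝 0) (𝓝 (0, e)) := by
      have : Continuous fun s : ℝ => (s, e + (s / 2) • a) := by fun_prop
      simpa using this.tendsto 0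
    have a2 : ∀ᶠ s in 𝓝 (0 : ℝ), o s ∈ closedBall (0 : E) ρ :=
      ho1.self_of_nhds.continuousAt.eventually (by rw [ho0]; exact closedBall_mem_nhds _ hρ)
    have a3 : ∀ᶠ s in 𝓝 (0 : ℝ), X (0, s • (e + (s / 2) • a)) ∈ closedBall (0 : E) ρ :=
      hw.eventually ((cc_cont hX h0).1.eventually
        (by beta_reduce; rw [hX.zero 0 h0]; exact closedBall_mem_nhds _ hρ))
    filter_upwards [a1.eventually (hcc (ε / 2) (half_pos hε)), hg (ε / 4) (by positivity), a2, a3,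
      hsrc, hw.eventually (ball_mem_nhds (0 : E) hX.δpos)] with s b1 b2 b3 b4 b5 b6
    have b7 := b1 _ ((hX.ray_iff hc hN.1 (by rw [hN.2.1]; exact h0) b6 _).2 rfl)
    rw [hN.2.1] at b7
    have b8 := d_le_of_segment hc (y := o s) (z := X (0, s • (e + (s / 2) • a)))
      (lam := 2 * ‖X (0, s • (e + (s / 2) • a)) - o s‖) (by positivity) fun x hx => by
        have := hρ' x ((convex_closedBall (0 : E) ρ).segment_subset b3 b4 hx)
        exact ⟨this.1, (this.2 _).1⟩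
    have b9 := rho_le_add (𝒜 := 𝒜) (α.Om W)ᶜ (c.ψ.symm (o s))
      (c.ψ.symm (X (0, s • (e + (s / 2) • a))))
    have b10 : c.ψ.symm (o s) = α.Φ (s • U) (σ 0) := c.ψ.left_inv b5
    rw [b10] at b8 b9
    rw [α.rho_Φ, h.eq 0 ⟨le_rfl, h.pos.le⟩] at b9
    simp only [inner_add_right, real_inner_smul_right] at b7
    nlinarith
  obtain ⟨k1, k2⟩ := cc_real key
  refine ⟨k1, by linarith, fun ha => ?_⟩
  rw [ha, inner_zero_right] at k2
  have k3 := hn c hc 0 ht0 v e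
  rw [hN.2.2] at k3
  exact le_antisymm (not_lt.1 fun k4 => by linarith [hκ' k4]) k3

end Pool.Agent.MP_3a00c0_gt

end

-- part MP_3a00c0_gt.Geo
section

/-! Concavity of the distance to the boundary; obtuse angles. -/

open Set Metric Filter Topology
open scoped ContDiff RealInnerProductSpace

set_option maxSynthPendingDepth 3
set_option linter.unusedSectionVars false

namespace Pool.Agent.MP_3a00c0_gt

open Pool.Agent.MP_3fed84_gt

/- If φ fails to be concave, subtract an affine function and add a small multiple of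
(t - t₁) (t₂ - t); at an interior minimum the second difference is ≥ 0, contradiction.
Then (φ L - φ 0)/L ≤ (φ h - φ 0)/h ≤ m + ε for small h > 0. -/
theorem le_of_support {φ : ℝ → ℝ} {L m : ℝ} (hL : 0 ≤ L) (hc : ContinuousOn φ (Icc 0 L))
    (h2 : ∀ t ∈ Ioo 0 L, ∃ μ : ℝ, ∀ ε > 0, ∀ᶠ s in 𝓝 (0 : ℝ),
      φ (t + s) ≤ φ t + μ * s + ε * s ^ 2)
    (h1 : ∀ ε > 0, ∀ᶠ s in 𝓝[>] (0 : ℝ), φ s ≤ φ 0 + (m + ε) * s) : φ L ≤ φ 0 + m * L := by
  by_contra hcon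
  push Not at hcon
  have hL0 : 0 < L := by
    rcases hL.eq_or_lt with h | h
    · subst h
      simp at hcon
    · exact h
  obtain ⟨a, ha⟩ : ∃ a, φ L = φ 0 + a * L := ⟨(φ L - φ 0) / L, by field_simp; ring⟩
  have hma : m < a := by
    by_contra h
    push Not at h
    nlinarith
  obtain ⟨c, hc0, hcL⟩ : ∃ c, 0 < c ∧ c * L = (a - m) / 3 :=
    ⟨(a - m) / 3 / L, by have := sub_pos.2 hma; positivity, by field_simp⟩
  set ψ : ℝ → ℝ := fun t => φ t - φ 0 - a * t + c * (t * (L - t)) with hψ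
  have hψc : ContinuousOn ψ (Icc 0 L) :=
    ((hc.sub continuousOn_const).sub (by fun_prop)).add (by fun_prop)
  obtain ⟨t, ht, hmin⟩ := isCompact_Icc.exists_isMinOn (nonempty_Icc.2 hL) hψc
  obtain ⟨s₀, hs₀, hs₀'⟩ := ((h1 ((a - m) / 3) (by linarith)).and (Ioo_mem_nhdsGT hL0)).exists
  have hneg : ψ t < 0 := by
    have k := isMinOn_iff.1 hmin s₀ (Ioo_subset_Icc_self hs₀')
    refine k.trans_lt ?_
    simp only [hψ]
    have e : c * (s₀ * (L - s₀)) = (a - m) / 3 * s₀ - c * s₀ ^ 2 := by rw [← hcL]; ring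
    have k1 : 0 < (a - m) * s₀ := mul_pos (sub_pos.2 hma) hs₀'.1
    have k2 : 0 ≤ c * s₀ ^ 2 := by positivity
    rw [e]
    nlinarith
  have ht' : t ∈ Ioo 0 L := by
    refine ⟨ht.1.lt_of_ne ?_, ht.2.lt_of_ne ?_⟩
    · rintro rfl
      simp [hψ] at hneg
    · rintro rfl
      simp only [hψ, ha] at hneg
      linarith
  obtain ⟨μ, hμ⟩ := h2 t ht'
  have k1 := hμ (c / 2) (by positivity)
  have hneg' : Tendsto (fun s : ℝ => -s) (𝓝 0) (𝓝 0) := by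
    simpa using (continuous_neg (G := ℝ)).tendsto 0
  have k2 := hneg'.eventually k1
  have k3 : ∀ᶠ s in 𝓝 (0 : ℝ), t + s ∈ Icc 0 L := by
    have : Tendsto (fun s : ℝ => t + s) (𝓝 0) (𝓝 t) := by
      have hcc : Continuous fun s : ℝ => t + s := by fun_prop
      simpa using hcc.tendsto 0
    exact this.eventually (Icc_mem_nhds ht'.1 ht'.2)
  have k4 := hneg'.eventually k3
  have k5 : ∀ᶠ s in 𝓝[>] (0 : ℝ), 0 < s := self_mem_nhdsWithin
  obtain ⟨s, ⟨⟨⟨a1, a2⟩, a3⟩, a4⟩, a5⟩ :=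
    (((((k1.and k2).and k3).and k4).filter_mono nhdsWithin_le_nhds).and k5).exists
  have b1 := isMinOn_iff.1 hmin _ a3
  have b2 := isMinOn_iff.1 hmin _ a4
  simp only [hψ] at b1 b2
  have b3 : 0 < c * s ^ 2 := by positivity
  nlinarith

variable {E : Type} [NormedAddCommGroup E] [InnerProductSpace ℝ E] [FiniteDimensional ℝ E]
  {M : Type} [TopologicalSpace M] [T2Space M] [PreconnectedSpace M] [CompactSpace M]
  {𝒜 : Atlas E M} {V : Type} [NormedAddCommGroup V] [NormedSpace ℝ V] [FiniteDimensional ℝ V]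

theorem geo_vel {γ : ℝ → M} {t : ℝ} (h : GeoAt 𝒜 γ t) {c : Chart E M} (hc : c ∈ 𝒜.S)
    (ht : γ t ∈ c.ψ.source) : ∃ v, HasDerivAt (c.ψ ∘ γ) v t := by
  obtain ⟨u, hu⟩ := h.chart hc ht
  exact ⟨_, hu.self_of_nhds.1⟩

theorem geo_affine_vel {γ : ℝ → M} {c : Chart E M} {w : E} {t : ℝ}
    (hw : HasDerivAt (c.ψ ∘ γ) w t) (a : ℝ) :
    HasDerivAt (c.ψ ∘ fun l => γ (a * l + t)) (a • w) 0 := by
  have hl : HasDerivAt (fun l : ℝ => a * l + t) a 0 := by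
    simpa using ((hasDerivAt_id (0 : ℝ)).const_mul a).add_const t
  have hw' : HasDerivAt (c.ψ ∘ γ) w (a * 0 + t) := by simpa using hw
  exact hw'.scomp 0 hl

theorem geo_shift_vel {γ : ℝ → M} {c : Chart E M} {w : E} {t : ℝ}
    (hw : HasDerivAt (c.ψ ∘ γ) w t) : HasDerivAt (c.ψ ∘ fun l => γ (l + t)) w 0 := by
  simpa using geo_affine_vel hw 1

theorem geo_local (α : Act 𝒜 V) (hn : Nonneg 𝒜) {W : V} {σ : ℝ → M} {r : ℝ}
    (h : MinGeo 𝒜 (α.Om W)ᶜ σ r) {c : Chart E M} (hc : c ∈ 𝒜.S) (hN : c.NormAt (σ 0)) {v w : E}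
    (hv : HasDerivAt (c.ψ ∘ σ) v 0) {γ : ℝ → M} {t : ℝ} (hγ : GeoAt 𝒜 γ t) (h0 : γ t = σ 0)
    (hw : HasDerivAt (c.ψ ∘ γ) w t) : ∀ ε > 0, ∀ᶠ s in 𝓝 (0 : ℝ),
      rho 𝒜 (α.Om W)ᶜ (γ (t + s)) ≤ r - s * ⟪v, w⟫ + ε * s ^ 2 := by
  intro ε hε
  obtain ⟨κ, hκ, -, hk⟩ := α.cc hn h hc hN hv w
  have ht : Tendsto (fun s : ℝ => (s, w)) (𝓝 0) (𝓝 (0, w)) :=
    (continuous_id.prodMk continuous_const : Continuous fun s : ℝ => (s, w)).tendsto 0
  obtain ⟨δ, hδ, hball⟩ := Metric.eventually_nhds_iff.1 hγ.eventually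
  filter_upwards [ht.eventually (hk ε hε), Metric.ball_mem_nhds (0 : ℝ) hδ] with s h1 h2
  have hr : Ray 𝒜 c (σ 0) (s • w) (γ (t + s)) := by
    refine ⟨hN.1, fun l => γ (s * l + t), fun l hl => GeoAt.affine (hball ?_), by simpa using h0,
      geo_affine_vel hw s, by simp [add_comm]⟩
    rw [mem_ball_zero_iff, Real.norm_eq_abs] at h2
    rw [Real.dist_eq, add_sub_cancel_right, abs_mul, abs_of_nonneg hl.1]
    nlinarith [abs_nonneg s, hl.1, hl.2]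
  have k := h1 _ hr
  have k2 : 0 ≤ κ * s ^ 2 := by positivity
  nlinarith

/- le_of_support for φ = rho ∘ γ.  At a time t with γ t ∈ Om W take a minimal geodesic from γ t
(exists_minGeo; at t = 0 the given σ), a chart normalised at γ t, and cc with w the velocity of γ:
for small s the curve l ↦ γ (t + l s) shows Ray c (γ t) (s • w) (γ (t + s)) (GeoAt.eventually,
GeoAt.affine).  At t = 0 compare c with the normalised chart (vel_change, isometry). -/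
theorem Act.supergrad (α : Act 𝒜 V) (hn : Nonneg 𝒜) {W : V} {σ : ℝ → M} {r : ℝ}
    (h : MinGeo 𝒜 (α.Om W)ᶜ σ r) {γ : ℝ → M} {L : ℝ} (hL : 0 ≤ L)
    (hγ : ∀ t ∈ Icc 0 L, GeoAt 𝒜 γ t) (h0 : γ 0 = σ 0) (hO : ∀ t ∈ Ico 0 L, γ t ∈ α.Om W)
    {c : Chart E M} (hc : c ∈ 𝒜.S) (hm : σ 0 ∈ c.ψ.source) {v u : E}
    (hv : HasDerivAt (c.ψ ∘ σ) v 0) (hu : HasDerivAt (c.ψ ∘ γ) u 0) :
    rho 𝒜 (α.Om W)ᶜ (γ L) ≤ r - L * c.G (c.ψ (σ 0)) v u := by
  have hcl : IsClosed (α.Om W)ᶜ := isOpen_interior.isClosed_compl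
  have hr : rho 𝒜 (α.Om W)ᶜ (γ 0) = r := by
    rw [h0, h.eq 0 ⟨le_rfl, h.pos.le⟩, sub_zero]
  have key := le_of_support (φ := fun t => rho 𝒜 (α.Om W)ᶜ (γ t))
    (m := -c.G (c.ψ (σ 0)) v u) hL
    (fun t ht => ((continuous_rho _).continuousAt.comp (hγ t ht).continuousAt).continuousWithinAt)
    ?_ ?_
  · simp only [hr] at key
    linarith
  · intro t ht
    obtain ⟨τ, hτ0, hτ⟩ := exists_minGeo (𝒜 := 𝒜) hcl h.nonempty
      (x := γ t) (not_not.2 (hO t (Ioo_subset_Ico_self ht)))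
    obtain ⟨c', hc', hN⟩ := 𝒜.norm (τ 0)
    obtain ⟨v', hv'⟩ := geo_vel (hτ.geo 0 ⟨le_rfl, hτ.pos.le⟩).1 hc' hN.1
    obtain ⟨w, hw⟩ := geo_vel (hγ t (Ioo_subset_Icc_self ht)) hc' (hτ0 ▸ hN.1)
    refine ⟨-⟪v', w⟫, fun ε hε => ?_⟩
    filter_upwards [geo_local α hn hτ hc' hN hv' (hγ t (Ioo_subset_Icc_self ht)) hτ0.symm hw ε hε]
      with s hs
    linarith
  · intro ε hε
    obtain ⟨c', hc', hN⟩ := 𝒜.norm (σ 0)
    have g0 := hγ 0 ⟨le_rfl, hL⟩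
    have hv' := vel_change hc hc' (h.geo 0 ⟨le_rfl, h.pos.le⟩).1.continuousAt hm hN.1 hv
    have hu' := vel_change hc hc' g0.continuousAt (h0 ▸ hm) (h0 ▸ hN.1) hu
    rw [h0] at hu'
    have hiso := (𝒜.compat c hc c' hc' _ hm hN.1).2 v u
    rw [c.ex_apply c' id hm, id, hN.2.1, hN.2.2] at hiso
    have k := geo_local α hn h hc' hN hv' g0 h0 hu' ε hε
    rw [hiso] at k
    filter_upwards [k.filter_mono nhdsWithin_le_nhds, Ioo_mem_nhdsGT (zero_lt_one' ℝ)] with s h1 h2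
    rw [zero_add] at h1
    simp only [hr]
    have k2 : ε * s ^ 2 ≤ ε * s := mul_le_mul_of_nonneg_left (by nlinarith [h2.1, h2.2]) hε.le
    linarith

theorem geo_mono (α : Act 𝒜 V) (hn : Nonneg 𝒜) {W : V} (U : V) {σ : ℝ → M} {r : ℝ}
    (h : MinGeo 𝒜 (α.Om W)ᶜ σ r) : MonotoneOn (fun t => α.f U (σ t)) (Icc 0 r) := by
  have key : ∀ t ∈ Ioo 0 r, ∃ d, 0 ≤ d ∧ HasDerivAt (fun t => α.f U (σ t)) d t := by
    intro t ht
    obtain ⟨c, hc, hN⟩ := 𝒜.norm (σ t)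
    have hg := (h.geo t (Ioo_subset_Icc_self ht)).1
    obtain ⟨v, hv⟩ := geo_vel hg hc hN.1
    have hy : c.ψ (σ t) ∈ c.ψ.target := c.ψ.map_source hN.1
    obtain ⟨D, hD, hD'⟩ := α.hasFDerivAt_F hc hy U
    have hN' : c.NormAt ((fun s => σ (s + t)) 0) := by simpa using hN
    have ho := (α.orbit_ineq hn (h.shift (Ioo_subset_Ico_self ht)) hc hN' (geo_shift_vel hv) U).2.1
    refine ⟨D v, ?_, (hD.comp_hasDerivAt t hv).congr_of_eventuallyEq ?_⟩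
    · rw [hD', α.skew c hc _ hy, hN.2.1, hN.2.2]
      linarith
    · filter_upwards [hg.continuousAt.eventually (c.ψ.open_source.mem_nhds hN.1)] with s hs
      exact α.f_eq hc hs U
  refine monotoneOn_of_deriv_nonneg (convex_Icc 0 r)
    (fun t ht => ((α.continuous_f U).continuousAt.comp
      (h.geo t ht).1.continuousAt).continuousWithinAt) ?_ ?_
  · rw [interior_Icc]
    intro t ht
    obtain ⟨d, -, hd⟩ := key t ht
    exact hd.differentiableAt.differentiableWithinAt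
  · rw [interior_Icc]
    intro t ht
    obtain ⟨d, hd0, hd⟩ := key t ht
    rwa [hd.deriv]

/- f U ∘ σ is monotone on [0, r]: at t < r, in a chart normalised at σ t, its derivative is
2 ⟪A U v, ev U⟫ = -2 ⟪v, A U (ev U)⟫ ≥ 0 (hasFDerivAt_F, f_eq, skew, orbit_ineq for h.shift).
Let t₀ be the supremum of the t with σ [0, t] ⊆ Om U; if t₀ < r apply conv at σ t₀ on a short
interval [t₀ - e, t₀ + e] (t₀ > 0 because Om U is open). -/
theorem Act.stay (α : Act 𝒜 V) (hn : Nonneg 𝒜) {W U : V} {σ : ℝ → M} {r : ℝ}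
    (h : MinGeo 𝒜 (α.Om W)ᶜ σ r) (h0 : σ 0 ∈ α.Om U) : ∀ t ∈ Ico 0 r, σ t ∈ α.Om U := by
  intro t ht
  by_contra hcon
  have hmono := geo_mono α hn U h
  set T : Set ℝ := {s | s ∈ Icc 0 t ∧ σ s ∉ α.Om U} with hT
  have hne : T.Nonempty := ⟨t, ⟨ht.1, le_rfl⟩, hcon⟩
  have hbd : BddBelow T := ⟨0, fun s hs => hs.1.1⟩
  have ht₀ : sInf T ≤ t := csInf_le hbd ⟨⟨ht.1, le_rfl⟩, hcon⟩
  have hpos : 0 < sInf T := by
    obtain ⟨δ, hδ, hball⟩ := Metric.eventually_nhds_iff.1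
      ((h.geo 0 ⟨le_rfl, h.pos.le⟩).1.continuousAt.eventually (isOpen_interior.mem_nhds h0))
    refine hδ.trans_le (le_csInf hne fun s hs => ?_)
    by_contra hlt
    push Not at hlt
    refine hs.2 (hball ?_)
    rwa [Real.dist_eq, sub_zero, abs_of_nonneg hs.1.1]
  set t₀ := sInf T with ht₀'
  have hr : t₀ < r := ht₀.trans_lt ht.2
  obtain ⟨O, hO, η, hη, hconv⟩ := α.conv hn (σ t₀)
  obtain ⟨δ, hδ, hball⟩ := Metric.eventually_nhds_iff.1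
    ((h.geo t₀ ⟨hpos.le, hr.le⟩).1.continuousAt.eventually hO)
  obtain ⟨e, he0, he1, he2, he3, he4⟩ :
      ∃ e, 0 < e ∧ e ≤ η / 2 ∧ e ≤ t₀ ∧ e ≤ r - t₀ ∧ e < δ := by
    refine ⟨min (min (η / 2) t₀) (min (r - t₀) (δ / 2)), ?_, ?_, ?_, ?_, ?_⟩
    · have := sub_pos.2 hr
      positivity
    · exact (min_le_left _ _).trans (min_le_left _ _)
    · exact (min_le_left _ _).trans (min_le_right _ _)
    · exact (min_le_right _ _).trans (min_le_left _ _)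
    · exact ((min_le_right _ _).trans (min_le_right _ _)).trans_lt (by linarith)
  have ha : σ (t₀ - e) ∈ α.Om U := by
    by_contra hx
    have := csInf_le hbd (show t₀ - e ∈ T from ⟨⟨by linarith, by linarith⟩, hx⟩)
    linarith
  have k := (hconv U σ (t₀ - e) (t₀ + e) (by linarith) (by linarith) fun s hs => by
    have hs' : s ∈ Icc 0 r := ⟨by linarith [hs.1], by linarith [hs.2]⟩
    refine ⟨(h.geo s hs').1, slowAt_of_unit (h.geo s hs').2, hball ?_⟩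
    rw [Real.dist_eq, abs_lt]
    exact ⟨by linarith [hs.1], by linarith [hs.2]⟩).2 ha
    (hmono ⟨by linarith, by linarith⟩ ⟨by linarith, by linarith⟩ (by linarith))
  have : t₀ + e ≤ t₀ := by
    refine le_csInf hne fun s hs => ?_
    by_contra hlt
    push Not at hlt
    have := csInf_le hbd hs
    exact hs.2 (k s ⟨by linarith, hlt⟩)
  linarith

/- Let ρᵢ = rho (Om Uᵢ)ᶜ.  σ₁ 0 ∈ Om U₂ (not_mem), so σ₁ [0, r₁) ⊆ Om U₂ by stay.  For s < r₁ let τ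
be a minimal geodesic from σ₁ s to (Om U₂)ᶜ, of length L = ρ₂ (σ₁ s), and p = G(σ₁'(s), τ'(0)) in
a chart at σ₁ s.  supergrad for (σ₂, γ = σ₁ on [0, s]) gives L ≤ r₂ - s G v₂ v₁; for (τ, γ = σ₁
reversed from s to 0) gives r₂ ≤ L + s p; so G v₁ v₂ ≤ p.  By stay τ [0, L) ⊆ Om U₁, and supergrad
for (h₁.shift s, γ = τ) gives 0 ≤ r₁ - s - L p.  As s → r₁, L → ρ₂ (σ₁ r₁) > 0 (rho_pos). -/
theorem Act.obtuse (α : Act 𝒜 V) (hn : Nonneg 𝒜) {U₁ U₂ : V} {σ₁ σ₂ : ℝ → M} {r₁ r₂ : ℝ}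
    (h₁ : MinGeo 𝒜 (α.Om U₁)ᶜ σ₁ r₁) (h₂ : MinGeo 𝒜 (α.Om U₂)ᶜ σ₂ r₂) (h0 : σ₂ 0 = σ₁ 0)
    (he : σ₁ r₁ ∈ α.Om U₂) {c : Chart E M} (hc : c ∈ 𝒜.S) (hm : σ₁ 0 ∈ c.ψ.source) {v₁ v₂ : E}
    (hv₁ : HasDerivAt (c.ψ ∘ σ₁) v₁ 0) (hv₂ : HasDerivAt (c.ψ ∘ σ₂) v₂ 0) :
    c.G (c.ψ (σ₁ 0)) v₁ v₂ ≤ 0 := by
  have hcl : IsClosed (α.Om U₂)ᶜ := isOpen_interior.isClosed_compl
  have hin₂ : ∀ t ∈ Ico 0 r₁, σ₁ t ∈ α.Om U₂ :=
    α.stay hn h₁ (h0 ▸ not_not.1 (h₂.not_mem ⟨le_rfl, h₂.pos⟩))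
  have hr₂ : rho 𝒜 (α.Om U₂)ᶜ (σ₁ 0) = r₂ := by
    rw [← h0, h₂.eq 0 ⟨le_rfl, h₂.pos.le⟩, sub_zero]
  have key : ∀ s ∈ Ioo 0 r₁,
      rho 𝒜 (α.Om U₂)ᶜ (σ₁ s) * c.G (c.ψ (σ₁ 0)) v₁ v₂ ≤ r₁ - s := by
    intro s hs
    have hs' := Ioo_subset_Ico_self hs
    obtain ⟨τ, hτ0, hτ⟩ := exists_minGeo (𝒜 := 𝒜) hcl h₂.nonempty
      (x := σ₁ s) (not_not.2 (hin₂ s hs'))
    obtain ⟨c', hc', hm', -⟩ := 𝒜.norm (σ₁ s)
    obtain ⟨a, ha⟩ := geo_vel (h₁.geo s (Ioo_subset_Icc_self hs)).1 hc' hm'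
    obtain ⟨b, hb⟩ := geo_vel (hτ.geo 0 ⟨le_rfl, hτ.pos.le⟩).1 hc' (hτ0 ▸ hm')
    have k1 := α.supergrad hn h₂ hs.1.le
      (fun t ht => (h₁.geo t ⟨ht.1, ht.2.trans hs.2.le⟩).1) h0.symm
      (fun t ht => hin₂ t ⟨ht.1, ht.2.trans hs.2⟩) hc (h0 ▸ hm) hv₂ hv₁
    have k2 := α.supergrad hn hτ (γ := fun l => σ₁ (-1 * l + s)) hs.1.le
      (fun t ht => GeoAt.affine (h₁.geo _ ⟨by linarith [ht.2], by linarith [ht.1, hs.2]⟩).1)
      (by simp [hτ0]) (fun t ht => hin₂ _ ⟨by linarith [ht.2], by linarith [ht.1, hs.2]⟩) hc'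
      (hτ0 ▸ hm') hb (geo_affine_vel ha (-1))
    have k3 := α.supergrad hn (h₁.shift hs') (γ := τ) hτ.pos.le (fun t ht => (hτ.geo t ht).1)
      (by simp [hτ0]) (α.stay hn hτ (hτ0 ▸ not_not.1 (h₁.not_mem hs'))) hc'
      (by simpa using hm') (geo_shift_vel ha) hb
    have k4 := rho_nonneg (𝒜 := 𝒜) (α.Om U₁)ᶜ (τ (rho 𝒜 (α.Om U₂)ᶜ (σ₁ s)))
    rw [h0, c.chr.symm _ (c.ψ.map_source hm)] at k1
    rw [show -1 * s + s = 0 by ring, hr₂, hτ0, c'.chr.symm _ (c'.ψ.map_source hm'), map_smul,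
      _root_.smul_apply, smul_eq_mul] at k2
    simp only [zero_add] at k3
    have k5 : c.G (c.ψ (σ₁ 0)) v₁ v₂ ≤ c'.G (c'.ψ (σ₁ s)) a b :=
      le_of_mul_le_mul_left (by linarith) hs.1
    have k6 := mul_le_mul_of_nonneg_left k5 hτ.pos.le
    linarith
  have hp := rho_pos (𝒜 := 𝒜) hcl h₂.nonempty (x := σ₁ r₁) (not_not.2 he)
  have t1 : Tendsto (fun s => rho 𝒜 (α.Om U₂)ᶜ (σ₁ s) * c.G (c.ψ (σ₁ 0)) v₁ v₂) (𝓝[<] r₁)
      (𝓝 (rho 𝒜 (α.Om U₂)ᶜ (σ₁ r₁) * c.G (c.ψ (σ₁ 0)) v₁ v₂)) :=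
    ((((continuous_rho _).continuousAt.comp
      (h₁.geo r₁ ⟨h₁.pos.le, le_rfl⟩).1.continuousAt).tendsto).mul_const _).mono_left
      nhdsWithin_le_nhds
  have t2 : Tendsto (fun s => r₁ - s) (𝓝[<] r₁) (𝓝 (r₁ - r₁)) :=
    ((continuous_const.sub continuous_id : Continuous fun s => r₁ - s).tendsto r₁).mono_left
      nhdsWithin_le_nhds
  have k := le_of_tendsto_of_tendsto t1 t2
    (Filter.Eventually.mono (Ioo_mem_nhdsLT h₁.pos) fun s hs => key s hs)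
  rw [sub_self] at k
  by_contra hcon
  push Not at hcon
  exact absurd (mul_pos hp hcon) (not_lt.2 k)

end Pool.Agent.MP_3a00c0_gt

end
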